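import Pool.Agent.N597.RK.Props

set_option autoImplicit false

namespace Pool.Agent.N597.RK.Clo2

open Pool.Agent.N597.RK

theorem card_vars {n : ℕ} {T : FT n} (h : Cons T) : (vars T).card = T.card := by
  unfold vars
  refine Finset.card_image_of_injOn ?_
  intro a ha b hb hab
  rw [Finset.mem_coe] at ha hb
  by_contra hne
  have h1 : b = (a.1, !a.2) := by
    refine Prod.ext hab.symm ?_
    cases ha2 : a.2 <;> cases hb2 : b.2 <;> simp_all [Prod.ext_iff]
  rw [h1] at hb
  exact h a ha hb

theorem closure : Closure := by
  classical
  intro n k a s G hC hR hs hks T hT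
  let VV : Finset (FT n) → Finset (Fin n) := fun A => vars T ∪ A.biUnion vars
  let fam := G.powerset.filter fun A => (VV A).card ≤ T.card + a * A.card
  have hne : fam.Nonempty := by
    refine ⟨∅, ?_⟩
    simp only [fam, VV, Finset.mem_filter, Finset.mem_powerset, Finset.empty_subset,
      Finset.biUnion_empty, Finset.union_empty, Finset.card_empty, mul_zero, add_zero, true_and]
    exact (card_vars (hC T hT)).le
  obtain ⟨A, hA, hmax⟩ := Finset.exists_max_image fam Finset.card hne
  have hA1 : A ⊆ G := by
    have := (Finset.mem_filter.1 hA).1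
    exact Finset.mem_powerset.1 this
  have hA2 : (VV A).card ≤ T.card + a * A.card := (Finset.mem_filter.1 hA).2
  have hsubA : ∀ X ∈ A, vars X ⊆ VV A := fun X hX =>
    (Finset.subset_biUnion_of_mem vars hX).trans Finset.subset_union_right
  -- double counting
  have hdc : (s + 1) * A.card ≤ k * (VV A).card := by
    have h1 : (s + 1) * A.card ≤ ∑ X ∈ A, (vars X).card := by
      rw [mul_comm, ← smul_eq_mul]
      refine Finset.card_nsmul_le_sum _ _ _ ?_
      intro X hX
      rw [card_vars (hC X (hA1 hX))]
      exact hs X (hA1 hX)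
    have h2 : ∑ X ∈ A, (vars X).card = ∑ v ∈ VV A, (A.filter fun X => v ∈ vars X).card := by
      have h3 : ∀ X ∈ A, (vars X).card = ((VV A).filter fun v => v ∈ vars X).card := by
        intro X hX
        congr 1
        ext v
        rw [Finset.mem_filter]
        exact ⟨fun h => ⟨hsubA X hX h, h⟩, fun h => h.2⟩
      rw [Finset.sum_congr rfl h3]
      simp only [Finset.card_filter]
      exact Finset.sum_comm
    rw [h2] at h1
    refine h1.trans ?_
    rw [mul_comm, ← smul_eq_mul]
    refine Finset.sum_le_card_nsmul _ _ _ ?_
    intro v _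
    refine (Finset.card_le_card ?_).trans (hR v)
    exact Finset.filter_subset_filter _ hA1
  have hAT : A.card ≤ T.card := by
    by_contra hlt
    have h1 : T.card < A.card := by omega
    have h2 : (s + 1) * A.card ≤ k * (T.card + a * A.card) :=
      hdc.trans (Nat.mul_le_mul_left k hA2)
    have h3 : k * (T.card + a * A.card) ≤ k * (A.card + a * A.card) :=
      Nat.mul_le_mul_left k (by omega)
    have h4 : k * (A.card + a * A.card) = (k * (a + 1)) * A.card := by ring
    have h5 : (k * (a + 1)) * A.card ≤ s * A.card := Nat.mul_le_mul_right _ hks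
    have h6 : (s + 1) * A.card = s * A.card + A.card := by ring
    omega
  refine ⟨VV A, Finset.subset_union_left, ?_, ?_⟩
  · calc (VV A).card ≤ T.card + a * A.card := hA2
      _ ≤ T.card + a * T.card := by
        have := Nat.mul_le_mul_left a hAT
        omega
      _ = (a + 1) * T.card := by ring
  · intro X hX
    by_contra hcon
    rw [not_or, not_lt] at hcon
    obtain ⟨hc1, hc2⟩ := hcon
    have hXA : X ∉ A := fun h => hc1 (hsubA X h)
    have h1 : insert X A ∈ fam := by
      rw [Finset.mem_filter, Finset.mem_powerset]
      refine ⟨Finset.insert_subset hX hA1, ?_⟩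
      have h2 : VV (insert X A) ⊆ VV A ∪ (vars X \ VV A) := by
        intro v hv
        simp only [VV, Finset.mem_union, Finset.mem_biUnion, Finset.mem_insert,
          Finset.mem_sdiff] at hv ⊢
        rcases hv with hv | ⟨Y, rfl | hY, hv⟩
        · exact Or.inl (Or.inl hv)
        · by_cases h : v ∈ vars T ∨ ∃ a ∈ A, v ∈ vars a
          · exact Or.inl h
          · exact Or.inr ⟨hv, h⟩
        · exact Or.inl (Or.inr ⟨Y, hY, hv⟩)
      have h3 := (Finset.card_le_card h2).trans (Finset.card_union_le _ _)
      rw [Finset.card_insert_of_notMem hXA]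
      calc (VV (insert X A)).card ≤ (VV A).card + (vars X \ VV A).card := h3
        _ ≤ (T.card + a * A.card) + a := Nat.add_le_add hA2 hc2
        _ = T.card + a * (A.card + 1) := by ring
    have h2 := hmax _ h1
    rw [Finset.card_insert_of_notMem hXA] at h2
    omega

end Pool.Agent.N597.RK.Clo2
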