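import Pool.Agent.N597.RK.Defs

/-!
# The statements of the lemmas for the analysis of the learner
-/

set_option autoImplicit false

namespace Pool.Agent.N597.RK

/-- Every variable occurs in at most `k` terms of the family. -/
def ReadF (k : ℕ) {n : ℕ} (G : Finset (FT n)) : Prop :=
  ∀ v : Fin n, (G.filter fun X => v ∈ vars X).card ≤ k

/-- The point with the coordinate `i` changed. -/
def flip {n : ℕ} (x : Fin n → Bool) (i : Fin n) : Fin n → Bool := Function.update x i (!x i)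

/-- Independence: fixing the coordinates in `V` divides the size of a set which does not depend on
them by `2 ^ |V|`. -/
def Indep : Prop := ∀ (n : ℕ) (V : Finset (Fin n)) (y : Fin n → Bool)
  (A : Finset (Fin n → Bool)), (∀ x z : Fin n → Bool, (∀ j, j ∉ V → x j = z j) → (x ∈ A ↔ z ∈ A)) →
  (A.filter fun x => ∀ v ∈ V, x v = y v).card * 2 ^ V.card = A.card

/-- Independence, for a node. -/
def IndepTerm : Prop := ∀ (n : ℕ) (ν : Term), (ν.map Prod.fst).Nodup → (∀ l ∈ ν, l.1 < n) →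
  ∀ A : Finset (Fin n → Bool), (∀ x z : Fin n → Bool,
    (∀ j : Fin n, (∀ l ∈ ν, l.1 ≠ (j : ℕ)) → x j = z j) → (x ∈ A ↔ z ∈ A)) →
  (A.filter fun x => termSat (List.ofFn x) ν = true).card * 2 ^ ν.length = A.card

/-- Lovász local lemma: conditional on all terms of `S` being false, the term `T` is true with
probability at most `(3/4)^|T|`. -/
def LLLStep : Prop := ∀ (n k r : ℕ), 3 * k * 3 ^ r ≤ 4 ^ r → ∀ (S : Finset (FT n)) (T : FT n),
  T ∉ S → (∀ X ∈ insert T S, Cons X) → ReadF k (insert T S) → (∀ X ∈ S, r ≤ X.card) →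
  4 ^ T.card * ((Zer S).filter fun x => Sat T x).card ≤ 3 ^ T.card * (Zer S).card

/-- The zeros with given values on `V`. -/
def ZerFix : Prop := ∀ (n k r : ℕ), 3 * k * 3 ^ r ≤ 4 ^ r → 2 * 3 ^ r ≤ 4 ^ r →
  ∀ (G : Finset (FT n)), (∀ X ∈ G, Cons X) → ReadF k G → ∀ (V : Finset (Fin n))
  (y : Fin n → Bool), (∀ X ∈ G, (vars X ⊆ V ∧ ¬ Sat X y) ∨ r ≤ (vars X \ V).card) →
  (Zer G).card ≤ 2 ^ ((k + 1) * V.card) * ((Zer G).filter fun x => ∀ v ∈ V, x v = y v).card

/-- The closure of the set of variables of a term. -/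
def Closure : Prop := ∀ (n k a s : ℕ) (G : Finset (FT n)), (∀ X ∈ G, Cons X) → ReadF k G →
  (∀ X ∈ G, s < X.card) → k * (a + 1) ≤ s → ∀ T ∈ G, ∃ V : Finset (Fin n), vars T ⊆ V ∧
    V.card ≤ (a + 1) * T.card ∧ ∀ X ∈ G, vars X ⊆ V ∨ a < (vars X \ V).card

/-- The choice of the variable in which a term has the only false literal. -/
def PickLit : Prop := ∀ (n k a s : ℕ) (G : Finset (FT n)), (∀ X ∈ G, Cons X) → ReadF k G →
  (∀ X ∈ G, s < X.card) → k * (a + 1) ≤ s → ∀ T ∈ G, ∀ V : Finset (Fin n),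
    V.card ≤ (a + 1) * T.card → ∀ y, (∀ X ∈ G, X ≠ T → ¬ Sat X y) →
      ∃ i ∈ T, ∀ X ∈ G, X ≠ T → vars X ⊆ V → ¬ Sat X (flip y i.1)

/-- The main property of the numbers `s` and `C` for read-`k` families. -/
def CoreAt (k s C : ℕ) : Prop := ∀ (n : ℕ) (G : Finset (FT n)), (∀ X ∈ G, Cons X) → ReadF k G →
  (∀ X ∈ G, s < X.card) → ∀ T ∈ G, ∀ y, Sat T y → (∀ X ∈ G, X ≠ T → ¬ Sat X y) →
    ∃ i ∈ T, ∃ u : FT n, Cons u ∧ u.card < k ∧ i.1 ∉ vars u ∧
      (∀ v ∈ vars u, ∃ X ∈ G, v ∈ vars X) ∧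
      (∀ X ∈ G, X ≠ T → i.1 ∈ vars X → ∃ l ∈ X, l.1 ≠ i.1 ∧ (l.1, !l.2) ∈ u) ∧
      (Zer G).card ≤ 2 ^ (C * (T.card + 1)) *
        ((Zer G).filter fun x => Sat u x ∧ Sat (T.erase i) x).card

/-- Such numbers exist. -/
def Core : Prop := ∀ k : ℕ, ∃ s C : ℕ, CoreAt k s C

/-- The irredundant family of the terms of a formula that remain at a node `ν` without implicants
of size at most `s`. -/
def LeafFamily : Prop := ∀ (n k s : ℕ) (F : Dnf), Read k F → ∀ ν : Term,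
  (ν.map Prod.fst).Nodup → (∀ l ∈ ν, l.1 < n) →
  (∀ p ∈ exts (lits n) ν s, ∃ x : Fin n → Bool, dnfSat F (List.ofFn x) = false ∧
    termSat (List.ofFn x) (ν ++ p) = true) →
  ∃ G : Finset (FT n), (∀ X ∈ G, Cons X) ∧ ReadF k G ∧ (∀ X ∈ G, s < X.card) ∧ G.card ≤ k * n ∧
    (∀ X ∈ G, ∀ l ∈ X, ∀ l' ∈ ν, l'.1 ≠ (l.1 : ℕ)) ∧
    (∀ T ∈ G, ∃ y, Sat T y ∧ ∀ X ∈ G, X ≠ T → ¬ Sat X y) ∧
    ∀ x : Fin n → Bool, termSat (List.ofFn x) ν = true →
      (dnfSat F (List.ofFn x) = false ↔ x ∈ Zer G)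

/-- The nodes of the tree. -/
def PathFacts : Prop := ∀ (R : Term → Bool) (s n d : ℕ) (x : Fin n → Bool),
  ((path R s n (List.ofFn x) d).map Prod.fst).Nodup ∧
  (∀ l ∈ path R s n (List.ofFn x) d, l.1 < n) ∧ (path R s n (List.ofFn x) d).length ≤ s * d ∧
  termSat (List.ofFn x) (path R s n (List.ofFn x) d) = true ∧
  ∀ y : Fin n → Bool, termSat (List.ofFn y) (path R s n (List.ofFn x) d) = true →
    path R s n (List.ofFn y) d = path R s n (List.ofFn x) d

/-- The number of nodes at depth `d`. -/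
def NodeCount : Prop := ∀ (R : Term → Bool) (s n d : ℕ),
  (Finset.univ.image fun x : Fin n → Bool => path R s n (List.ofFn x) d).card ≤ 2 ^ (s * d)

/-- The points whose path has not ended after `d` steps. -/
def Unfinished : Prop := ∀ (R : Term → Bool) (s n d : ℕ),
  (Finset.univ.filter fun x : Fin n → Bool => R (path R s n (List.ofFn x) d) = false ∧
    ∃ p ∈ exts (lits n) (path R s n (List.ofFn x) d) s,
      R (path R s n (List.ofFn x) d ++ p) = true).card * 2 ^ (s * d) ≤ (2 ^ s - 1) ^ d * 2 ^ n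

/-- What happens on a path, and the trail. -/
def TreeCases : Prop := ∀ (R : Term → Bool) (s n D : ℕ) (x : Fin n → Bool), R [] = false →
  ((∃ d ≤ D, R (path R s n (List.ofFn x) d) = false ∧
      ∃ p ∈ exts (lits n) (path R s n (List.ofFn x) d) s,
        R (path R s n (List.ofFn x) d ++ p) = true ∧
        termSat (List.ofFn x) (path R s n (List.ofFn x) d ++ p) = true) ∨
    (R (path R s n (List.ofFn x) D) = false ∧
      ∃ p ∈ exts (lits n) (path R s n (List.ofFn x) D) s,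
        R (path R s n (List.ofFn x) D ++ p) = true) ∨
    ∀ p ∈ exts (lits n) (path R s n (List.ofFn x) D) s,
      R (path R s n (List.ofFn x) D ++ p) = false)

/-- The trail. -/
def TrailFacts : Prop := ∀ (R : Term → Bool) (s n D : ℕ) (x : List Bool),
  (∀ ν, ν ∈ trail R s n x D ↔ ∃ d ≤ D, ν = path R s n x d) ∧
    (trail R s n x D).headD [] = path R s n x D

/-- On a large subset of the cube only few coordinates are far from balanced. -/
def FewBiased : Prop := ∀ (n a : ℕ) (E : Finset (Fin n → Bool)), 2 ^ n ≤ 2 ^ a * E.card →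
  (Finset.univ.filter fun j : Fin n => 3 * E.card ≤
    4 * dst (E.filter fun x => x j = true).card (E.filter fun x => x j = false).card).card ≤
      6 * (a + 1)

/-- Most samples are representative. -/
def RepFail : Prop := ∀ (n m : ℕ) (F : Dnf) (γ : ℝ) (Λ : ℕ), 0 < γ → γ ≤ 1 → 1 ≤ m →
  (Nat.card {x : Fin m → Fin n → Bool // ¬ Rep n F γ Λ (sample F x)} : ℝ) ≤
    2 * (2 * n + 1) ^ Λ * Real.exp (-(γ ^ 2 * m / 4)) * 2 ^ (n * m)

/-- The effect of changing the coordinate `i` on the zeros of a family in which at most one term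
depends on the coordinate `i`. -/
def Pairing : Prop := ∀ (n : ℕ) (G : Finset (FT n)) (T : FT n) (i : Fin n × Bool)
  (P : (Fin n → Bool) → Prop) [DecidablePred P], T ∈ G → Cons T → i ∈ T →
  (∀ x, P x → P (flip x i.1)) → (∀ x, P x → ∀ X ∈ G, X ≠ T → i.1 ∈ vars X → ¬ Sat X x) →
  dst ((Zer G).filter fun x => P x ∧ x i.1 = true).card
      ((Zer G).filter fun x => P x ∧ x i.1 = false).card =
    ((Zer G).filter fun x => P x ∧ Sat (T.erase i) x).card ∧
  ∀ j : Fin n, j ≠ i.1 →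
    dst (((Zer G).filter fun x => P x ∧ x i.1 = true ∧ x j = true).card +
        ((Zer G).filter fun x => P x ∧ x i.1 = false ∧ x j = false).card)
      (((Zer G).filter fun x => P x ∧ x i.1 = true ∧ x j = false).card +
        ((Zer G).filter fun x => P x ∧ x i.1 = false ∧ x j = true).card) =
    dst ((Zer G).filter fun x => (P x ∧ Sat (T.erase i) x) ∧ x j = true).card
      ((Zer G).filter fun x => (P x ∧ Sat (T.erase i) x) ∧ x j = false).card

/-- The test with the sample finds the coordinates which are constant on `E`, and only biased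
ones. -/
def RatioTest : Prop := ∀ (n Λ : ℕ) (F : Dnf) (S : List Ex) (γ : ℝ), Rep n F γ Λ S →
  0 < S.length → ∀ c : Term, c.length + 2 ≤ Λ → (∀ l ∈ c, l.1 < n) →
  ∀ (G : Finset (FT n)) (T : FT n) (i : Fin n × Bool), T ∈ G → Cons T → i ∈ T →
  (∀ l ∈ c, l.1 ≠ (i.1 : ℕ)) →
  (∀ x : Fin n → Bool, termSat (List.ofFn x) c = true →
    (dnfSat F (List.ofFn x) = false ↔ x ∈ Zer G)) →
  (∀ x : Fin n → Bool, termSat (List.ofFn x) c = true → ∀ X ∈ G, X ≠ T → i.1 ∈ vars X →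
    ¬ Sat X x) →
  ∀ E : Finset (Fin n → Bool),
  (E = (Zer G).filter fun x => termSat (List.ofFn x) c = true ∧ Sat (T.erase i) x) →
  100 * γ * 2 ^ n ≤ E.card →
  (∀ j : Fin n, (j ∈ vars T ∨ ∃ l ∈ c, l.1 = (j : ℕ)) → test S c i.1 j = true) ∧
  ∀ j : Fin n, test S c i.1 j = true → 3 * E.card ≤
    4 * dst (E.filter fun x => x j = true).card (E.filter fun x => x j = false).card

/-- The enumeration of the assignments. -/
def PatsFacts : Prop := ∀ (cap : ℕ) (J : List ℕ),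
  (1 ≤ cap → (pats cap J).length ≤ cap) ∧
  (∀ c ∈ pats cap J, (∀ l ∈ c, l.1 ∈ J) ∧ (1 ≤ cap → 2 ^ c.length ≤ cap)) ∧
  ∀ x : List Bool, (∀ j ∈ J, j < x.length) → 2 ^ J.length ≤ cap → ∃ c ∈ pats cap J,
    termSat x c = true ∧ ∀ j ∈ J, ∃ l ∈ c, l.1 = j

/-- The extensions of a node. -/
def ExtsFacts : Prop := ∀ (n : ℕ) (ν : Term) (j : ℕ),
  (exts (lits n) ν j).length ≤ (2 * n + 1) ^ j ∧
  ∀ p : Term, p ∈ exts (lits n) ν j ↔ p.length ≤ j ∧ (p.map Prod.fst).Nodup ∧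
    ∀ l ∈ p, l.1 < n ∧ ∀ l' ∈ ν, l'.1 ≠ l.1

/-- The sample comes from the formula. -/
def Labelled (n : ℕ) (F : Dnf) (S : List Ex) : Prop :=
  ∀ z ∈ S, ∃ x : Fin n → Bool, z = (List.ofFn x, dnfSat F (List.ofFn x))

/-- The points that are accepted by mistake. -/
def FalsePos : Prop := ∀ (n s k q D cap Λ : ℕ) (F : Dnf) (S : List Ex) (γ : ℝ), 0 ≤ γ →
  Rep n F γ Λ S → Labelled n F S → 0 < S.length → 0 < q → 1 ≤ cap → cap ≤ 2 ^ Λ →
  s * D + s ≤ Λ →
  ((Finset.univ.filter fun y : Fin n → Bool => dnfSat F (List.ofFn y) = false ∧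
    dnfSat (learnT s k q D cap n S) (List.ofFn y) = true).card : ℝ) ≤
    ((D + 1) * 2 ^ (s * D) * (2 * n + 1) ^ s * (1 / q + γ) +
      2 ^ (s * D) * (2 * n + 1) ^ k * cap * γ) * 2 ^ n

/-- The points in a leaf that are rejected by mistake. -/
def LeafHit : Prop := ∀ (k s C : ℕ), CoreAt k s C → ∀ (n q D cap ℓ a Λ : ℕ) (F : Dnf), Read k F →
  ∀ (S : List Ex) (γ : ℝ), 0 ≤ γ → Rep n F γ Λ S → Labelled n F S → 0 < S.length → 0 < q →
  s * D + k + 2 ≤ Λ → 2 ^ (6 * (a + 1)) ≤ cap → γ * (100 * 2 ^ a) ≤ 1 →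
  2 * q * 2 ^ (C * (ℓ + 1)) ≤ 2 ^ a → ∀ ν : Term, (ν.map Prod.fst).Nodup →
  (∀ l ∈ ν, l.1 < n) → ν.length ≤ s * D →
  (∀ p ∈ exts (lits n) ν s, rare q S (ν ++ p) = false) →
  (Finset.univ.filter fun y : Fin n → Bool => termSat (List.ofFn y) ν = true ∧
    dnfSat F (List.ofFn y) = true ∧ dnfSat (h2 k cap n S ν) (List.ofFn y) = false).card * 2 ^ ℓ ≤
    k * n * (Finset.univ.filter fun y : Fin n → Bool => termSat (List.ofFn y) ν = true).card

/-- The points that are rejected by mistake. -/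
def FalseNeg : Prop := ∀ (k s C : ℕ), CoreAt k s C → ∀ (n q D cap ℓ a Λ : ℕ) (F : Dnf), Read k F →
  ∀ (S : List Ex) (γ : ℝ), 0 ≤ γ → Rep n F γ Λ S → Labelled n F S → 0 < S.length → 0 < q →
  s * D + k + 2 ≤ Λ → 2 ^ (6 * (a + 1)) ≤ cap → γ * (100 * 2 ^ a) ≤ 1 →
  2 * q * 2 ^ (C * (ℓ + 1)) ≤ 2 ^ a →
  ((Finset.univ.filter fun y : Fin n → Bool => dnfSat F (List.ofFn y) = true ∧
    dnfSat (learnT s k q D cap n S) (List.ofFn y) = false).card : ℝ) ≤
    ((1 - 1 / 2 ^ s) ^ D + k * n / 2 ^ ℓ) * 2 ^ n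

end Pool.Agent.N597.RK
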