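import Mathlib
import Pool.Agent.N597.RK.Props

/-!
# The main combinatorial lemma from its parts
-/

set_option autoImplicit false

namespace Pool.Agent.N597.RK

namespace Cor

theorem pow_aux (r : ℕ) : (3 + r) * 3 ^ r ≤ 3 * 4 ^ r := by
  induction r with
  | zero => norm_num
  | succ r ih => 
    rw [pow_succ, pow_succ]
    nlinarith [ih, pow_pos (show 0 < 3 by norm_num) r]

theorem exists_r (k : ℕ) : ∃ r : ℕ, 3 * k * 3 ^ r ≤ 4 ^ r ∧ 2 * 3 ^ r ≤ 4 ^ r := by
  refine ⟨9 * k + 6, ?_, ?_⟩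
  · have := pow_aux (9 * k + 6)
    nlinarith [pow_pos (show 0 < 3 by norm_num) (9 * k + 6)]
  · have := pow_aux (9 * k + 6)
    nlinarith [pow_pos (show 0 < 3 by norm_num) (9 * k + 6)]

theorem bne {a b : Bool} (h : a ≠ b) : a = !b := by
  revert h; cases a <;> cases b <;> decide

theorem bne' {a : Bool} (h : a = !a) : False := by
  revert h; cases a <;> decide

theorem mem_vars {n : ℕ} {X : FT n} {v : Fin n} : v ∈ vars X ↔ ∃ l ∈ X, l.1 = v := by
  simp [vars]

/-- the literal chosen in case (a) -/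
theorem case_a {n : ℕ} (X : FT n) (hX : Cons X) (y : Fin n → Bool) (v : Fin n)
    (h1 : ¬ Sat X y) (h2 : ¬ Sat X (flip y v)) :
    ∃ l ∈ X, l.1 ≠ v ∧ flip y v l.1 ≠ l.2 := by
  by_contra hcon
  push Not at hcon
  have hh : ∀ l ∈ X, l.1 ≠ v → y l.1 = l.2 := by
    intro l hl hv
    have := hcon l hl hv
    rwa [flip, Function.update_of_ne hv] at this
  unfold Sat at h1 h2
  push Not at h1 h2
  obtain ⟨l0, hl0, h0⟩ := h1
  obtain ⟨l1, hl1, h1'⟩ := h2
  have e0 : l0.1 = v := by
    by_contra hne; exact h0 (hh l0 hl0 hne)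
  have e1 : l1.1 = v := by
    by_contra hne
    apply h1'
    rw [flip, Function.update_of_ne hne]; exact hh l1 hl1 hne
  rw [e0] at h0
  rw [e1, flip, Function.update_self] at h1'
  apply hX l0 hl0
  have : (l0.1, !l0.2) = l1 := by
    ext
    · simp [e0, e1]
    · cases hy : y v <;> cases hl : l0.2 <;> cases hl' : l1.2 <;> simp_all
  rw [this]; exact hl1

/-- distinct representatives in case (b) -/
theorem case_b {n : ℕ} (l₀ : Fin n × Bool) (Hb : Finset (FT n)) (V : Finset (Fin n)) (k : ℕ) (hk : Hb.card ≤ k)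
    (hV : ∀ X ∈ Hb, k ≤ (vars X \ V).card) :
    ∃ w : FT n → Fin n × Bool, (∀ X ∈ Hb, w X ∈ X ∧ (w X).1 ∉ V) ∧
      ∀ X ∈ Hb, ∀ Y ∈ Hb, (w X).1 = (w Y).1 → X = Y := by
  classical
  have hall : ∀ s : Finset {X // X ∈ Hb},
      s.card ≤ (s.biUnion (fun X => vars X.1 \ V)).card := by
    intro s
    rcases s.eq_empty_or_nonempty with rfl | ⟨X, hX⟩
    · simp
    · calc s.card ≤ Fintype.card {X // X ∈ Hb} := Finset.card_le_univ s
        _ = Hb.card := by simp
        _ ≤ k := hk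
        _ ≤ (vars X.1 \ V).card := hV X.1 X.2
        _ ≤ _ := Finset.card_le_card (Finset.subset_biUnion_of_mem
            (fun X : {X // X ∈ Hb} => vars X.1 \ V) hX)
  obtain ⟨f, hf, hfm⟩ := (Finset.all_card_le_biUnion_card_iff_exists_injective _).1 hall
  have hex : ∀ X : {X // X ∈ Hb}, ∃ l ∈ X.1, l.1 = f X := fun X =>
    mem_vars.1 (Finset.mem_sdiff.1 (hfm X)).1
  choose g hg hgf using hex
  refine ⟨fun X => if h : X ∈ Hb then g ⟨X, h⟩ else l₀, ?_, ?_⟩
  · intro X hX
    simp only [hX, dif_pos]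
    refine ⟨hg ⟨X, hX⟩, ?_⟩
    rw [hgf]; exact (Finset.mem_sdiff.1 (hfm ⟨X, hX⟩)).2
  · intro X hX Y hY hXY
    simp only [hX, hY, dif_pos, hgf] at hXY
    have := hf hXY
    simpa using this

end Cor

open Cor in
theorem core (h1 : ZerFix) (h2 : Closure) (h3 : PickLit) : Core := by
  classical
  intro k
  obtain ⟨r, hr1, hr2⟩ := exists_r k
  refine ⟨k * (r + k + 1), (k + 1) * (r + k + 1 + k), ?_⟩
  intro n G hC hR hs T hT y hTy hy
  obtain ⟨V, hTV, hVc, hV⟩ := h2 n k (r + k) _ G hC hR hs le_rfl T hT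
  obtain ⟨i, hiT, hi⟩ := h3 n k (r + k) _ G hC hR hs le_rfl T hT V hVc y hy
  set y' := flip y i.1 with hy'
  have hiV : i.1 ∈ V := hTV (mem_vars.2 ⟨i, hiT, rfl⟩)
  have hyi : y i.1 = i.2 := hTy i hiT
  have hTy' : ¬ Sat T y' := by
    intro h
    have := h i hiT
    rw [hy', flip, Function.update_self, hyi] at this
    exact bne' this.symm
  have hfalse : ∀ X ∈ G, vars X ⊆ V → ¬ Sat X y' := by
    intro X hX hXV
    by_cases hXT : X = T
    · rw [hXT]; exact hTy'
    · exact hi X hX hXT hXV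
  set H := G.filter fun X => X ≠ T ∧ i.1 ∈ vars X with hH
  have hHG : ∀ X ∈ H, X ∈ G ∧ X ≠ T ∧ i.1 ∈ vars X := fun X hX => by
    simpa [hH] using hX
  have hTH : T ∉ H := fun h => (hHG T h).2.1 rfl
  have hHk : H.card + 1 ≤ k := by
    rw [← Finset.card_insert_of_notMem hTH]
    refine (Finset.card_le_card ?_).trans (hR i.1)
    intro X hX
    rcases Finset.mem_insert.1 hX with rfl | hX
    · exact Finset.mem_filter.2 ⟨hT, mem_vars.2 ⟨i, hiT, rfl⟩⟩
    · exact Finset.mem_filter.2 ⟨(hHG X hX).1, (hHG X hX).2.2⟩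
  set Hb := H.filter fun X => ¬ vars X ⊆ V with hHb
  have hHbc : Hb.card ≤ k := (Finset.card_filter_le _ _).trans (by omega)
  have hHbm : ∀ X, X ∈ Hb ↔ X ∈ H ∧ ¬ vars X ⊆ V := fun X => by simp [hHb]
  obtain ⟨wb, hwb, hwbi⟩ := case_b i Hb V k hHbc (fun X hX => by
    have h1 := (hHbm X).1 hX
    rcases hV X (hHG X h1.1).1 with h | h
    · exact absurd h h1.2
    · omega)
  have hexa : ∀ X : FT n, ∃ l : Fin n × Bool, X ∈ H → vars X ⊆ V →
      l ∈ X ∧ l.1 ≠ i.1 ∧ y' l.1 ≠ l.2 := by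
    intro X
    by_cases hX : X ∈ H ∧ vars X ⊆ V
    · obtain ⟨l, hl, hl1, hl2⟩ := case_a X (hC X (hHG X hX.1).1) y i.1
        (hy X (hHG X hX.1).1 (hHG X hX.1).2.1) (hfalse X (hHG X hX.1).1 hX.2)
      exact ⟨l, fun _ _ => ⟨hl, hl1, hl2⟩⟩
    · exact ⟨i, fun h1 h2 => absurd ⟨h1, h2⟩ hX⟩
  choose wa hwa using hexa
  set w : FT n → Fin n × Bool := fun X => if vars X ⊆ V then wa X else wb X with hw
  have hwX : ∀ X ∈ H, w X ∈ X ∧ (w X).1 ≠ i.1 := by
    intro X hX
    by_cases hXV : vars X ⊆ V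
    · simp only [hw, hXV, if_true]
      exact ⟨(hwa X hX hXV).1, (hwa X hX hXV).2.1⟩
    · simp only [hw, hXV, if_false]
      have := hwb X ((hHbm X).2 ⟨hX, hXV⟩)
      exact ⟨this.1, fun h => this.2 (h ▸ hiV)⟩
  set y'' : Fin n → Bool := fun v =>
    if h : ∃ X ∈ Hb, (wb X).1 = v then !(wb h.choose).2 else y' v with hy''
  have hy''V : ∀ v ∈ V, y'' v = y' v := by
    intro v hv
    simp only [hy'']
    rw [dif_neg]
    rintro ⟨X, hX, rfl⟩
    exact (hwb X hX).2 hv
  have hy''b : ∀ X ∈ Hb, y'' (wb X).1 = !(wb X).2 := by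
    intro X hX
    have hex : ∃ Y ∈ Hb, (wb Y).1 = (wb X).1 := ⟨X, hX, rfl⟩
    simp only [hy'']
    rw [dif_pos hex]
    have := hwbi _ hex.choose_spec.1 X hX hex.choose_spec.2
    rw [this]
  set V' := V ∪ Hb.image (fun X => (wb X).1) with hV'
  have hVV' : V ⊆ V' := Finset.subset_union_left
  set u : FT n := H.image (fun X => ((w X).1, !(w X).2)) with hu
  have hwV' : ∀ X ∈ H, (w X).1 ∈ V' := by
    intro X hX
    by_cases hXV : vars X ⊆ V
    · exact hVV' (hXV (mem_vars.2 ⟨w X, (hwX X hX).1, rfl⟩))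
    · simp only [hw, hXV, if_false]
      exact Finset.mem_union_right _ (Finset.mem_image_of_mem _ ((hHbm X).2 ⟨hX, hXV⟩))
  have huy : ∀ X ∈ H, y'' (w X).1 = !(w X).2 := by
    intro X hX
    by_cases hXV : vars X ⊆ V
    · rw [hy''V _ (hXV (mem_vars.2 ⟨w X, (hwX X hX).1, rfl⟩))]
      simp only [hw, hXV, if_true]
      exact bne ((hwa X hX hXV).2.2)
    · simp only [hw, hXV, if_false]
      exact hy''b X ((hHbm X).2 ⟨hX, hXV⟩)
  have hsat : ∀ l ∈ u, y'' l.1 = l.2 := by
    intro l hl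
    obtain ⟨X, hX, rfl⟩ := Finset.mem_image.1 hl
    exact huy X hX
  refine ⟨i, hiT, u, ?_, ?_, ?_, ?_, ?_, ?_⟩
  · intro l hl hl'
    have h1 := hsat l hl
    have h2 := hsat _ hl'
    simp only at h2
    rw [h1] at h2
    exact bne' h2
  · exact (Finset.card_image_le).trans_lt (by omega)
  · intro hmem
    obtain ⟨l, hl, hli⟩ := mem_vars.1 hmem
    obtain ⟨X, hX, rfl⟩ := Finset.mem_image.1 hl
    exact (hwX X hX).2 hli
  · intro v hv
    obtain ⟨l, hl, rfl⟩ := mem_vars.1 hv
    obtain ⟨X, hX, rfl⟩ := Finset.mem_image.1 hl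
    exact ⟨X, (hHG X hX).1, mem_vars.2 ⟨w X, (hwX X hX).1, rfl⟩⟩
  · intro X hX hXT hXi
    have hXH : X ∈ H := Finset.mem_filter.2 ⟨hX, hXT, hXi⟩
    exact ⟨w X, (hwX X hXH).1, (hwX X hXH).2, Finset.mem_image_of_mem _ hXH⟩
  · have himg : (Hb.image (fun X => (wb X).1)).card ≤ k :=
      Finset.card_image_le.trans hHbc
    have hz := h1 n k r hr1 hr2 G hC hR V' y'' (by
      intro X hX
      by_cases hXV : vars X ⊆ V
      · left
        refine ⟨hXV.trans hVV', fun hsatX => hfalse X hX hXV ?_⟩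
        intro l hl
        rw [← hy''V _ (hXV (mem_vars.2 ⟨l, hl, rfl⟩))]
        exact hsatX l hl
      · right
        rcases hV X hX with h | h
        · exact absurd h hXV
        · have hsub : vars X \ V ⊆ (vars X \ V') ∪ Hb.image (fun X => (wb X).1) := by
            intro v hv
            rw [Finset.mem_sdiff] at hv
            by_cases hvi : v ∈ Hb.image (fun X => (wb X).1)
            · exact Finset.mem_union_right _ hvi
            · refine Finset.mem_union_left _ (Finset.mem_sdiff.2 ⟨hv.1, ?_⟩)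
              rw [hV', Finset.mem_union]
              tauto
          have hc := (Finset.card_le_card hsub).trans (Finset.card_union_le _ _)
          omega)
    have hV'c : V'.card ≤ (r + k + 1) * T.card + k := by
      rw [hV']
      exact (Finset.card_union_le _ _).trans (by omega)
    refine hz.trans (Nat.mul_le_mul (Nat.pow_le_pow_right (by norm_num) ?_) ?_)
    · calc (k + 1) * V'.card ≤ (k + 1) * ((r + k + 1) * T.card + k) :=
            Nat.mul_le_mul_left _ hV'c
        _ ≤ (k + 1) * ((r + k + 1 + k) * (T.card + 1)) := by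
            apply Nat.mul_le_mul_left
            nlinarith
        _ = _ := by ring
    · apply Finset.card_le_card
      intro x hx
      rw [Finset.mem_filter] at hx ⊢
      refine ⟨hx.1, ?_, ?_⟩
      · intro l hl
        obtain ⟨X, hX, rfl⟩ := Finset.mem_image.1 hl
        rw [hx.2 _ (hwV' X hX)]
        exact huy X hX
      · intro l hl
        rw [Finset.mem_erase] at hl
        have hl1 : l.1 ≠ i.1 := by
          intro he
          apply hC T hT i hiT
          have : (i.1, !i.2) = l := by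
            ext
            · simp [he]
            · have hne : l.2 ≠ i.2 := fun h => hl.1 (Prod.ext he h)
              exact (bne hne).symm
          rw [this]; exact hl.2
        have hlV : l.1 ∈ V := hTV (mem_vars.2 ⟨l, hl.2, rfl⟩)
        rw [hx.2 _ (hVV' hlV), hy''V _ hlV, hy', flip, Function.update_of_ne hl1]
        exact hTy l hl.2

end Pool.Agent.N597.RK

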