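import Mathlib

/-!
# Learning DNF formulas in which every variable occurs in a bounded number of terms: the learner

A point of the cube is a list of bits, an example is a point with a label. A literal `(i, b)` demands
that the coordinate `i` is `b`; a term is a list of literals, a DNF formula a list of terms.
-/

set_option autoImplicit false

namespace Pool.Agent.N597.RK

/-- A literal: a coordinate and the value it must have. -/
abbrev Lit : Type := ℕ × Bool

/-- A term: a conjunction of literals. -/
abbrev Term : Type := List Lit

/-- A DNF formula: a disjunction of terms. -/
abbrev Dnf : Type := List Term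

/-- A labelled example. -/
abbrev Ex : Type := List Bool × Bool

/-- The literal `l` is true at the point `x`. -/
def litSat (x : List Bool) (l : Lit) : Bool := decide (x[l.1]? = some l.2)

/-- The term `c` is true at the point `x`. -/
def termSat (x : List Bool) (c : Term) : Bool := c.all (litSat x)

/-- The value of the formula `F` at the point `x`. -/
def dnfSat (F : Dnf) (x : List Bool) : Bool := F.any (termSat x)

/-- The number of negative examples at which the term `c` is true. -/
def cnt (S : List Ex) (c : Term) : ℕ := (S.filter fun z => !z.2 && termSat z.1 c).length

/-- All literals in `n` variables. -/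
def lits (n : ℕ) : Term := (List.range n).flatMap fun i => [(i, false), (i, true)]

/-- The terms with at most `j` literals from `A`, in different variables which do not occur in
`ν`. The first one is the empty term. -/
def exts (A ν : Term) : ℕ → List Term
  | 0 => [[]]
  | j + 1 => [] :: (exts A ν j).flatMap fun p =>
      (A.filter fun a => !((ν ++ p).any fun l => decide (l.1 = a.1))).map fun a => a :: p

/-- Less than the `q`-th part of the examples are negative and satisfy `c`. -/
def rare (q : ℕ) (S : List Ex) (c : Term) : Bool := decide (q * cnt S c < S.length)

/-- The literals in the variables of `p` which are true at `x`. -/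
def restr (x : List Bool) (p : Term) : Term := p.map fun l => (l.1, (x[l.1]?).getD false)

/-- One step of the path of the point `x` in the tree: the first extension `p` of the node `ν` for
which `R (ν ++ p)` holds is looked for, and the values of `x` at the variables of `p` are added
(nothing is added if there is none). -/
def step (R : Term → Bool) (s n : ℕ) (x : List Bool) (ν : Term) : Term :=
  ν ++ restr x (((exts (lits n) ν s).filter fun p => R (ν ++ p)).headD [])

/-- The path of `x`. -/
def path (R : Term → Bool) (s n : ℕ) (x : List Bool) (d : ℕ) : Term := (step R s n x)^[d] []

/-- The list of the first nodes of the path of `x`, the last one first. -/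
def trail (R : Term → Bool) (s n : ℕ) (x : List Bool) (d : ℕ) : List Term :=
  (fun L : List Term => step R s n x (L.headD []) :: L)^[d] [[]]

/-- The rare extensions of the node `ν`. -/
def h1 (s q n : ℕ) (S : List Ex) (ν : Term) : Dnf :=
  ((exts (lits n) ν s).map fun p => ν ++ p).filter (rare q S)

/-- The distance of two natural numbers. -/
def dst (a b : ℕ) : ℕ := (a - b) + (b - a)

/-- The test whether on the negative examples which satisfy `c` the product of the coordinates
`i` and `j` (as signs) has almost the same mean as the coordinate `i`, up to the sign. -/
def test (S : List Ex) (c : Term) (i j : ℕ) : Bool :=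
  decide (7 * dst (cnt S ((i, true) :: c)) (cnt S ((i, false) :: c)) ≤
    8 * dst (cnt S ((i, true) :: (j, true) :: c) + cnt S ((i, false) :: (j, false) :: c))
      (cnt S ((i, true) :: (j, false) :: c) + cnt S ((i, false) :: (j, true) :: c)))

/-- The coordinates that pass the test. -/
def rel (S : List Ex) (n : ℕ) (c : Term) (i : ℕ) : List ℕ := (List.range n).filter (test S c i)

/-- One step of the enumeration of the assignments. -/
def patStep (cap : ℕ) (acc : List Term) (v : ℕ) : List Term :=
  if 2 * acc.length ≤ cap then
    acc.map (fun p => (v, false) :: p) ++ acc.map (fun p => (v, true) :: p)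
  else []

/-- All assignments of the variables in `J`, if there are at most `cap`. -/
def pats (cap : ℕ) (J : List ℕ) : List Term := J.foldl (patStep cap) [[]]

/-- The unseen assignments of the coordinates which are related to the first variable of `w`, on
the negative examples which satisfy the node `ν` and the other literals of `w`. -/
def h2w (cap n : ℕ) (S : List Ex) (ν w : Term) : Dnf :=
  match w with
  | [] => []
  | l :: u => (pats cap (rel S n (u ++ ν) l.1)).filter fun c => decide (cnt S c = 0)

/-- All of them, for the terms `w` with at most `k` literals. -/
def h2 (k cap n : ℕ) (S : List Ex) (ν : Term) : Dnf :=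
  (exts (lits n) ν k).flatMap (h2w cap n S ν)

/-- The terms that the negative point `x` contributes. -/
def h3 (s k q D cap n : ℕ) (S : List Ex) (x : List Bool) : Dnf :=
  (trail (rare q S) s n x D).flatMap (h1 s q n S) ++
    h2 k cap n S ((trail (rare q S) s n x D).headD [])

/-- The dimension of the examples. -/
def dim (S : List Ex) : ℕ := (S.headD ([], false)).1.length

/-- The learner, with the parameters: `s` and `k` are constants, nodes with less than the `q`-th
part of the examples are rare, `D` is the number of steps in the tree, and `cap` the largest number
of assignments considered. -/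
def learnT (s k q D cap n : ℕ) (S : List Ex) : Dnf :=
  h1 s q n S [] ++ (S.filter fun z => !z.2).flatMap fun z => h3 s k q D cap n S z.1

/-- The learner: the input is a number `t` in unary and a sample. -/
def learn (s k c₀ c₁ c₂ : ℕ) (z : List Unit × List Ex) : Dnf :=
  learnT s k (z.1.length ^ c₁) (c₀ * z.1.length.bits.length) (z.1.length ^ c₂) (dim z.2) z.2

/-- Every variable occurs in at most `k` terms. -/
def Read (k : ℕ) (F : Dnf) : Prop :=
  ∀ i : ℕ, (F.filter fun T => T.any fun l => decide (l.1 = i)).length ≤ k

/-- The sample of the labelled examples `(x j, F (x j))`. -/
def sample {n m : ℕ} (F : Dnf) (x : Fin m → Fin n → Bool) : List Ex :=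
  List.ofFn fun j => (List.ofFn (x j), dnfSat F (List.ofFn (x j)))

/-- The number of points of the cube where `F` is false and the term `c` is true. -/
def num (n : ℕ) (F : Dnf) (c : Term) : ℕ :=
  (Finset.univ.filter fun x : Fin n → Bool =>
    dnfSat F (List.ofFn x) = false ∧ termSat (List.ofFn x) c = true).card

/-- The sample `S` is representative: for all terms `c` with at most `Λ` literals, the proportion of
the negative examples which satisfy `c` is correct up to `γ`. -/
def Rep (n : ℕ) (F : Dnf) (γ : ℝ) (Λ : ℕ) (S : List Ex) : Prop :=
  ∀ c : Term, c.length ≤ Λ → (∀ l ∈ c, l.1 < n) →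
    |(cnt S c : ℝ) - S.length * ((num n F c : ℝ) / 2 ^ n)| ≤ γ * S.length

/-! ### Terms as finite sets -/

/-- A finite set of literals in `n` variables. -/
abbrev FT (n : ℕ) : Type := Finset (Fin n × Bool)

/-- The term is true at `x`. -/
def Sat {n : ℕ} (T : FT n) (x : Fin n → Bool) : Prop := ∀ l ∈ T, x l.1 = l.2

instance {n : ℕ} (T : FT n) (x : Fin n → Bool) : Decidable (Sat T x) := by
  unfold Sat; infer_instance

/-- The term contains no variable with both signs. -/
def Cons {n : ℕ} (T : FT n) : Prop := ∀ l ∈ T, (l.1, !l.2) ∉ T

/-- The variables of the term. -/
def vars {n : ℕ} (T : FT n) : Finset (Fin n) := T.image Prod.fst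

/-- The points where all terms of the family are false. -/
def Zer {n : ℕ} (G : Finset (FT n)) : Finset (Fin n → Bool) :=
  Finset.univ.filter fun x => ∀ T ∈ G, ¬ Sat T x

end Pool.Agent.N597.RK
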