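import Pool.Agent.N597.RK.Props

set_option autoImplicit false

/-!
# Part FEW: few coordinates are biased on a large subset of the cube
-/

namespace Pool.Agent.N597.RK

namespace Few

open Finset

variable {n : ℕ}

/-- the number of the `j ∈ J` where `x` has the value `σ j` -/
def agr (J : Finset (Fin n)) (σ x : Fin n → Bool) : ℕ := (J.filter fun j => x j = σ j).card

/-- the number of the `j ∈ J` where `x` does not have the value `σ j` -/
def dis (J : Finset (Fin n)) (σ x : Fin n → Bool) : ℕ := (J.filter fun j => ¬ x j = σ j).card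

theorem agr_add_dis (J : Finset (Fin n)) (σ x : Fin n → Bool) :
    agr J σ x + dis J σ x = J.card := card_filter_add_card_filter_not _

/-- the generating function of the number of agreements -/
theorem sum_agr (J : Finset (Fin n)) (σ : Fin n → Bool) :
    ∑ x : Fin n → Bool, 3 ^ agr J σ x = 2 ^ (n + J.card) := by
  have h1 : ∀ x : Fin n → Bool, 3 ^ agr J σ x =
      ∏ i, (if i ∈ J then (if x i = σ i then 3 else 1) else 1) := by
    intro x
    rw [Finset.prod_ite_mem, univ_inter, agr, prod_ite, prod_const, prod_const_one, mul_one]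
  have h2 := Finset.prod_univ_sum (fun _ : Fin n => (univ : Finset Bool))
    (fun (i : Fin n) (b : Bool) => if i ∈ J then (if b = σ i then 3 else 1) else 1)
  rw [Fintype.piFinset_univ] at h2
  simp only [h1]
  rw [← h2]
  have h3 : ∀ i : Fin n, ∑ b : Bool, (if i ∈ J then (if b = σ i then 3 else 1) else 1) =
      2 * (if i ∈ J then 2 else 1) := by
    intro i
    by_cases hi : i ∈ J
    · simp only [hi, if_true, Fintype.sum_bool]
      cases σ i <;> simp
    · simp only [hi, if_false, Fintype.sum_bool]
  simp only [h3]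
  rw [prod_mul_distrib, prod_const, card_univ, Fintype.card_fin, Finset.prod_ite_mem, univ_inter,
    prod_const, pow_add]

theorem main (n a : ℕ) (E : Finset (Fin n → Bool)) (hE : 2 ^ n ≤ 2 ^ a * E.card) :
    (univ.filter fun j : Fin n => 3 * E.card ≤
    4 * dst (E.filter fun x => x j = true).card (E.filter fun x => x j = false).card).card ≤
      6 * (a + 1) := by
  classical
  set J := univ.filter fun j : Fin n => 3 * E.card ≤
    4 * dst (E.filter fun x => x j = true).card (E.filter fun x => x j = false).card with hJ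
  let σ : Fin n → Bool := fun j =>
    decide ((E.filter fun x => x j = false).card ≤ (E.filter fun x => x j = true).card)
  rcases Nat.eq_zero_or_pos J.card with h0 | hJpos
  · omega
  -- few disagreements for every coordinate
  have hsum : ∀ j, (E.filter fun x => x j = true).card + (E.filter fun x => x j = false).card =
      E.card := by
    intro j
    have h1 := card_filter_add_card_filter_not (s := E) (fun x : Fin n → Bool => x j = true)
    rw [← h1]
    congr 2
    refine filter_congr fun x _ => ?_
    cases x j <;> simp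
  have hdis : ∀ j ∈ J, 8 * (E.filter fun x => ¬ x j = σ j).card ≤ E.card := by
    intro j hj
    have h1 := (mem_filter.1 hj).2
    have h2 := hsum j
    by_cases h3 : (E.filter fun x => x j = false).card ≤ (E.filter fun x => x j = true).card
    · have h4 : σ j = true := decide_eq_true h3
      have h5 : (E.filter fun x => ¬ x j = σ j).card = (E.filter fun x => x j = false).card := by
        congr 1
        refine filter_congr fun x _ => ?_
        rw [h4]
        cases x j <;> simp
      rw [h5]
      unfold dst at h1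
      omega
    · have h4 : σ j = false := decide_eq_false h3
      have h5 : (E.filter fun x => ¬ x j = σ j).card = (E.filter fun x => x j = true).card := by
        congr 1
        refine filter_congr fun x _ => ?_
        rw [h4]
        cases x j <;> simp
      rw [h5]
      unfold dst at h1
      omega
  have htot : 8 * ∑ x ∈ E, dis J σ x ≤ J.card * E.card := by
    have h1 : ∑ x ∈ E, dis J σ x = ∑ j ∈ J, (E.filter fun x => ¬ x j = σ j).card := by
      unfold dis
      simp only [card_filter]
      exact sum_comm
    rw [h1, mul_sum]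
    calc ∑ j ∈ J, 8 * (E.filter fun x => ¬ x j = σ j).card ≤ ∑ _j ∈ J, E.card :=
          sum_le_sum hdis
      _ = J.card * E.card := by rw [sum_const, smul_eq_mul]
  -- Markov
  let E' := E.filter fun x => 4 * dis J σ x ≤ J.card
  have hE' : E.card ≤ 2 * E'.card := by
    have h1 : E'.card + (E.filter fun x => ¬ 4 * dis J σ x ≤ J.card).card = E.card :=
      card_filter_add_card_filter_not _
    have h2 : 2 * (J.card * (E.filter fun x => ¬ 4 * dis J σ x ≤ J.card).card) ≤
        8 * ∑ x ∈ E, dis J σ x := by
      calc 2 * (J.card * (E.filter fun x => ¬ 4 * dis J σ x ≤ J.card).card) =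
            2 * ∑ _x ∈ E.filter (fun x => ¬ 4 * dis J σ x ≤ J.card), J.card := by
              rw [sum_const, smul_eq_mul, mul_comm J.card]
        _ ≤ 2 * ∑ x ∈ E.filter (fun x => ¬ 4 * dis J σ x ≤ J.card), 4 * dis J σ x := by
              apply Nat.mul_le_mul_left
              apply sum_le_sum
              intro x hx
              have := (mem_filter.1 hx).2
              omega
        _ ≤ 2 * ∑ x ∈ E, 4 * dis J σ x := by
              apply Nat.mul_le_mul_left
              exact sum_le_sum_of_subset (filter_subset _ _)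
        _ = 8 * ∑ x ∈ E, dis J σ x := by
              rw [← mul_sum]
              ring
    have h3 : 2 * (J.card * (E.filter fun x => ¬ 4 * dis J σ x ≤ J.card).card) ≤
        J.card * E.card := h2.trans htot
    have h4 : J.card * (2 * (E.filter fun x => ¬ 4 * dis J σ x ≤ J.card).card) ≤
        J.card * E.card := by
      calc J.card * (2 * (E.filter fun x => ¬ 4 * dis J σ x ≤ J.card).card) =
            2 * (J.card * (E.filter fun x => ¬ 4 * dis J σ x ≤ J.card).card) := by ring
        _ ≤ _ := h3
    have h5 := Nat.le_of_mul_le_mul_left h4 hJpos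
    omega
  -- the generating function
  let m := (3 * J.card + 3) / 4
  have hm : 3 * J.card ≤ 4 * m := by omega
  have hcount : E'.card * 3 ^ m ≤ 2 ^ (n + J.card) := by
    rw [← sum_agr J σ]
    calc E'.card * 3 ^ m = ∑ _x ∈ E', 3 ^ m := by rw [sum_const, smul_eq_mul]
      _ ≤ ∑ x ∈ E', 3 ^ agr J σ x := by
          apply sum_le_sum
          intro x hx
          apply Nat.pow_le_pow_right (by norm_num)
          have h1 := (mem_filter.1 hx).2
          have h2 := agr_add_dis J σ x
          omega
      _ ≤ ∑ x : Fin n → Bool, 3 ^ agr J σ x := sum_le_sum_of_subset (subset_univ _)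
  have h1 : 2 ^ n ≤ 2 ^ (a + 1) * E'.card := by
    calc 2 ^ n ≤ 2 ^ a * E.card := hE
      _ ≤ 2 ^ a * (2 * E'.card) := Nat.mul_le_mul_left _ hE'
      _ = 2 ^ (a + 1) * E'.card := by ring
  have h2 : 27 ^ J.card ≤ 16 ^ (a + 1) * 16 ^ J.card := by
    have h3 : (2 ^ n) ^ 4 * 27 ^ J.card ≤ (2 ^ n) ^ 4 * (16 ^ (a + 1) * 16 ^ J.card) := by
      calc (2 ^ n) ^ 4 * 27 ^ J.card ≤ (2 ^ (a + 1) * E'.card) ^ 4 * 27 ^ J.card := by gcongr
        _ = 16 ^ (a + 1) * (E'.card ^ 4 * 3 ^ (3 * J.card)) := by
            have h4 : (16 : ℕ) ^ (a + 1) = (2 ^ (a + 1)) ^ 4 := by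
              rw [← pow_mul, mul_comm, pow_mul]
              norm_num
            have h5 : (27 : ℕ) ^ J.card = 3 ^ (3 * J.card) := by
              rw [pow_mul]
              norm_num
            rw [h4, h5, mul_pow]
            ring
        _ ≤ 16 ^ (a + 1) * (E'.card ^ 4 * 3 ^ (4 * m)) := by
            gcongr
            norm_num
        _ = 16 ^ (a + 1) * (E'.card * 3 ^ m) ^ 4 := by
            rw [mul_pow, ← pow_mul, mul_comm m 4]
        _ ≤ 16 ^ (a + 1) * (2 ^ (n + J.card)) ^ 4 := by gcongr
        _ = (2 ^ n) ^ 4 * (16 ^ (a + 1) * 16 ^ J.card) := by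
            have h4 : (16 : ℕ) ^ J.card = (2 ^ J.card) ^ 4 := by
              rw [← pow_mul, mul_comm, pow_mul]
              norm_num
            rw [h4, pow_add 2 n J.card, mul_pow]
            ring
    exact Nat.le_of_mul_le_mul_left h3 (by positivity)
  by_contra hcon
  obtain ⟨c, hc⟩ := Nat.exists_eq_add_of_lt (not_le.1 hcon)
  have hc' : J.card = 6 * (a + 1) + (c + 1) := by omega
  rw [hc'] at h2
  have h3 : 27 ^ (6 * (a + 1)) * 27 ^ (c + 1) ≤ 16 ^ (7 * (a + 1)) * 16 ^ (c + 1) := by
    calc 27 ^ (6 * (a + 1)) * 27 ^ (c + 1) = 27 ^ (6 * (a + 1) + (c + 1)) := by rw [← pow_add]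
      _ ≤ 16 ^ (a + 1) * 16 ^ (6 * (a + 1) + (c + 1)) := h2
      _ = 16 ^ (7 * (a + 1)) * 16 ^ (c + 1) := by
          rw [← pow_add, ← pow_add]
          congr 1
          ring
  have h4 : (16 : ℕ) ^ (7 * (a + 1)) < 27 ^ (6 * (a + 1)) := by
    rw [pow_mul, pow_mul]
    exact Nat.pow_lt_pow_left (by norm_num) (by omega)
  have h5 : (16 : ℕ) ^ (c + 1) ≤ 27 ^ (c + 1) := Nat.pow_le_pow_left (by norm_num) _
  have h6 : (16 : ℕ) ^ (7 * (a + 1)) * 16 ^ (c + 1) < 27 ^ (6 * (a + 1)) * 27 ^ (c + 1) :=
    Nat.mul_lt_mul_of_lt_of_le h4 h5 (by positivity)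
  exact absurd h3 (not_le_of_gt h6)

end Few

theorem fewBiased : FewBiased := fun n a E hE => Few.main n a E hE

end Pool.Agent.N597.RK
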