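import Pool.Agent.N597.RK.Props

/-!
# The points rejected by mistake
-/

set_option autoImplicit false

namespace Pool.Agent.N597.RK

namespace Fne

theorem dnfSat_false {F : Dnf} {x : List Bool} :
    dnfSat F x = false ↔ ∀ c ∈ F, termSat x c = false := by
  unfold dnfSat
  rw [List.any_eq_false]
  simp

theorem exts_head (A ν : Term) (j : ℕ) : [] ∈ exts A ν j := by
  cases j with
  | zero => exact List.mem_cons_self
  | succ j => exact List.mem_cons_self

/-- the terms of the nodes which are not rare are in the hypothesis -/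
theorem node_mem (H2 : PathFacts) (H5 : TrailFacts) {s k q D cap n : ℕ} {F : Dnf} {S : List Ex}
    (hL : Labelled n F S) (hS : 0 < S.length) (y : Fin n → Bool) (d : ℕ) (hd : d ≤ D)
    (hR : rare q S (path (rare q S) s n (List.ofFn y) d) = false) :
    (∀ c ∈ h1 s q n S (path (rare q S) s n (List.ofFn y) d), c ∈ learnT s k q D cap n S) ∧
      (d = D → ∀ c ∈ h2 k cap n S (path (rare q S) s n (List.ofFn y) d),
        c ∈ learnT s k q D cap n S) := by
  set R := rare q S with hRdef
  set ν := path R s n (List.ofFn y) d with hν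
  have hcnt : 0 < (S.filter fun z => !z.2 && termSat z.1 ν).length := by
    rw [hRdef] at hR
    unfold rare at hR
    rw [decide_eq_false_iff_not] at hR
    by_contra h0
    apply hR
    have : cnt S ν = 0 := by
      unfold cnt
      omega
    rw [this, mul_zero]
    exact hS
  obtain ⟨z, hz⟩ := List.length_pos_iff_exists_mem.1 hcnt
  rw [List.mem_filter] at hz
  obtain ⟨hzS, hz2⟩ := hz
  obtain ⟨x, rfl⟩ := hL z hzS
  simp only [Bool.and_eq_true, Bool.not_eq_true'] at hz2
  have hpx : path R s n (List.ofFn x) d = ν := (H2 R s n d y).2.2.2.2 x hz2.2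
  have hmem : (List.ofFn x, dnfSat F (List.ofFn x)) ∈ S.filter (fun z => !z.2) :=
    List.mem_filter.2 ⟨hzS, by simp [hz2.1]⟩
  refine ⟨fun c hc => ?_, ?_⟩
  · unfold learnT
    rw [List.mem_append]
    right
    rw [List.mem_flatMap]
    refine ⟨_, hmem, ?_⟩
    unfold h3
    rw [List.mem_append]
    left
    rw [List.mem_flatMap]
    exact ⟨ν, ((H5 R s n D (List.ofFn x)).1 ν).2 ⟨d, hd, hpx.symm⟩, hc⟩
  · intro hdD c hc
    unfold learnT
    rw [List.mem_append]
    right
    rw [List.mem_flatMap]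
    refine ⟨_, hmem, ?_⟩
    unfold h3
    rw [List.mem_append]
    right
    show c ∈ h2 k cap n S ((trail R s n (List.ofFn x) D).headD [])
    rw [(H5 R s n D (List.ofFn x)).2, ← hdD, hpx]
    exact hc

end Fne

open Fne in
theorem falseNeg (H1 : LeafHit) (H2 : PathFacts) (_H3 : ExtsFacts) (H4 : TreeCases)
    (H5 : TrailFacts) (H6 : Unfinished) : FalseNeg := by
  classical
  intro k s C hC n q D cap ℓ a Λ F hF S γ hγ hRep hL hS hq hΛ hcap hγa hqa
  set R := rare q S with hR
  have h2s : (1 : ℝ) ≤ 2 ^ s := one_le_pow₀ (by norm_num)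
  have hfr : (0 : ℝ) ≤ 1 - 1 / 2 ^ s := by
    rw [sub_nonneg, div_le_one (by positivity)]
    exact h2s
  by_cases hR0 : R [] = true
  · -- everything is accepted
    have hempty : (Finset.univ.filter fun y : Fin n → Bool => dnfSat F (List.ofFn y) = true ∧
        dnfSat (learnT s k q D cap n S) (List.ofFn y) = false) = ∅ := by
      rw [Finset.filter_eq_empty_iff]
      rintro y - ⟨-, hy⟩
      have h1 : ([] : Term) ∈ learnT s k q D cap n S := by
        unfold learnT
        rw [List.mem_append]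
        left
        unfold h1
        rw [List.mem_filter]
        refine ⟨List.mem_map.2 ⟨[], exts_head _ _ _, rfl⟩, hR0⟩
      have h2 := dnfSat_false.1 hy [] h1
      simp [termSat] at h2
    rw [hempty, Finset.card_empty, Nat.cast_zero]
    positivity
  rw [Bool.not_eq_true] at hR0
  -- the three sets
  set B := Finset.univ.filter fun y : Fin n → Bool => dnfSat F (List.ofFn y) = true ∧
    dnfSat (learnT s k q D cap n S) (List.ofFn y) = false with hB
  set U := Finset.univ.filter fun x : Fin n → Bool =>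
    R (path R s n (List.ofFn x) D) = false ∧
    ∃ p ∈ exts (lits n) (path R s n (List.ofFn x) D) s,
      R (path R s n (List.ofFn x) D ++ p) = true with hU
  set N := (Finset.univ.image fun x : Fin n → Bool => path R s n (List.ofFn x) D).filter fun ν =>
    ∀ p ∈ exts (lits n) ν s, R (ν ++ p) = false with hN
  set L : Term → Finset (Fin n → Bool) := fun ν =>
    Finset.univ.filter fun y : Fin n → Bool => termSat (List.ofFn y) ν = true ∧
      dnfSat F (List.ofFn y) = true ∧ dnfSat (h2 k cap n S ν) (List.ofFn y) = false with hLdef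
  set P : Term → Finset (Fin n → Bool) := fun ν =>
    Finset.univ.filter fun y : Fin n → Bool => termSat (List.ofFn y) ν = true with hP
  have hsub : B ⊆ U ∪ N.biUnion L := by
    intro y hy
    rw [hB, Finset.mem_filter] at hy
    obtain ⟨-, hy1, hy2⟩ := hy
    have hy3 := dnfSat_false.1 hy2
    rcases H4 R s n D y hR0 with ⟨d, hd, hd1, p, hp, hp1, hp2⟩ | h | h
    · exfalso
      have h1' := (node_mem (k := k) (cap := cap) H2 H5 hL hS y d hd hd1).1
        (path R s n (List.ofFn y) d ++ p) (by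
          unfold h1
          rw [List.mem_filter]
          exact ⟨List.mem_map.2 ⟨p, hp, rfl⟩, hp1⟩)
      rw [hy3 _ h1'] at hp2
      exact absurd hp2 (by simp)
    · rw [Finset.mem_union]
      left
      rw [hU, Finset.mem_filter]
      exact ⟨Finset.mem_univ _, h⟩
    · rw [Finset.mem_union, Finset.mem_biUnion]
      right
      refine ⟨path R s n (List.ofFn y) D, ?_, ?_⟩
      · rw [hN, Finset.mem_filter]
        exact ⟨Finset.mem_image_of_mem _ (Finset.mem_univ _), h⟩
      · rw [hLdef]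
        rw [Finset.mem_filter]
        refine ⟨Finset.mem_univ _, (H2 R s n D y).2.2.2.1, hy1, dnfSat_false.2 fun c hc => ?_⟩
        have hd1 : R (path R s n (List.ofFn y) D) = false := by
          have := h [] (exts_head _ _ _)
          rwa [List.append_nil] at this
        exact hy3 c ((node_mem (k := k) (cap := cap) H2 H5 hL hS y D le_rfl hd1).2 rfl c hc)
  have hcard : B.card ≤ U.card + ∑ ν ∈ N, (L ν).card :=
    (Finset.card_le_card hsub).trans ((Finset.card_union_le _ _).trans
      (Nat.add_le_add_left Finset.card_biUnion_le _))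
  -- the leaves
  have hleaf : ∀ ν ∈ N, (L ν).card * 2 ^ ℓ ≤ k * n * (P ν).card := by
    intro ν hν
    rw [hN, Finset.mem_filter, Finset.mem_image] at hν
    obtain ⟨⟨x, -, rfl⟩, hν2⟩ := hν
    obtain ⟨f1, f2, f3, f4, f5⟩ := H2 R s n D x
    exact H1 k s C hC n q D cap ℓ a Λ F hF S γ hγ hRep hL hS hq hΛ hcap hγa hqa _ f1 f2 f3 hν2
  have hPsum : ∑ ν ∈ N, (P ν).card ≤ 2 ^ n := by
    have h1 : ∑ ν ∈ N, (P ν).card = (N.biUnion P).card := by
      rw [Finset.card_biUnion]
      intro ν hν ν' hν' hne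
      rw [Function.onFun, Finset.disjoint_left]
      intro y hy hy'
      rw [hN, Finset.mem_coe, Finset.mem_filter, Finset.mem_image] at hν hν'
      obtain ⟨⟨x, -, rfl⟩, -⟩ := hν
      obtain ⟨⟨x', -, rfl⟩, -⟩ := hν'
      rw [hP, Finset.mem_filter] at hy hy'
      apply hne
      rw [← (H2 R s n D x).2.2.2.2 y hy.2, (H2 R s n D x').2.2.2.2 y hy'.2]
    rw [h1]
    refine (Finset.card_le_univ _).trans ?_
    simp
  have hLsum : (∑ ν ∈ N, (L ν).card) * 2 ^ ℓ ≤ k * n * 2 ^ n := by
    rw [Finset.sum_mul]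
    calc ∑ ν ∈ N, (L ν).card * 2 ^ ℓ ≤ ∑ ν ∈ N, k * n * (P ν).card := Finset.sum_le_sum hleaf
      _ = k * n * ∑ ν ∈ N, (P ν).card := by rw [Finset.mul_sum]
      _ ≤ k * n * 2 ^ n := Nat.mul_le_mul_left _ hPsum
  have hUc := H6 R s n D
  -- real numbers
  have r1 : (U.card : ℝ) ≤ (1 - 1 / 2 ^ s) ^ D * 2 ^ n := by
    have h1 : ((U.card * 2 ^ (s * D) : ℕ) : ℝ) ≤ (((2 ^ s - 1) ^ D * 2 ^ n : ℕ) : ℝ) := by
      exact_mod_cast hUc
    have h2 : ((2 ^ s - 1 : ℕ) : ℝ) = 2 ^ s - 1 := by
      rw [Nat.cast_sub Nat.one_le_two_pow]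
      push_cast
      ring
    push_cast [h2] at h1
    have h3 : ((2 : ℝ) ^ s - 1) ^ D = (1 - 1 / 2 ^ s) ^ D * 2 ^ (s * D) := by
      rw [pow_mul, ← mul_pow]
      congr 1
      field_simp
    rw [h3] at h1
    have h4 : (0 : ℝ) < 2 ^ (s * D) := by positivity
    nlinarith
  have r2 : ((∑ ν ∈ N, (L ν).card : ℕ) : ℝ) ≤ k * n / 2 ^ ℓ * 2 ^ n := by
    have h1 : (((∑ ν ∈ N, (L ν).card) * 2 ^ ℓ : ℕ) : ℝ) ≤ ((k * n * 2 ^ n : ℕ) : ℝ) := by
      exact_mod_cast hLsum
    rw [div_mul_eq_mul_div, le_div_iff₀ (by positivity)]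
    push_cast at h1 ⊢
    exact h1
  have r3 : (B.card : ℝ) ≤ U.card + ((∑ ν ∈ N, (L ν).card : ℕ) : ℝ) := by
    exact_mod_cast hcard
  rw [add_mul]
  linarith

end Pool.Agent.N597.RK
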