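import Pool.Agent.N597.RK.Props

/-!
# The points that are accepted by mistake (helper701)
-/

set_option autoImplicit false

namespace Pool.Agent.N597.RK

namespace Fpo

open Finset

/-- the points where `F` is false and `c` is true -/
def Num (n : ℕ) (F : Dnf) (c : Term) : Finset (Fin n → Bool) :=
  Finset.univ.filter fun x : Fin n → Bool =>
    dnfSat F (List.ofFn x) = false ∧ termSat (List.ofFn x) c = true

theorem rep_bound {n : ℕ} {F : Dnf} {γ : ℝ} {Λ : ℕ} {S : List Ex} (h : Rep n F γ Λ S)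
    (hS : 0 < S.length) {c : Term} (hc : c.length ≤ Λ) (hv : ∀ l ∈ c, l.1 < n) {t : ℝ}
    (ht : (cnt S c : ℝ) ≤ t * S.length) : (num n F c : ℝ) ≤ (t + γ) * 2 ^ n := by
  have h1 := (abs_le.1 (h c hc hv)).1
  have hS' : (0 : ℝ) < S.length := by exact_mod_cast hS
  have h2 : (S.length : ℝ) * ((num n F c : ℝ) / 2 ^ n) ≤ S.length * (t + γ) := by linarith
  have h3 := le_of_mul_le_mul_left h2 hS'
  rwa [div_le_iff₀ (by positivity)] at h3

/-- the nodes -/
noncomputable def nodes (R : Term → Bool) (s n d : ℕ) : Finset Term :=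
  Finset.univ.image fun x : Fin n → Bool => path R s n (List.ofFn x) d

noncomputable def La (s q D n : ℕ) (S : List Ex) : Finset Term :=
  (Finset.range (D + 1)).biUnion fun d => (nodes (rare q S) s n d).biUnion fun ν =>
    (h1 s q n S ν).toFinset

noncomputable def Lb (s k q D cap n : ℕ) (S : List Ex) : Finset Term :=
  (nodes (rare q S) s n D).biUnion fun ν => (h2 k cap n S ν).toFinset

theorem card_La (h2 : NodeCount) (h5 : ExtsFacts) (s q D n : ℕ) (S : List Ex) :
    (La s q D n S).card ≤ (D + 1) * 2 ^ (s * D) * (2 * n + 1) ^ s := by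
  unfold La
  refine Finset.card_biUnion_le.trans ?_
  have h : ∀ d ∈ Finset.range (D + 1), ((nodes (rare q S) s n d).biUnion fun ν =>
      (h1 s q n S ν).toFinset).card ≤ 2 ^ (s * D) * (2 * n + 1) ^ s := by
    intro d hd
    refine Finset.card_biUnion_le.trans ?_
    have h' : ∀ ν ∈ nodes (rare q S) s n d, (h1 s q n S ν).toFinset.card ≤ (2 * n + 1) ^ s := by
      intro ν _
      refine (List.toFinset_card_le _).trans ?_
      unfold h1
      refine (List.length_filter_le _ _).trans ?_
      rw [List.length_map]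
      exact (h5 n ν s).1
    refine (Finset.sum_le_card_nsmul _ _ _ h').trans ?_
    rw [smul_eq_mul]
    refine Nat.mul_le_mul_right _ ?_
    refine (h2 (rare q S) s n d).trans ?_
    refine Nat.pow_le_pow_right (by norm_num) (Nat.mul_le_mul_left _ ?_)
    have := Finset.mem_range.1 hd
    omega
  refine (Finset.sum_le_card_nsmul _ _ _ h).trans ?_
  rw [smul_eq_mul, Finset.card_range, mul_assoc]

theorem card_Lb (h2 : NodeCount) (h4 : PatsFacts) (h5 : ExtsFacts) (s k q D cap n : ℕ)
    (S : List Ex) (hcap : 1 ≤ cap) :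
    (Lb s k q D cap n S).card ≤ 2 ^ (s * D) * ((2 * n + 1) ^ k * cap) := by
  unfold Lb
  refine Finset.card_biUnion_le.trans ?_
  have h' : ∀ ν ∈ nodes (rare q S) s n D, (RK.h2 k cap n S ν).toFinset.card ≤
      (2 * n + 1) ^ k * cap := by
    intro ν _
    refine (List.toFinset_card_le _).trans ?_
    unfold RK.h2
    rw [List.length_flatMap]
    have h6 : ∀ w ∈ exts (lits n) ν k, (h2w cap n S ν w).length ≤ cap := by
      intro w _
      cases w with
      | nil => exact Nat.zero_le _
      | cons l u =>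
        show ((pats cap (rel S n (u ++ ν) l.1)).filter fun c => decide (cnt S c = 0)).length ≤ cap
        exact (List.length_filter_le _ _).trans ((h4 cap _).1 hcap)
    have h7 : ((exts (lits n) ν k).map fun w => (h2w cap n S ν w).length).sum ≤
        (exts (lits n) ν k).length * cap := by
      have h8 := List.sum_le_card_nsmul ((exts (lits n) ν k).map fun w => (h2w cap n S ν w).length)
        cap (by
          intro x hx
          rw [List.mem_map] at hx
          obtain ⟨w, hw, rfl⟩ := hx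
          exact h6 w hw)
      rw [List.length_map, smul_eq_mul] at h8
      exact h8
    exact h7.trans (Nat.mul_le_mul_right _ (h5 n ν k).1)
  refine (Finset.sum_le_card_nsmul _ _ _ h').trans ?_
  rw [smul_eq_mul]
  exact Nat.mul_le_mul_right _ (h2 (rare q S) s n D)

theorem num_a (h1 : PathFacts) (h5 : ExtsFacts) {n s q D Λ : ℕ} {F : Dnf} {S : List Ex} {γ : ℝ}
    (hR : Rep n F γ Λ S) (hS : 0 < S.length) (hq : 0 < q) (hΛ : s * D + s ≤ Λ) :
    ∀ c ∈ La s q D n S, (num n F c : ℝ) ≤ (1 / q + γ) * 2 ^ n := by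
  intro c hc
  unfold La nodes at hc
  simp only [Finset.mem_biUnion, Finset.mem_range, Finset.mem_image, Finset.mem_univ, true_and,
    List.mem_toFinset] at hc
  obtain ⟨d, hd, ν, ⟨x, rfl⟩, hc⟩ := hc
  unfold RK.h1 at hc
  rw [List.mem_filter, List.mem_map] at hc
  obtain ⟨⟨p, hp, rfl⟩, hr⟩ := hc
  obtain ⟨hp1, hp2, hp3⟩ := ((h5 n _ s).2 p).1 hp
  obtain ⟨hn1, hn2, hn3, -, -⟩ := h1 (rare q S) s n d x
  refine rep_bound hR hS ?_ ?_ ?_
  · rw [List.length_append]
    have : s * d ≤ s * D := Nat.mul_le_mul_left _ (by omega)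
    omega
  · intro l hl
    rw [List.mem_append] at hl
    rcases hl with hl | hl
    · exact hn2 l hl
    · exact (hp3 l hl).1
  · unfold rare at hr
    have h6 := of_decide_eq_true hr
    have h7 : (q : ℝ) * cnt S (path (rare q S) s n (List.ofFn x) d ++ p) ≤ S.length := by
      exact_mod_cast h6.le
    have hq' : (0 : ℝ) < q := by exact_mod_cast hq
    rw [one_div, inv_mul_eq_div, le_div_iff₀ hq', mul_comm]
    exact h7

theorem num_b (h4 : PatsFacts) {n s k q D cap Λ : ℕ} {F : Dnf} {S : List Ex}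
    {γ : ℝ} (hR : Rep n F γ Λ S) (hS : 0 < S.length) (hcap : 1 ≤ cap) (hΛ : cap ≤ 2 ^ Λ) :
    ∀ c ∈ Lb s k q D cap n S, (num n F c : ℝ) ≤ γ * 2 ^ n := by
  intro c hc
  unfold Lb nodes at hc
  simp only [Finset.mem_biUnion, Finset.mem_image, Finset.mem_univ, true_and,
    List.mem_toFinset] at hc
  obtain ⟨ν, ⟨x, rfl⟩, hc⟩ := hc
  unfold h2 at hc
  rw [List.mem_flatMap] at hc
  obtain ⟨w, hw, hc⟩ := hc
  cases w with
  | nil =>
    have h9 : c ∈ ([] : List Term) := hc
    simp at h9
  | cons l u =>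
    have h9 : c ∈ (pats cap (rel S n (u ++ path (rare q S) s n (List.ofFn x) D) l.1)).filter
      fun c => decide (cnt S c = 0) := hc
    rw [List.mem_filter] at h9
    obtain ⟨h10, h11⟩ := h9
    have h12 := of_decide_eq_true h11
    obtain ⟨h13, h14⟩ := (h4 cap _).2.1 c h10
    have h15 := rep_bound (c := c) (t := 0) hR hS ?_ ?_ ?_
    · rwa [zero_add] at h15
    · exact (Nat.pow_le_pow_iff_right (by norm_num)).1 ((h14 hcap).trans hΛ)
    · intro l' hl'
      have h16 := h13 l' hl'
      unfold rel at h16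
      exact List.mem_range.1 (List.mem_filter.1 h16).1
    · rw [h12, Nat.cast_zero, zero_mul]

theorem cover (h3 : TrailFacts) {n s k q D cap : ℕ} {F : Dnf} {S : List Ex}
    (hL : Labelled n F S) :
    (Finset.univ.filter fun y : Fin n → Bool => dnfSat F (List.ofFn y) = false ∧
      dnfSat (learnT s k q D cap n S) (List.ofFn y) = true) ⊆
    ((La s q D n S).biUnion (Num n F)) ∪ ((Lb s k q D cap n S).biUnion (Num n F)) := by
  intro y hy
  rw [Finset.mem_filter] at hy
  obtain ⟨-, hy1, hy2⟩ := hy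
  unfold dnfSat at hy2
  rw [List.any_eq_true] at hy2
  obtain ⟨c, hc, hcy⟩ := hy2
  have hN : y ∈ Num n F c := Finset.mem_filter.2 ⟨Finset.mem_univ _, hy1, hcy⟩
  have ha : ∀ (d : ℕ) (x : Fin n → Bool), d ≤ D →
      c ∈ h1 s q n S (path (rare q S) s n (List.ofFn x) d) → c ∈ La s q D n S := by
    intro d x hd hc
    unfold La nodes
    simp only [Finset.mem_biUnion, Finset.mem_range, Finset.mem_image, Finset.mem_univ, true_and,
      List.mem_toFinset]
    exact ⟨d, by omega, _, ⟨x, rfl⟩, hc⟩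
  rw [Finset.mem_union, Finset.mem_biUnion, Finset.mem_biUnion]
  unfold learnT at hc
  rw [List.mem_append] at hc
  rcases hc with hc | hc
  · exact Or.inl ⟨c, ha 0 y (Nat.zero_le _) hc, hN⟩
  · rw [List.mem_flatMap] at hc
    obtain ⟨z, hz, hc⟩ := hc
    obtain ⟨x, rfl⟩ := hL z (List.mem_filter.1 hz).1
    unfold RK.h3 at hc
    rw [List.mem_append] at hc
    rcases hc with hc | hc
    · rw [List.mem_flatMap] at hc
      obtain ⟨ν, hν, hc⟩ := hc
      obtain ⟨d, hd, rfl⟩ := ((h3 (rare q S) s n D (List.ofFn x)).1 ν).1 hν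
      exact Or.inl ⟨c, ha d x hd hc, hN⟩
    · rw [(h3 (rare q S) s n D (List.ofFn x)).2] at hc
      refine Or.inr ⟨c, ?_, hN⟩
      unfold Lb nodes
      simp only [Finset.mem_biUnion, Finset.mem_image, Finset.mem_univ, true_and,
        List.mem_toFinset]
      exact ⟨_, ⟨x, rfl⟩, hc⟩

end Fpo

open Fpo in
/-- **The points that are accepted by mistake.** -/
theorem falsePos (h1 : PathFacts) (h2 : NodeCount) (h3 : TrailFacts) (h4 : PatsFacts)
    (h5 : ExtsFacts) : FalsePos := by
  intro n s k q D cap Λ F S γ hγ hR hL hS hq hcap hcap2 hΛ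
  have k1 := Finset.card_le_card (cover (s := s) (k := k) (q := q) (D := D) (cap := cap) h3 hL)
  have k2 : ((Finset.univ.filter fun y : Fin n → Bool => dnfSat F (List.ofFn y) = false ∧
      dnfSat (learnT s k q D cap n S) (List.ofFn y) = true).card : ℝ) ≤
      (((La s q D n S).biUnion (Num n F)).card : ℝ) +
        (((Lb s k q D cap n S).biUnion (Num n F)).card : ℝ) := by
    exact_mod_cast k1.trans (Finset.card_union_le _ _)
  have k3 : (((La s q D n S).biUnion (Num n F)).card : ℝ) ≤
      ((D + 1) * 2 ^ (s * D) * (2 * n + 1) ^ s) * ((1 / q + γ) * 2 ^ n) := by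
    have e1 : (((La s q D n S).biUnion (Num n F)).card : ℝ) ≤
        ∑ c ∈ La s q D n S, (num n F c : ℝ) := by
      exact_mod_cast Finset.card_biUnion_le
    refine e1.trans ((Finset.sum_le_card_nsmul _ _ _ (num_a h1 h5 hR hS hq hΛ)).trans ?_)
    rw [nsmul_eq_mul]
    refine mul_le_mul_of_nonneg_right ?_ (by positivity)
    exact_mod_cast card_La h2 h5 s q D n S
  have k4 : (((Lb s k q D cap n S).biUnion (Num n F)).card : ℝ) ≤
      (2 ^ (s * D) * ((2 * n + 1) ^ k * cap)) * (γ * 2 ^ n) := by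
    have e1 : (((Lb s k q D cap n S).biUnion (Num n F)).card : ℝ) ≤
        ∑ c ∈ Lb s k q D cap n S, (num n F c : ℝ) := by
      exact_mod_cast Finset.card_biUnion_le
    refine e1.trans ((Finset.sum_le_card_nsmul _ _ _ (num_b h4 hR hS hcap hcap2)).trans ?_)
    rw [nsmul_eq_mul]
    refine mul_le_mul_of_nonneg_right ?_ (by positivity)
    exact_mod_cast card_Lb h2 h4 h5 s k q D cap n S hcap
  refine k2.trans ((add_le_add k3 k4).trans (le_of_eq ?_))
  ring

end Pool.Agent.N597.RK
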