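import Pool.Agent.N597.RK.Props

/-!
# RK/IND: independence of a set of points from fixed coordinates (helper296)
-/

set_option autoImplicit false

namespace Pool.Agent.N597.RK

namespace Ind

theorem half {n : ℕ} (v : Fin n) (b : Bool) (A : Finset (Fin n → Bool))
    (hA : ∀ x z : Fin n → Bool, (∀ j, j ≠ v → x j = z j) → (x ∈ A ↔ z ∈ A)) :
    (A.filter fun x => x v = b).card * 2 = A.card := by
  have h1 : (A.filter fun x => x v = b).card + (A.filter fun x => ¬ x v = b).card = A.card :=
    Finset.card_filter_add_card_filter_not _
  have h2 : (A.filter fun x => x v = b).card = (A.filter fun x => ¬ x v = b).card := by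
    have hflip : ∀ x : Fin n → Bool, Function.update x v (!(x v)) ∈ A ↔ x ∈ A := by
      intro x
      exact hA _ _ fun j hj => Function.update_of_ne hj _ _
    refine Finset.card_nbij' (fun x => Function.update x v (!(x v)))
      (fun x => Function.update x v (!(x v))) ?_ ?_ ?_ ?_
    · intro x hx
      rw [Finset.mem_coe, Finset.mem_filter] at hx ⊢
      refine ⟨(hflip x).2 hx.1, ?_⟩
      show ¬ (Function.update x v (!(x v))) v = b
      rw [Function.update_self, hx.2]
      simp
    · intro x hx
      rw [Finset.mem_coe, Finset.mem_filter] at hx ⊢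
      refine ⟨(hflip x).2 hx.1, ?_⟩
      have h3 := hx.2
      show (Function.update x v (!(x v))) v = b
      rw [Function.update_self]
      cases hb : x v <;> cases b <;> simp_all
    · intro x _
      simp
    · intro x _
      simp
  omega

theorem getElem?_ofFn' {n : ℕ} (x : Fin n → Bool) (i : ℕ) (hi : i < n) :
    (List.ofFn x)[i]? = some (x ⟨i, hi⟩) := by
  rw [List.getElem?_ofFn, dif_pos hi]

end Ind

theorem indep : Indep := by
  intro n V y
  induction V using Finset.induction_on with
  | empty =>
    intro A _
    simp
  | insert v V hv ih =>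
    intro A hA
    have h1 := ih (A.filter fun x => x v = y v) (by
      intro x z hxz
      rw [Finset.mem_filter, Finset.mem_filter, hxz v hv]
      have h2 := hA x z (fun j hj => hxz j (fun h => hj (Finset.mem_insert_of_mem h)))
      rw [h2])
    have h2 := Ind.half v (y v) A (by
      intro x z hxz
      refine hA x z fun j hj => hxz j ?_
      rintro rfl
      exact hj (Finset.mem_insert_self _ _))
    have h3 : (A.filter fun x => ∀ u ∈ insert v V, x u = y u) =
        (A.filter fun x => x v = y v).filter fun x => ∀ u ∈ V, x u = y u := by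
      rw [Finset.filter_filter]
      refine Finset.filter_congr fun x _ => ?_
      rw [Finset.forall_mem_insert]
    rw [h3, Finset.card_insert_of_notMem hv, pow_succ, ← mul_assoc, h1, h2]

theorem indepTerm : IndepTerm := by
  intro n ν
  induction ν with
  | nil =>
    intro _ _ A _
    simp [termSat]
  | cons l ν ih =>
    intro hnd hlt A hA
    rw [List.map_cons, List.nodup_cons] at hnd
    have hl : l.1 < n := hlt l (List.mem_cons_self ..)
    have hdis : ∀ l' ∈ ν, l'.1 ≠ l.1 := by
      intro l' hl' he
      exact hnd.1 (List.mem_map.2 ⟨l', hl', he⟩)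
    have h1 := ih hnd.2 (fun l' hl' => hlt l' (List.mem_cons_of_mem _ hl'))
      (A.filter fun x => x ⟨l.1, hl⟩ = l.2) (by
        intro x z hxz
        have e : x ⟨l.1, hl⟩ = z ⟨l.1, hl⟩ := hxz _ fun l' hl' => hdis l' hl'
        rw [Finset.mem_filter, Finset.mem_filter, e]
        have h2 := hA x z (fun j hj => hxz j fun l' hl' => hj l' (List.mem_cons_of_mem _ hl'))
        rw [h2])
    have h2 := Ind.half ⟨l.1, hl⟩ l.2 A (by
      intro x z hxz
      refine hA x z fun j hj => hxz j ?_
      rintro rfl
      exact hj l (List.mem_cons_self ..) rfl)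
    have h3 : (A.filter fun x => termSat (List.ofFn x) (l :: ν) = true) =
        (A.filter fun x => x ⟨l.1, hl⟩ = l.2).filter fun x => termSat (List.ofFn x) ν = true := by
      rw [Finset.filter_filter]
      refine Finset.filter_congr fun x _ => ?_
      unfold termSat
      rw [List.all_cons, Bool.and_eq_true]
      unfold litSat
      rw [Ind.getElem?_ofFn' x l.1 hl, decide_eq_true_eq, Option.some_inj]
    rw [h3, List.length_cons, pow_succ, ← mul_assoc, h1, h2]

end Pool.Agent.N597.RK
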