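import Pool.Agent.N597.RK.Props

set_option autoImplicit false

/-!
# Part LLL: the Lovász local lemma in the form of conditional probabilities
-/

namespace Pool.Agent.N597.RK

namespace LLLaux

open Finset

variable {n : ℕ}

theorem mem_Zer {G : Finset (FT n)} {x : Fin n → Bool} : x ∈ Zer G ↔ ∀ T ∈ G, ¬ Sat T x := by
  simp [Zer]

theorem card_vars {T : FT n} (hT : Cons T) : (vars T).card = T.card := by
  unfold vars
  apply card_image_of_injOn
  intro a ha b hb hab
  have ha' : a ∈ T := ha
  have hb' : b ∈ T := hb
  refine Prod.ext hab ?_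
  by_contra hne
  have h1 := hT a ha'
  apply h1
  have h2 : (a.1, !a.2) = b := by
    refine Prod.ext hab ?_
    simp only
    revert hne
    cases a.2 <;> cases b.2 <;> simp
  rwa [h2]

theorem sat_iff {T : FT n} (hT : Cons T) (x : Fin n → Bool) :
    Sat T x ↔ ∀ v ∈ vars T, x v = decide ((v, true) ∈ T) := by
  constructor
  · intro h v hv
    obtain ⟨⟨w, b⟩, hl, hlv⟩ := mem_image.1 hv
    simp only at hlv
    subst hlv
    rw [h _ hl]
    simp only
    cases b
    · have h1 := hT _ hl
      simp only [Bool.not_false] at h1
      simp [h1]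
    · simp [hl]
  · rintro h ⟨v, b⟩ hl
    have hv : v ∈ vars T := mem_image.2 ⟨_, hl, rfl⟩
    rw [h v hv]
    cases b
    · have h1 := hT _ hl
      simp only [Bool.not_false] at h1
      simp [h1]
    · simp [hl]

/-- the term `T` is independent of the terms which have no variable in common with it -/
theorem indep_sat (hind : Indep) {T : FT n} (hT : Cons T) {S : Finset (FT n)}
    (hS : ∀ X ∈ S, Disjoint (vars X) (vars T)) :
    ((Zer S).filter fun x => Sat T x).card * 2 ^ T.card = (Zer S).card := by
  have h1 := hind n (vars T) (fun v => decide ((v, true) ∈ T)) (Zer S) (by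
    intro x z hxz
    rw [mem_Zer, mem_Zer]
    refine forall_congr' fun X => forall_congr' fun hX => not_congr ?_
    have h2 : ∀ l ∈ X, x l.1 = z l.1 := by
      intro l hl
      apply hxz
      exact disjoint_left.1 (hS X hX) (mem_image.2 ⟨l, hl, rfl⟩)
    constructor
    · intro h l hl
      rw [← h2 l hl]
      exact h l hl
    · intro h l hl
      rw [h2 l hl]
      exact h l hl)
  rw [card_vars hT] at h1
  rw [← h1]
  congr 2
  refine filter_congr fun x _ => ?_
  exact sat_iff hT x

theorem Zer_insert (X : FT n) (S : Finset (FT n)) :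
    (Zer (insert X S)).card + ((Zer S).filter fun x => Sat X x).card = (Zer S).card := by
  have h1 : Zer (insert X S) = (Zer S).filter fun x => ¬ Sat X x := by
    ext x
    rw [mem_filter, mem_Zer, mem_Zer]
    constructor
    · intro h
      exact ⟨fun T hT => h T (mem_insert_of_mem hT), h X (mem_insert_self X S)⟩
    · rintro ⟨h1, h2⟩ T hT
      rcases mem_insert.1 hT with rfl | hT
      · exact h2
      · exact h1 T hT
  rw [h1, add_comm]
  exact card_filter_add_card_filter_not _

theorem Zer_anti {S S' : Finset (FT n)} (h : S ⊆ S') : Zer S' ⊆ Zer S := by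
  intro x hx
  rw [mem_Zer] at hx ⊢
  exact fun T hT => hx T (h hT)

end LLLaux

open Finset LLLaux

theorem lllStep (hind : Indep) : LLLStep := by
  intro n k r hkr
  have hρ0 : (0 : ℝ) ≤ (3 / 4) ^ r := by positivity
  have hρ1 : (3 / 4 : ℝ) ^ r ≤ 1 := pow_le_one₀ (by norm_num) (by norm_num)
  have hk : (k : ℝ) * (3 / 4) ^ r ≤ 1 / 3 := by
    have h1 : (3 : ℝ) * k * 3 ^ r ≤ 4 ^ r := by exact_mod_cast hkr
    rw [div_pow, ← mul_div_assoc, div_le_iff₀ (by positivity)]
    linarith
  have hρk : (2 / 3 : ℝ) ≤ (1 - (3 / 4) ^ r) ^ k := by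
    have h1 := one_add_mul_le_pow (a := -((3 / 4 : ℝ) ^ r)) (by linarith) k
    have h2 : (1 : ℝ) + -((3 / 4) ^ r) = 1 - (3 / 4) ^ r := by ring
    rw [h2] at h1
    linarith
  have key : ∀ N : ℕ, ∀ (S : Finset (FT n)) (T : FT n), S.card = N → T ∉ S →
      (∀ X ∈ insert T S, Cons X) → ReadF k (insert T S) → (∀ X ∈ S, r ≤ X.card) →
      4 ^ T.card * ((Zer S).filter fun x => Sat T x).card ≤ 3 ^ T.card * (Zer S).card := by
    intro N
    induction N using Nat.strong_induction_on with
    | _ N ih =>
      intro S T hN hTS hcons hread hcard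
      have hT : Cons T := hcons T (mem_insert_self T S)
      let S2 := S.filter fun X => Disjoint (vars X) (vars T)
      let S1 := S.filter fun X => ¬ Disjoint (vars X) (vars T)
      have hS2S : S2 ⊆ S := filter_subset _ _
      have hS1S : S1 ⊆ S := filter_subset _ _
      have hS12 : S2 ∪ S1 = S := filter_union_filter_not_eq _ _
      -- the number of terms which have a variable in common with `T`
      have hm : S1.card ≤ k * T.card := by
        have h1 : S1 ⊆ (vars T).biUnion fun v => (insert T S).filter fun X => v ∈ vars X := by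
          intro X hX
          obtain ⟨hX1, hX2⟩ := mem_filter.1 hX
          rw [not_disjoint_iff] at hX2
          obtain ⟨v, hv1, hv2⟩ := hX2
          exact mem_biUnion.2 ⟨v, hv2, mem_filter.2 ⟨mem_insert_of_mem hX1, hv1⟩⟩
        calc S1.card ≤ _ := card_le_card h1
          _ ≤ ∑ v ∈ vars T, ((insert T S).filter fun X => v ∈ vars X).card := card_biUnion_le
          _ ≤ ∑ _v ∈ vars T, k := sum_le_sum fun v _ => hread v
          _ = k * T.card := by rw [sum_const, card_vars hT, smul_eq_mul, mul_comm]
      -- adding the terms of `S1` one at a time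
      have hadd : ∀ U : Finset (FT n), U ⊆ S1 →
          (1 - (3 / 4 : ℝ) ^ r) ^ U.card * ((Zer S2).card : ℝ) ≤ ((Zer (S2 ∪ U)).card : ℝ) := by
        intro U
        induction U using Finset.induction_on with
        | empty =>
          intro _
          simp
        | insert X U hXU ihU =>
          intro hU
          have hX1 : X ∈ S1 := hU (mem_insert_self X U)
          have hU' : U ⊆ S1 := (subset_insert X U).trans hU
          have h1 := ihU hU'
          have hX2 : X ∉ S2 := by
            intro h
            exact (mem_filter.1 hX1).2 (mem_filter.1 h).2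
          have hXU2 : X ∉ S2 ∪ U := by
            rw [mem_union]
            rintro (h | h)
            · exact hX2 h
            · exact hXU h
          have hXS : X ∈ S := hS1S hX1
          have hsub : insert X (S2 ∪ U) ⊆ S :=
            insert_subset hXS (union_subset hS2S (hU'.trans hS1S))
          have hlt : (S2 ∪ U).card < N := by
            rw [← hN]
            apply card_lt_card
            refine ⟨(subset_insert X _).trans hsub, fun h => hXU2 (h hXS)⟩
          have h2 := ih _ hlt (S2 ∪ U) X rfl hXU2
            (fun Y hY => hcons Y (mem_insert_of_mem (hsub hY)))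
            (fun v => le_trans (card_le_card (filter_subset_filter _
              (hsub.trans (subset_insert T S)))) (hread v))
            (fun Y hY => hcard Y (hsub (mem_insert_of_mem hY)))
          have h3 := Zer_insert X (S2 ∪ U)
          have h4 : S2 ∪ insert X U = insert X (S2 ∪ U) := union_insert X S2 U
          rw [h4, card_insert_of_notMem hXU]
          set z : ℝ := ((Zer (S2 ∪ U)).card : ℝ) with hz
          set w : ℝ := (((Zer (S2 ∪ U)).filter fun x => Sat X x).card : ℝ) with hw
          have h3' : ((Zer (insert X (S2 ∪ U))).card : ℝ) = z - w := by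
            have : ((Zer (insert X (S2 ∪ U))).card : ℝ) + w = z := by
              rw [hw, hz]
              exact_mod_cast h3
            linarith
          have h2' : (4 : ℝ) ^ X.card * w ≤ 3 ^ X.card * z := by
            rw [hw, hz]
            exact_mod_cast h2
          have h5 : w ≤ (3 / 4) ^ X.card * z := by
            rw [div_pow, div_mul_eq_mul_div, le_div_iff₀ (by positivity)]
            linarith
          have h6 : (3 / 4 : ℝ) ^ X.card ≤ (3 / 4) ^ r :=
            pow_le_pow_of_le_one (by norm_num) (by norm_num) (hcard X hXS)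
          have hz0 : 0 ≤ z := by rw [hz]; positivity
          rw [h3']
          have h7 : (3 / 4 : ℝ) ^ X.card * z ≤ (3 / 4) ^ r * z := mul_le_mul_of_nonneg_right h6 hz0
          calc (1 - (3 / 4 : ℝ) ^ r) ^ (U.card + 1) * ((Zer S2).card : ℝ) =
                (1 - (3 / 4 : ℝ) ^ r) * ((1 - (3 / 4 : ℝ) ^ r) ^ U.card * ((Zer S2).card : ℝ)) := by
                ring
            _ ≤ (1 - (3 / 4 : ℝ) ^ r) * z := mul_le_mul_of_nonneg_left h1 (by linarith)
            _ ≤ z - w := by linarith
      have h1 := hadd S1 (Subset.refl _)
      rw [hS12] at h1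
      have h2 := indep_sat hind hT (S := S2) (fun X hX => (mem_filter.1 hX).2)
      have h3 : ((Zer S).filter fun x => Sat T x).card ≤ ((Zer S2).filter fun x => Sat T x).card :=
        card_le_card (filter_subset_filter _ (Zer_anti hS2S))
      have h4 : (2 / 3 : ℝ) ^ T.card ≤ (1 - (3 / 4 : ℝ) ^ r) ^ S1.card := by
        calc (2 / 3 : ℝ) ^ T.card ≤ ((1 - (3 / 4 : ℝ) ^ r) ^ k) ^ T.card := by gcongr
          _ = (1 - (3 / 4 : ℝ) ^ r) ^ (k * T.card) := by rw [← pow_mul]
          _ ≤ (1 - (3 / 4 : ℝ) ^ r) ^ S1.card :=
            pow_le_pow_of_le_one (by linarith) (by linarith) hm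
      have h5 : (2 / 3 : ℝ) ^ T.card * ((Zer S2).card : ℝ) ≤ ((Zer S).card : ℝ) :=
        (mul_le_mul_of_nonneg_right h4 (by positivity)).trans h1
      have h2' : (((Zer S2).filter fun x => Sat T x).card : ℝ) * 2 ^ T.card = ((Zer S2).card : ℝ) := by
        exact_mod_cast h2
      have h3' : (((Zer S).filter fun x => Sat T x).card : ℝ) ≤
          (((Zer S2).filter fun x => Sat T x).card : ℝ) := by exact_mod_cast h3
      have h6 : (4 : ℝ) ^ T.card * (((Zer S).filter fun x => Sat T x).card : ℝ) ≤
          3 ^ T.card * ((Zer S).card : ℝ) := by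
        calc (4 : ℝ) ^ T.card * (((Zer S).filter fun x => Sat T x).card : ℝ) ≤
              4 ^ T.card * (((Zer S2).filter fun x => Sat T x).card : ℝ) := by gcongr
          _ = 2 ^ T.card * ((Zer S2).card : ℝ) := by
              rw [← h2']
              have : (4 : ℝ) ^ T.card = 2 ^ T.card * 2 ^ T.card := by
                rw [← mul_pow]
                norm_num
              rw [this]
              ring
          _ = 3 ^ T.card * ((2 / 3 : ℝ) ^ T.card * ((Zer S2).card : ℝ)) := by
              rw [div_pow]
              field_simp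
          _ ≤ 3 ^ T.card * ((Zer S).card : ℝ) := by gcongr
      exact_mod_cast h6
  intro S T hTS hcons hread hcard
  exact key S.card S T rfl hTS hcons hread hcard

end Pool.Agent.N597.RK
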