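import Pool.Agent.N597.RK.Props

/-!
# Project RK (helper597), part LFM (helper263): the terms that remain at a node
-/

set_option autoImplicit false

namespace Pool.Agent.N597.RK

namespace LeafFam

lemma litSat_iff {n : ℕ} (x : Fin n → Bool) (l : Lit) :
    litSat (List.ofFn x) l = true ↔ ∃ h : l.1 < n, x ⟨l.1, h⟩ = l.2 := by
  unfold litSat
  rw [decide_eq_true_iff, List.getElem?_ofFn]
  by_cases h : l.1 < n
  · rw [dif_pos h, Option.some_inj]
    exact ⟨fun h2 => ⟨h, h2⟩, fun ⟨_, h2⟩ => h2⟩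
  · rw [dif_neg h]
    exact ⟨fun h2 => absurd h2 (by simp), fun ⟨h2, _⟩ => absurd h2 h⟩

lemma termSat_iff (x : List Bool) (c : Term) : termSat x c = true ↔ ∀ l ∈ c, litSat x l = true := by
  unfold termSat
  exact List.all_eq_true

lemma dnfSat_false_iff (F : Dnf) (x : List Bool) :
    dnfSat F x = false ↔ ∀ T ∈ F, ¬ termSat x T = true := by
  unfold dnfSat
  rw [List.any_eq_false]

/-- the term is not killed by the node -/
def alive (n : ℕ) (ν T : Term) : Prop :=
  (∀ l ∈ T, l.1 < n) ∧ (∀ l ∈ T, (l.1, !l.2) ∉ T) ∧ ∀ l ∈ T, (l.1, !l.2) ∉ ν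

open Classical in
/-- the literals of the term in the other variables -/
noncomputable def rd (n : ℕ) (ν T : Term) : FT n :=
  Finset.univ.filter fun l : Fin n × Bool => ((l.1 : ℕ), l.2) ∈ T ∧ ∀ l' ∈ ν, l'.1 ≠ (l.1 : ℕ)

lemma mem_rd {n : ℕ} {ν T : Term} {l : Fin n × Bool} :
    l ∈ rd n ν T ↔ ((l.1 : ℕ), l.2) ∈ T ∧ ∀ l' ∈ ν, l'.1 ≠ (l.1 : ℕ) := by
  unfold rd
  simp

lemma alive_of_sat {n : ℕ} {ν T : Term} {x : Fin n → Bool}
    (hν : termSat (List.ofFn x) ν = true) (hT : termSat (List.ofFn x) T = true) :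
    alive n ν T := by
  rw [termSat_iff] at hν hT
  refine ⟨fun l hl => ((litSat_iff x l).1 (hT l hl)).1, fun l hl h2 => ?_, fun l hl h2 => ?_⟩
  · obtain ⟨h3, h4⟩ := (litSat_iff x l).1 (hT l hl)
    obtain ⟨h5, h6⟩ := (litSat_iff x _).1 (hT _ h2)
    simp only at h5 h6
    rw [h4] at h6
    cases hb : l.2 <;> simp [hb] at h6
  · obtain ⟨h3, h4⟩ := (litSat_iff x l).1 (hT l hl)
    obtain ⟨h5, h6⟩ := (litSat_iff x _).1 (hν _ h2)
    simp only at h5 h6
    rw [h4] at h6
    cases hb : l.2 <;> simp [hb] at h6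

lemma sat_iff {n : ℕ} {ν T : Term} {x : Fin n → Bool}
    (hν : termSat (List.ofFn x) ν = true) (hT : alive n ν T) :
    termSat (List.ofFn x) T = true ↔ Sat (rd n ν T) x := by
  rw [termSat_iff] at hν ⊢
  constructor
  · intro h l hl
    obtain ⟨h1, h2⟩ := (litSat_iff x _).1 (h _ (mem_rd.1 hl).1)
    exact h2
  · intro h l hl
    by_cases hex : ∃ l' ∈ ν, l'.1 = l.1
    · obtain ⟨l', hl', heq⟩ := hex
      have h1 : l' = l := by
        refine Prod.ext heq ?_
        by_contra hne
        have h2 : l'.2 = !l.2 := by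
          cases hb : l.2 <;> cases hb' : l'.2 <;> simp_all
        apply hT.2.2 l hl
        rw [← h2, ← heq]
        exact hl'
      rw [← h1]
      exact hν l' hl'
    · push Not at hex
      rw [litSat_iff]
      have h1 := hT.1 l hl
      exact ⟨h1, h (⟨l.1, h1⟩, l.2) (mem_rd.2 ⟨hl, hex⟩)⟩

lemma cons_rd {n : ℕ} {ν T : Term} (hT : alive n ν T) : Cons (rd n ν T) := by
  intro l hl h2
  exact hT.2.1 _ (mem_rd.1 hl).1 (mem_rd.1 h2).1

open Classical in
/-- the family of all terms that remain -/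
noncomputable def G0 (n : ℕ) (F : Dnf) (ν : Term) : Finset (FT n) :=
  (F.toFinset.filter fun T => alive n ν T).image (rd n ν)

lemma mem_G0 {n : ℕ} {F : Dnf} {ν : Term} {X : FT n} :
    X ∈ G0 n F ν ↔ ∃ T ∈ F, alive n ν T ∧ rd n ν T = X := by
  classical
  unfold G0
  simp only [Finset.mem_image, Finset.mem_filter, List.mem_toFinset, and_assoc]

lemma mem_Zer {n : ℕ} {G : Finset (FT n)} {x : Fin n → Bool} :
    x ∈ Zer G ↔ ∀ T ∈ G, ¬ Sat T x := by
  unfold Zer
  simp

lemma false_iff {n : ℕ} {F : Dnf} {ν : Term} {x : Fin n → Bool}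
    (hν : termSat (List.ofFn x) ν = true) :
    dnfSat F (List.ofFn x) = false ↔ x ∈ Zer (G0 n F ν) := by
  rw [dnfSat_false_iff, mem_Zer]
  constructor
  · intro h X hX hs
    obtain ⟨T, hTF, hTa, rfl⟩ := mem_G0.1 hX
    exact h T hTF ((sat_iff hν hTa).2 hs)
  · intro h T hTF hs
    have hTa := alive_of_sat hν hs
    exact h _ (mem_G0.2 ⟨T, hTF, hTa, rfl⟩) ((sat_iff hν hTa).1 hs)

lemma read_G0 {n k : ℕ} {F : Dnf} (hF : Read k F) (ν : Term) : ReadF k (G0 n F ν) := by
  classical
  intro v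
  refine le_trans ?_ (hF (v : ℕ))
  refine le_trans (Finset.card_le_card (t := ((F.filter fun T => T.any fun l =>
    decide (l.1 = (v : ℕ))).toFinset).image (rd n ν)) ?_) ?_
  · intro X hX
    rw [Finset.mem_filter] at hX
    obtain ⟨T, hTF, hTa, rfl⟩ := mem_G0.1 hX.1
    rw [Finset.mem_image]
    refine ⟨T, ?_, rfl⟩
    rw [List.mem_toFinset, List.mem_filter]
    refine ⟨hTF, ?_⟩
    have h2 := hX.2
    unfold vars at h2
    rw [Finset.mem_image] at h2
    obtain ⟨l, hl, hlv⟩ := h2
    rw [List.any_eq_true]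
    refine ⟨_, (mem_rd.1 hl).1, ?_⟩
    simp [hlv]
  · exact Finset.card_image_le.trans (List.toFinset_card_le _)

end LeafFam

open LeafFam in
theorem leafFamily (h : ExtsFacts) : LeafFamily := by
  classical
  intro n k s F hF ν _ _ hexts
  obtain ⟨G, hG, hmin⟩ := Finset.exists_min_image
    ((G0 n F ν).powerset.filter fun G => Zer G = Zer (G0 n F ν)) Finset.card
    ⟨G0 n F ν, by simp⟩
  rw [Finset.mem_filter, Finset.mem_powerset] at hG
  obtain ⟨hGs, hGz⟩ := hG
  have hcons : ∀ X ∈ G, Cons X := by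
    intro X hX
    obtain ⟨T, _, hTa, rfl⟩ := mem_G0.1 (hGs hX)
    exact cons_rd hTa
  have hvar : ∀ X ∈ G, ∀ l ∈ X, ∀ l' ∈ ν, l'.1 ≠ (l.1 : ℕ) := by
    intro X hX l hl
    obtain ⟨T, _, hTa, rfl⟩ := mem_G0.1 (hGs hX)
    exact (mem_rd.1 hl).2
  have hread : ReadF k G := fun v =>
    (Finset.card_le_card (Finset.filter_subset_filter _ hGs)).trans (read_G0 hF ν v)
  have hsize : ∀ X ∈ G, s < X.card := by
    intro X hX
    by_contra hle
    have hle' : X.card ≤ s := not_lt.1 hle
    set p : Term := X.toList.map fun l => ((l.1 : ℕ), l.2) with hp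
    have hpe : p ∈ exts (lits n) ν s := by
      rw [(h n ν s).2 p]
      refine ⟨?_, ?_, ?_⟩
      · rw [hp, List.length_map, Finset.length_toList]
        exact hle'
      · rw [hp, List.map_map]
        refine List.Nodup.map_on ?_ (Finset.nodup_toList X)
        intro a ha b hb hab
        rw [Finset.mem_toList] at ha hb
        have h1 : a.1 = b.1 := Fin.ext hab
        refine Prod.ext h1 ?_
        by_contra hne
        have h2 : b = (a.1, !a.2) := by
          refine Prod.ext h1.symm ?_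
          cases hb1 : a.2 <;> cases hb2 : b.2 <;> simp_all
        rw [h2] at hb
        exact hcons X hX a ha hb
      · intro l hl
        rw [hp, List.mem_map] at hl
        obtain ⟨a, ha, rfl⟩ := hl
        rw [Finset.mem_toList] at ha
        exact ⟨a.1.2, hvar X hX a ha⟩
    obtain ⟨x, hx1, hx2⟩ := hexts p hpe
    rw [termSat_iff] at hx2
    have hν : termSat (List.ofFn x) ν = true :=
      (termSat_iff _ _).2 fun l hl => hx2 l (List.mem_append_left _ hl)
    have hXs : Sat X x := by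
      intro l hl
      have h1 : ((l.1 : ℕ), l.2) ∈ p := by
        rw [hp, List.mem_map]
        exact ⟨l, by rw [Finset.mem_toList]; exact hl, rfl⟩
      obtain ⟨_, h2⟩ := (litSat_iff x _).1 (hx2 _ (List.mem_append_right _ h1))
      exact h2
    rw [false_iff hν, ← hGz, mem_Zer] at hx1
    exact hx1 X hX hXs
  refine ⟨G, hcons, hread, hsize, ?_, hvar, ?_, ?_⟩
  · have h1 : G ⊆ Finset.univ.biUnion fun v : Fin n => G.filter fun X => v ∈ vars X := by
      intro X hX
      have h2 : X.Nonempty := by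
        rw [← Finset.card_pos]
        exact lt_of_le_of_lt (Nat.zero_le _) (hsize X hX)
      obtain ⟨l, hl⟩ := h2
      rw [Finset.mem_biUnion]
      refine ⟨l.1, Finset.mem_univ _, ?_⟩
      rw [Finset.mem_filter]
      exact ⟨hX, Finset.mem_image_of_mem _ hl⟩
    refine (Finset.card_le_card h1).trans (Finset.card_biUnion_le.trans ?_)
    refine (Finset.sum_le_sum fun v _ => hread v).trans ?_
    rw [Finset.sum_const, Finset.card_univ, Fintype.card_fin, smul_eq_mul, mul_comm]
  · intro T hT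
    by_contra hcon
    push Not at hcon
    have h1 : Zer (G.erase T) = Zer G := by
      ext y
      rw [mem_Zer, mem_Zer]
      constructor
      · intro hy X hX hXs
        by_cases hXT : X = T
        · rw [hXT] at hXs
          obtain ⟨Y, hY, hYT, hYs⟩ := hcon y hXs
          exact hy Y (Finset.mem_erase.2 ⟨hYT, hY⟩) hYs
        · exact hy X (Finset.mem_erase.2 ⟨hXT, hX⟩) hXs
      · intro hy X hX
        exact hy X (Finset.mem_of_mem_erase hX)
    have h2 := hmin (G.erase T) (by
      rw [Finset.mem_filter, Finset.mem_powerset]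
      exact ⟨(Finset.erase_subset _ _).trans hGs, h1.trans hGz⟩)
    have h3 := Finset.card_erase_lt_of_mem hT
    omega
  · intro x hx
    rw [false_iff hx, hGz]

end Pool.Agent.N597.RK
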