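import Pool.Agent.N597.RK.Props

/-!
# The leaf analysis of the learner

(helper226)
-/

set_option autoImplicit false

namespace Pool.Agent.N597.RK

namespace Lht

/-- The literals of a finite term as a list. -/
noncomputable def tl {n : ℕ} (T : FT n) : Term := T.toList.map fun l => ((l.1 : ℕ), l.2)

theorem litSat_ofFn {n : ℕ} (x : Fin n → Bool) (j : Fin n) (b : Bool) :
    litSat (List.ofFn x) ((j : ℕ), b) = true ↔ x j = b := by
  unfold litSat
  rw [decide_eq_true_iff, List.getElem?_ofFn]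
  simp

theorem litSat_ofFn' {n : ℕ} (x : Fin n → Bool) (l : Lit) (hl : l.1 < n) :
    litSat (List.ofFn x) l = true ↔ x ⟨l.1, hl⟩ = l.2 :=
  litSat_ofFn x ⟨l.1, hl⟩ l.2

theorem termSat_iff {n : ℕ} (x : Fin n → Bool) (c : Term) (hc : ∀ l ∈ c, l.1 < n) :
    termSat (List.ofFn x) c = true ↔ ∀ l (h : l ∈ c), x ⟨l.1, hc l h⟩ = l.2 := by
  unfold termSat
  rw [List.all_eq_true]
  constructor
  · intro h l hl
    exact (litSat_ofFn' x l (hc l hl)).mp (h l hl)
  · intro h l hl
    exact (litSat_ofFn' x l (hc l hl)).mpr (h l hl)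

theorem termSat_append (x : List Bool) (c d : Term) :
    termSat x (c ++ d) = true ↔ termSat x c = true ∧ termSat x d = true := by
  unfold termSat
  rw [List.all_append, Bool.and_eq_true]

theorem mem_tl {n : ℕ} {T : FT n} {l : Lit} :
    l ∈ tl T ↔ ∃ l' ∈ T, ((l'.1 : ℕ), l'.2) = l := by
  unfold tl
  simp [List.mem_map]

theorem tl_lt {n : ℕ} (T : FT n) : ∀ l ∈ tl T, l.1 < n := by
  intro l hl
  obtain ⟨l', -, rfl⟩ := mem_tl.mp hl
  exact l'.1.2

theorem tl_length {n : ℕ} (T : FT n) : (tl T).length = T.card := by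
  unfold tl
  rw [List.length_map, Finset.length_toList]

theorem termSat_tl {n : ℕ} (x : Fin n → Bool) (T : FT n) :
    termSat (List.ofFn x) (tl T) = true ↔ Sat T x := by
  unfold termSat Sat
  rw [List.all_eq_true]
  constructor
  · intro h l hl
    exact (litSat_ofFn x l.1 l.2).mp (h _ (mem_tl.mpr ⟨l, hl, rfl⟩))
  · intro h l hl
    obtain ⟨l', hl', rfl⟩ := mem_tl.mp hl
    exact (litSat_ofFn x l'.1 l'.2).mpr (h l' hl')

theorem cons_eq {n : ℕ} {T : FT n} (hT : Cons T) {l l' : Fin n × Bool} (h : l ∈ T) (h' : l' ∈ T)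
    (e : l.1 = l'.1) : l = l' := by
  by_contra hne
  have h2 : l'.2 = !l.2 := by
    have : l.2 ≠ l'.2 := fun h2 => hne (Prod.ext e h2)
    cases h3 : l.2 <;> cases h4 : l'.2 <;> simp_all
  apply hT l h
  have : (l.1, !l.2) = l' := Prod.ext e h2.symm
  rwa [this]

theorem tl_nodup {n : ℕ} {T : FT n} (hT : Cons T) : ((tl T).map Prod.fst).Nodup := by
  unfold tl
  rw [List.map_map]
  refine List.Nodup.map_on ?_ T.nodup_toList
  intro l hl l' hl' e
  rw [Finset.mem_toList] at hl hl'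
  exact cons_eq hT hl hl' (Fin.ext e)

theorem mem_zer {n : ℕ} {G : Finset (FT n)} {x : Fin n → Bool} :
    x ∈ Zer G ↔ ∀ T ∈ G, ¬ Sat T x := by
  unfold Zer
  simp

/-- `Sat T` depends only on the variables of `T`. -/
theorem sat_congr {n : ℕ} {T : FT n} {x z : Fin n → Bool} (h : ∀ l ∈ T, x l.1 = z l.1) :
    Sat T x ↔ Sat T z := by
  unfold Sat
  refine forall₂_congr fun l hl => ?_
  rw [h l hl]

theorem zer_congr {n : ℕ} {G : Finset (FT n)} {x z : Fin n → Bool}
    (h : ∀ T ∈ G, ∀ l ∈ T, x l.1 = z l.1) : x ∈ Zer G ↔ z ∈ Zer G := by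
  rw [mem_zer, mem_zer]
  refine forall₂_congr fun T hT => ?_
  rw [sat_congr (h T hT)]

theorem cnt_pos {S : List Ex} {c : Term} (h : 0 < cnt S c) :
    ∃ z ∈ S, z.2 = false ∧ termSat z.1 c = true := by
  unfold cnt at h
  obtain ⟨z, hz⟩ := List.exists_mem_of_length_pos h
  rw [List.mem_filter, Bool.and_eq_true, Bool.not_eq_true'] at hz
  exact ⟨z, hz.1, hz.2.1, hz.2.2⟩

theorem not_rare {q : ℕ} {S : List Ex} {c : Term} (h : rare q S c = false) :
    S.length ≤ q * cnt S c := by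
  unfold rare at h
  rw [decide_eq_false_iff_not] at h
  omega

theorem cnt_pos_of_not_rare {q : ℕ} {S : List Ex} {c : Term} (hS : 0 < S.length)
    (h : rare q S c = false) : 0 < cnt S c := by
  have h1 := not_rare h
  by_contra h2
  have : cnt S c = 0 := by omega
  rw [this, mul_zero] at h1
  omega

/-- The counting at the end. -/
theorem count_end (h6 : IndepTerm) {n k ℓ : ℕ} {ν : Term} (hν : (ν.map Prod.fst).Nodup)
    (hνl : ∀ l ∈ ν, l.1 < n) (G : Finset (FT n)) (hGc : ∀ X ∈ G, Cons X) (hG : G.card ≤ k * n)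
    (hGν : ∀ X ∈ G, ∀ l ∈ X, ∀ l' ∈ ν, l'.1 ≠ (l.1 : ℕ)) (Y : Finset (Fin n → Bool))
    (hY : ∀ y ∈ Y, termSat (List.ofFn y) ν = true ∧ ∃ T ∈ G, Sat T y ∧ ℓ < T.card) :
    Y.card * 2 ^ ℓ ≤
      k * n * (Finset.univ.filter fun y : Fin n → Bool => termSat (List.ofFn y) ν = true).card := by
  classical
  set N := (Finset.univ.filter fun y : Fin n → Bool => termSat (List.ofFn y) ν = true).card with hN
  have hN1 : N * 2 ^ ν.length = (Finset.univ : Finset (Fin n → Bool)).card :=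
    h6 n ν hν hνl Finset.univ (fun _ _ _ => by simp)
  have hT : ∀ T ∈ G, (Finset.univ.filter fun y : Fin n → Bool =>
      termSat (List.ofFn y) ν = true ∧ Sat T y).card * 2 ^ T.card = N := by
    intro T hTG
    have h7 := h6 n (ν ++ tl T) (by
      rw [List.map_append]
      refine List.Nodup.append hν (tl_nodup (hGc T hTG)) ?_
      rw [List.disjoint_left]
      intro j hj hj'
      rw [List.mem_map] at hj hj'
      obtain ⟨l', hl', rfl⟩ := hj
      obtain ⟨l, hl, e⟩ := hj'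
      obtain ⟨l'', hl'', rfl⟩ := mem_tl.mp hl
      exact hGν T hTG l'' hl'' l' hl' e.symm) (by
      intro l hl
      rw [List.mem_append] at hl
      rcases hl with hl | hl
      · exact hνl l hl
      · exact tl_lt T l hl) Finset.univ (fun _ _ _ => by simp)
    rw [List.length_append, tl_length] at h7
    have h8 : (Finset.univ.filter fun y : Fin n → Bool =>
        termSat (List.ofFn y) (ν ++ tl T) = true) =
        Finset.univ.filter fun y : Fin n → Bool => termSat (List.ofFn y) ν = true ∧ Sat T y := by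
      refine Finset.filter_congr fun y _ => ?_
      rw [termSat_append, termSat_tl]
    rw [h8] at h7
    have h9 : (0 : ℕ) < 2 ^ ν.length := by positivity
    refine Nat.eq_of_mul_eq_mul_right h9 ?_
    rw [hN1, ← h7, pow_add]
    ring
  have hsub : Y ⊆ (G.filter fun T => ℓ < T.card).biUnion fun T =>
      Finset.univ.filter fun y : Fin n → Bool => termSat (List.ofFn y) ν = true ∧ Sat T y := by
    intro y hy
    obtain ⟨h1, T, hTG, h2, h3⟩ := hY y hy
    rw [Finset.mem_biUnion]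
    exact ⟨T, Finset.mem_filter.mpr ⟨hTG, h3⟩, Finset.mem_filter.mpr ⟨Finset.mem_univ _, h1, h2⟩⟩
  calc Y.card * 2 ^ ℓ
      ≤ (∑ T ∈ G.filter fun T => ℓ < T.card, (Finset.univ.filter fun y : Fin n → Bool =>
          termSat (List.ofFn y) ν = true ∧ Sat T y).card) * 2 ^ ℓ :=
        Nat.mul_le_mul_right _ ((Finset.card_le_card hsub).trans Finset.card_biUnion_le)
    _ = ∑ T ∈ G.filter fun T => ℓ < T.card, (Finset.univ.filter fun y : Fin n → Bool =>
          termSat (List.ofFn y) ν = true ∧ Sat T y).card * 2 ^ ℓ := Finset.sum_mul _ _ _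
    _ ≤ ∑ T ∈ G.filter fun T => ℓ < T.card, N := by
        refine Finset.sum_le_sum fun T hT' => ?_
        rw [Finset.mem_filter] at hT'
        rw [← hT T hT'.1]
        exact Nat.mul_le_mul_left _ (Nat.pow_le_pow_right (by norm_num) hT'.2.le)
    _ = (G.filter fun T => ℓ < T.card).card * N := by rw [Finset.sum_const, smul_eq_mul]
    _ ≤ k * n * N := Nat.mul_le_mul_right _ ((Finset.card_filter_le _ _).trans hG)

/-- The size of `E`. -/
theorem size_E (h6 : IndepTerm) {n q C ℓ a Λ : ℕ} {F : Dnf} {S : List Ex} {γ : ℝ} (hγ0 : 0 ≤ γ)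
    (hRep : Rep n F γ Λ S) (hS : 0 < S.length) (hq : 0 < q)
    (hγ : γ * (100 * 2 ^ a) ≤ 1) (hqa : 2 * q * 2 ^ (C * (ℓ + 1)) ≤ 2 ^ a) {ν : Term}
    (hν : (ν.map Prod.fst).Nodup) (hνl : ∀ l ∈ ν, l.1 < n) (hνΛ : ν.length ≤ Λ)
    (hr : rare q S ν = false) {G : Finset (FT n)}
    (hGν : ∀ X ∈ G, ∀ l ∈ X, ∀ l' ∈ ν, l'.1 ≠ (l.1 : ℕ))
    (hGF : ∀ x : Fin n → Bool, termSat (List.ofFn x) ν = true →
      (dnfSat F (List.ofFn x) = false ↔ x ∈ Zer G))
    {u T' : FT n} (hu : ∀ l ∈ u, ∀ l' ∈ ν, l'.1 ≠ (l.1 : ℕ))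
    (hT' : ∀ l ∈ T', ∀ l' ∈ ν, l'.1 ≠ (l.1 : ℕ)) {t : ℕ} (ht : t ≤ ℓ)
    (hcore : (Zer G).card ≤ 2 ^ (C * (t + 1)) *
      ((Zer G).filter fun x => Sat u x ∧ Sat T' x).card) :
    2 ^ n ≤ 2 ^ a * ((Zer G).filter fun x =>
      termSat (List.ofFn x) (tl u ++ ν) = true ∧ Sat T' x).card := by
  classical
  set E := (Zer G).filter fun x => termSat (List.ofFn x) (tl u ++ ν) = true ∧ Sat T' x with hE
  set A := (Zer G).filter fun x => Sat u x ∧ Sat T' x with hA
  have key : ∀ x z : Fin n → Bool, (∀ j : Fin n, (∀ l ∈ ν, l.1 ≠ (j : ℕ)) → x j = z j) →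
      ∀ X : FT n, (∀ l ∈ X, ∀ l' ∈ ν, l'.1 ≠ (l.1 : ℕ)) → ∀ l ∈ X, x l.1 = z l.1 :=
    fun x z h X hX l hl => h l.1 (hX l hl)
  have hEA : (A.filter fun x => termSat (List.ofFn x) ν = true) = E := by
    rw [hA, hE, Finset.filter_filter]
    refine Finset.filter_congr fun x _ => ?_
    rw [termSat_append, termSat_tl]
    tauto
  have h1 : E.card * 2 ^ ν.length = A.card := by
    rw [← hEA]
    refine h6 n ν hν hνl A fun x z h => ?_
    rw [hA, Finset.mem_filter, Finset.mem_filter, zer_congr (fun X hX => key x z h X (hGν X hX)),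
      sat_congr (key x z h u hu), sat_congr (key x z h T' hT')]
  have h2 : ((Zer G).filter fun x => termSat (List.ofFn x) ν = true).card * 2 ^ ν.length =
      (Zer G).card :=
    h6 n ν hν hνl (Zer G) fun x z h => zer_congr (fun X hX => key x z h X (hGν X hX))
  have h3 : num n F ν = ((Zer G).filter fun x => termSat (List.ofFn x) ν = true).card := by
    unfold num
    congr 1
    ext x
    simp only [Finset.mem_filter, Finset.mem_univ, true_and]
    constructor
    · rintro ⟨h4, h5⟩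
      exact ⟨(hGF x h5).mp h4, h5⟩
    · rintro ⟨h4, h5⟩
      exact ⟨(hGF x h5).mpr h4, h5⟩
  have h4 : num n F ν ≤ 2 ^ (C * (ℓ + 1)) * E.card := by
    have h9 : (0 : ℕ) < 2 ^ ν.length := by positivity
    refine Nat.le_of_mul_le_mul_right ?_ h9
    calc num n F ν * 2 ^ ν.length = (Zer G).card := by rw [h3, h2]
      _ ≤ 2 ^ (C * (t + 1)) * A.card := hcore
      _ ≤ 2 ^ (C * (ℓ + 1)) * A.card :=
        Nat.mul_le_mul_right _ (Nat.pow_le_pow_right (by norm_num)
          (Nat.mul_le_mul_left _ (by omega)))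
      _ = 2 ^ (C * (ℓ + 1)) * E.card * 2 ^ ν.length := by rw [← h1]; ring
  -- the lower bound for `num n F ν`
  have hm : (0 : ℝ) < S.length := by exact_mod_cast hS
  have hqR : (0 : ℝ) < q := by exact_mod_cast hq
  have h5 := (abs_le.mp (hRep ν hνΛ hνl)).2
  have h6' : (S.length : ℝ) ≤ q * cnt S ν := by exact_mod_cast not_rare hr
  have h2n : (0 : ℝ) < 2 ^ n := by positivity
  have h7 : 2 * (q : ℝ) ≤ 2 ^ a := by
    have : 2 * q ≤ 2 ^ a := by
      refine le_trans ?_ hqa
      exact Nat.le_mul_of_pos_right _ (by positivity)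
    exact_mod_cast this
  have h8 : 2 * (q : ℝ) * γ ≤ 1 := by
    have : 2 * (q : ℝ) * γ ≤ 2 ^ a * γ := mul_le_mul_of_nonneg_right h7 hγ0
    have h9 : (2 : ℝ) ^ a * γ ≤ 1 := by
      have : 0 ≤ (2 : ℝ) ^ a * γ := by positivity
      nlinarith
    linarith
  have h9 : (2 : ℝ) ^ n ≤ 2 * q * num n F ν := by
    -- q cnt ≥ m, cnt - m num/2^n ≤ γ m
    have e1 : (S.length : ℝ) * ((num n F ν : ℝ) / 2 ^ n) ≥ cnt S ν - γ * S.length := by linarith
    have e2 : (q : ℝ) * ((S.length : ℝ) * ((num n F ν : ℝ) / 2 ^ n)) ≥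
        S.length - q * γ * S.length := by
      have := mul_le_mul_of_nonneg_left e1 hqR.le
      nlinarith
    have e3 : (S.length : ℝ) * (q * ((num n F ν : ℝ) / 2 ^ n)) ≥ S.length * (1 / 2) := by
      have : q * γ * S.length ≤ (1 / 2) * S.length :=
        mul_le_mul_of_nonneg_right (by linarith) hm.le
      nlinarith
    have e4 : (1 / 2 : ℝ) ≤ q * ((num n F ν : ℝ) / 2 ^ n) := le_of_mul_le_mul_left e3 hm
    have e5 : q * ((num n F ν : ℝ) / 2 ^ n) * 2 ^ n = q * num n F ν := by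
      field_simp
    nlinarith
  have h10 : 2 ^ n ≤ 2 * q * num n F ν := by exact_mod_cast h9
  calc 2 ^ n ≤ 2 * q * num n F ν := h10
    _ ≤ 2 * q * (2 ^ (C * (ℓ + 1)) * E.card) := Nat.mul_le_mul_left _ h4
    _ = 2 * q * 2 ^ (C * (ℓ + 1)) * E.card := by ring
    _ ≤ 2 ^ a * E.card := Nat.mul_le_mul_right _ hqa

/-- The list of the related coordinates is short. -/
theorem rel_short (h1 : FewBiased) {n a : ℕ} {S : List Ex} {c : Term} {i : ℕ}
    {E : Finset (Fin n → Bool)} (hE : 2 ^ n ≤ 2 ^ a * E.card)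
    (h : ∀ j : Fin n, test S c i j = true → 3 * E.card ≤
      4 * dst (E.filter fun x => x j = true).card (E.filter fun x => x j = false).card) :
    (rel S n c i).length ≤ 6 * (a + 1) := by
  classical
  have hnd : (rel S n c i).Nodup := List.Nodup.filter _ List.nodup_range
  rw [← List.toFinset_card_of_nodup hnd]
  refine le_trans ?_ (h1 n a E hE)
  rw [← Finset.card_image_of_injective _ Fin.val_injective]
  refine Finset.card_le_card fun j hj => ?_
  rw [List.mem_toFinset, rel, List.mem_filter, List.mem_range] at hj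
  rw [Finset.mem_image]
  exact ⟨⟨j, hj.1⟩, Finset.mem_filter.mpr ⟨Finset.mem_univ _, h ⟨j, hj.1⟩ hj.2⟩, rfl⟩

end Lht

open Lht in
/-- The points in a leaf that are rejected by mistake are few. -/
theorem leafHit (h1 : FewBiased) (h2' : RatioTest) (h3' : PatsFacts) (h4 : ExtsFacts)
    (h5 : LeafFamily) (h6 : IndepTerm) : LeafHit := by
  classical
  intro k s C hCore n q D cap ℓ a Λ F hRead S γ hγ0 hRep hLab hS hq hΛ hcap hγ hqa ν hν hνl hνlen
    hnr
  obtain ⟨G, hGc, hGr, hGs, hGcard, hGν, hpriv, hGF⟩ := h5 n k s F hRead ν hν hνl (by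
    intro p hp
    obtain ⟨z, hz, hz1, hz2⟩ := cnt_pos (cnt_pos_of_not_rare hS (hnr p hp))
    obtain ⟨x, rfl⟩ := hLab z hz
    exact ⟨x, hz1, hz2⟩)
  refine count_end h6 hν hνl G hGc hGcard hGν _ ?_
  intro y hy
  rw [Finset.mem_filter] at hy
  obtain ⟨-, hyν, hyF, hyh⟩ := hy
  refine ⟨hyν, ?_⟩
  have hyZ : ¬ y ∈ Zer G := fun h => by
    rw [(hGF y hyν).mpr h] at hyF
    exact Bool.false_ne_true hyF
  rw [mem_zer] at hyZ
  push Not at hyZ
  obtain ⟨T, hT, hTy⟩ := hyZ
  refine ⟨T, hT, hTy, ?_⟩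
  by_contra hTℓ
  have hTℓ' : T.card ≤ ℓ := by omega
  obtain ⟨y0, hy0, hy0'⟩ := hpriv T hT
  obtain ⟨i, hi, u, hu, huk, hiu, huG, huX, hZ⟩ := hCore n G hGc hGr hGs T hT y0 hy0 hy0'
  -- the variables of `u` do not occur in `ν`
  have huν : ∀ l ∈ u, ∀ l' ∈ ν, l'.1 ≠ (l.1 : ℕ) := by
    intro l hl l' hl'
    obtain ⟨X, hX, hlX⟩ := huG l.1 (Finset.mem_image_of_mem _ hl)
    obtain ⟨l'', hl'', e⟩ := Finset.mem_image.mp hlX
    rw [← e]
    exact hGν X hX l'' hl'' l' hl'
  have hclt : ∀ l ∈ tl u ++ ν, l.1 < n := by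
    intro l hl
    rcases List.mem_append.mp hl with hl | hl
    · exact tl_lt u l hl
    · exact hνl l hl
  have hci : ∀ l ∈ tl u ++ ν, l.1 ≠ (i.1 : ℕ) := by
    intro l hl
    rcases List.mem_append.mp hl with hl | hl
    · obtain ⟨l', hl', rfl⟩ := mem_tl.mp hl
      intro e
      exact hiu (Finset.mem_image.mpr ⟨l', hl', Fin.ext e⟩)
    · exact hGν T hT i hi l hl
  have hrare : rare q S ν = false := by
    have := hnr [] ((h4 n ν s).2 [] |>.mpr ⟨Nat.zero_le _, List.nodup_nil, by simp⟩)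
    rwa [List.append_nil] at this
  have hEsize := size_E h6 hγ0 hRep hS hq hγ hqa hν hνl (by omega) hrare hGν hGF huν
    (T' := T.erase i) (fun l hl => hGν T hT l (Finset.mem_of_mem_erase hl)) hTℓ' hZ
  set E := (Zer G).filter fun x =>
    termSat (List.ofFn x) (tl u ++ ν) = true ∧ Sat (T.erase i) x with hE
  have hE100 : 100 * γ * 2 ^ n ≤ (E.card : ℝ) := by
    have e1 : (2 : ℝ) ^ n ≤ 2 ^ a * E.card := by exact_mod_cast hEsize
    have e2 : 100 * γ * 2 ^ n ≤ 100 * γ * (2 ^ a * E.card) :=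
      mul_le_mul_of_nonneg_left e1 (by positivity)
    have e3 : 100 * γ * (2 ^ a * (E.card : ℝ)) = γ * (100 * 2 ^ a) * E.card := by ring
    have e4 : γ * (100 * 2 ^ a) * (E.card : ℝ) ≤ 1 * E.card :=
      mul_le_mul_of_nonneg_right hγ (Nat.cast_nonneg _)
    linarith
  have hclen : (tl u ++ ν).length + 2 ≤ Λ := by
    rw [List.length_append, tl_length]
    omega
  obtain ⟨hR1, hR2⟩ := h2' n Λ F S γ hRep hS (tl u ++ ν) hclen hclt G T i hT (hGc T hT) hi hci
    (fun x hx => hGF x ((termSat_append _ _ _).mp hx).2) (by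
      intro x hx X hX hXT hiX hsat
      obtain ⟨l, hl, -, hlu⟩ := huX X hX hXT hiX
      have e1 := (termSat_tl x u).mp ((termSat_append _ _ _).mp hx).1 _ hlu
      have e2 := hsat l hl
      rw [e2] at e1
      cases h : l.2 <;> simp [h] at e1) E hE hE100
  have hJlen := rel_short h1 hEsize hR2
  have hJ2 : 2 ^ (rel S n (tl u ++ ν) i.1).length ≤ cap :=
    (Nat.pow_le_pow_right (by norm_num) hJlen).trans hcap
  obtain ⟨c', hc', hc'y, hc'J⟩ := (h3' cap (rel S n (tl u ++ ν) i.1)).2.2 (List.ofFn y) (by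
    intro j hj
    rw [rel, List.mem_filter, List.mem_range] at hj
    rw [List.length_ofFn]
    exact hj.1) hJ2
  have hc'lt : ∀ l ∈ c', l.1 < n := by
    intro l hl
    have := ((h3' cap (rel S n (tl u ++ ν) i.1)).2.1 c' hc').1 l hl
    rw [rel, List.mem_filter, List.mem_range] at this
    exact this.1
  -- `c'` is not seen
  have hcnt : cnt S c' = 0 := by
    by_contra hne
    obtain ⟨z, hz, hz1, hz2⟩ := cnt_pos (Nat.pos_of_ne_zero hne)
    obtain ⟨x, rfl⟩ := hLab z hz
    have hxy : ∀ j : Fin n, test S (tl u ++ ν) i.1 j = true → x j = y j := by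
      intro j hj
      obtain ⟨l, hl, e⟩ := hc'J j (by
        rw [rel, List.mem_filter, List.mem_range]
        exact ⟨j.2, hj⟩)
      have e1 := (termSat_iff x c' hc'lt).mp hz2 l hl
      have e2 := (termSat_iff y c' hc'lt).mp hc'y l hl
      have e3 : (⟨l.1, hc'lt l hl⟩ : Fin n) = j := Fin.ext e
      rw [e3] at e1 e2
      rw [e1, e2]
    have hxν : termSat (List.ofFn x) ν = true := by
      rw [termSat_iff x ν hνl]
      intro l hl
      rw [hxy _ (hR1 _ (Or.inr ⟨l, List.mem_append_right _ hl, rfl⟩))]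
      exact (termSat_iff y ν hνl).mp hyν l hl
    have hxT : Sat T x := by
      intro l hl
      rw [hxy _ (hR1 _ (Or.inl (Finset.mem_image_of_mem _ hl)))]
      exact hTy l hl
    exact mem_zer.mp ((hGF x hxν).mp hz1) T hT hxT
  -- so the learner has it
  have hmem : c' ∈ h2 k cap n S ν := by
    unfold h2
    rw [List.mem_flatMap]
    refine ⟨((i.1 : ℕ), i.2) :: tl u, ?_, ?_⟩
    · rw [(h4 n ν k).2]
      refine ⟨?_, ?_, ?_⟩
      · rw [List.length_cons, tl_length]
        omega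
      · rw [List.map_cons, List.nodup_cons]
        refine ⟨?_, tl_nodup hu⟩
        intro hmem
        obtain ⟨l, hl, e⟩ := List.mem_map.mp hmem
        exact hci l (List.mem_append_left _ hl) e
      · intro l hl
        rcases List.mem_cons.mp hl with rfl | hl
        · exact ⟨i.1.2, fun l' hl' => hGν T hT i hi l' hl'⟩
        · obtain ⟨l', hl', rfl⟩ := mem_tl.mp hl
          exact ⟨l'.1.2, fun l'' hl'' => huν l' hl' l'' hl''⟩
    · change c' ∈ (pats cap (rel S n (tl u ++ ν) (i.1 : ℕ))).filter fun c => decide (cnt S c = 0)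
      rw [List.mem_filter]
      exact ⟨hc', by rw [hcnt]; rfl⟩
  have : dnfSat (h2 k cap n S ν) (List.ofFn y) = true := by
    unfold dnfSat
    rw [List.any_eq_true]
    exact ⟨c', hmem, hc'y⟩
  rw [hyh] at this
  exact Bool.false_ne_true this

end Pool.Agent.N597.RK
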