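import Pool.Agent.N597.RK.Props

/-!
# The learner works: the choice of the parameters
-/

set_option autoImplicit false

namespace Pool.Agent.N597.RK.Main

open Pool.Agent.N597.RK

theorem lt_two_pow (t : ℕ) : t < 2 ^ t.bits.length := by
  rw [Nat.size_eq_bits_len]
  exact Nat.lt_size_self t

theorem two_pow_le (t : ℕ) (ht : 1 ≤ t) : 2 ^ t.bits.length ≤ 2 * t := by
  rw [Nat.size_eq_bits_len]
  have h1 : t.size ≠ 0 := by
    intro h
    rw [Nat.size_eq_zero] at h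
    omega
  obtain ⟨r, hr⟩ := Nat.exists_eq_succ_of_ne_zero h1
  have h2 : 2 ^ r ≤ t := by
    have := (Nat.lt_size (m := r) (n := t)).1 (by omega)
    exact this
  rw [hr, pow_succ]
  omega

theorem bits_le (t : ℕ) : t.bits.length ≤ t := by
  rw [Nat.size_eq_bits_len, Nat.size_le]
  exact Nat.lt_two_pow_self

theorem bits_pos (t : ℕ) (ht : 1 ≤ t) : 1 ≤ t.bits.length := by
  by_contra h
  have h1 := lt_two_pow t
  have h2 : t.bits.length = 0 := by omega
  rw [h2] at h1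
  simp at h1
  omega

/-- `2 ^ (c * λ) ≤ t ^ (2 c)` -/
theorem pow_bits_le (t c : ℕ) (ht : 2 ≤ t) : 2 ^ (c * t.bits.length) ≤ t ^ (2 * c) := by
  rw [mul_comm c, pow_mul, pow_mul]
  refine Nat.pow_le_pow_left ?_ c
  refine (two_pow_le t (by omega)).trans ?_
  rw [pow_two]
  exact Nat.mul_le_mul_right t ht

theorem le_pow_bits (t c : ℕ) : t ^ c ≤ 2 ^ (c * t.bits.length) := by
  rw [mul_comm c, pow_mul]
  exact Nat.pow_le_pow_left (lt_two_pow t).le c

/-- the deterministic part -/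
theorem err_le {k s C0 : ℕ} (hcore : CoreAt k s C0) (fp : FalsePos) (fn : FalseNeg)
    {n e t c1 ca c2 c5 : ℕ} (hn : 1 ≤ n) (he : 1 ≤ e) (ht3 : 3 * n ≤ t) (ht : (4 + k) * n * e ≤ t)
    (hc1 : c1 = 2 * 2 ^ s + 2 * (s * 2 ^ s) + s + 2) (hca : ca = c1 + 1 + 3 * C0)
    (hc2 : c2 = 6 + 12 * ca) (hc5 : c5 = 7 + 2 * ca + (2 * (s * 2 ^ s) + k + c2 + 2) + c1)
    {Λ : ℕ} (hΛ : Λ = (s * 2 ^ s + c2 + s + k + 2) * t.bits.length)
    (F : Dnf) (hF : Read k F) (S : List Ex) (hS : 0 < S.length) (hL : Labelled n F S)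
    (hR : Rep n F (1 / (t : ℝ) ^ c5) Λ S) :
    e * (Finset.univ.filter fun y : Fin n → Bool =>
      dnfSat (learnT s k (t ^ c1) (2 ^ s * t.bits.length) (t ^ c2) n S) (List.ofFn y) ≠
        dnfSat F (List.ofFn y)).card ≤ 2 ^ n := by
  set b := t.bits.length with hb
  have ht2 : 2 ≤ t := by omega
  have hb1 : 1 ≤ b := bits_pos t (by omega)
  have hbt : b ≤ t := bits_le t
  have htR : (2 : ℝ) ≤ t := by exact_mod_cast ht2
  have htpos : (0 : ℝ) < t := by linarith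
  have hpow : ∀ c : ℕ, (0 : ℝ) < (t : ℝ) ^ c := fun c => pow_pos htpos c
  have hγ0 : (0 : ℝ) ≤ 1 / (t : ℝ) ^ c5 := (div_pos one_pos (hpow _)).le
  have hΛ1 : s * (2 ^ s * b) + s ≤ Λ := by
    rw [hΛ]
    nlinarith [Nat.zero_le (c2 * b), Nat.zero_le (k * b), Nat.mul_le_mul_left s hb1]
  have hΛ2 : s * (2 ^ s * b) + k + 2 ≤ Λ := by
    rw [hΛ]
    nlinarith [Nat.zero_le (c2 * b), Nat.zero_le (s * b), Nat.mul_le_mul_left k hb1]
  have hcapΛ : t ^ c2 ≤ 2 ^ Λ := by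
    refine (le_pow_bits t c2).trans (Nat.pow_le_pow_right (by norm_num) ?_)
    rw [hΛ]
    exact Nat.mul_le_mul_right _ (by omega)
  have hq : 0 < t ^ c1 := by positivity
  have hcap1 : 1 ≤ t ^ c2 := Nat.one_le_pow _ _ (by omega)
  -- the two parts of the error
  have e1 := fp n s k (t ^ c1) (2 ^ s * b) (t ^ c2) Λ F S _ hγ0 hR hL hS hq hcap1 hcapΛ hΛ1
  have ha2 : 2 ^ (ca * b) ≤ t ^ (2 * ca) := pow_bits_le t ca ht2
  have hcap6 : 2 ^ (6 * (ca * b + 1)) ≤ t ^ c2 := by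
    rw [hc2, pow_add, mul_comm 6 (ca * b + 1), pow_mul, pow_add, mul_pow, mul_comm]
    refine Nat.mul_le_mul ?_ ?_
    · exact Nat.pow_le_pow_left (by simpa using ht2) 6
    · refine (Nat.pow_le_pow_left ha2 6).trans (le_of_eq ?_)
      rw [← pow_mul]
      congr 1
      ring
  have hγa : 1 / (t : ℝ) ^ c5 * (100 * 2 ^ (ca * b)) ≤ 1 := by
    rw [div_mul_eq_mul_div, one_mul, div_le_one (hpow _)]
    have h1 : 100 * 2 ^ (ca * b) ≤ t ^ c5 := by
      have h2 : 100 ≤ t ^ 7 := le_trans (by norm_num) (Nat.pow_le_pow_left ht2 7)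
      calc 100 * 2 ^ (ca * b) ≤ t ^ 7 * t ^ (2 * ca) := Nat.mul_le_mul h2 ha2
        _ = t ^ (7 + 2 * ca) := by rw [pow_add]
        _ ≤ t ^ c5 := Nat.pow_le_pow_right (by omega) (by omega)
    exact_mod_cast h1
  have haC : 2 * t ^ c1 * 2 ^ (C0 * (b + 1)) ≤ 2 ^ (ca * b) := by
    have h1 : 2 ^ (C0 * (b + 1)) ≤ t ^ (3 * C0) := by
      rw [mul_comm C0, pow_mul, pow_mul]
      refine Nat.pow_le_pow_left ?_ C0
      have h2 := two_pow_le t (by omega)
      rw [← hb] at h2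
      calc 2 ^ (b + 1) = 2 ^ b * 2 := pow_succ _ _
        _ ≤ 2 * t * 2 := Nat.mul_le_mul_right 2 h2
        _ ≤ t * t * t := by nlinarith
        _ = t ^ 3 := by ring
    calc 2 * t ^ c1 * 2 ^ (C0 * (b + 1)) ≤ t * t ^ c1 * t ^ (3 * C0) :=
          Nat.mul_le_mul (Nat.mul_le_mul_right _ ht2) h1
      _ = t ^ ca := by rw [hca, pow_add, pow_add]; ring
      _ ≤ 2 ^ (ca * b) := le_pow_bits t ca
  have e2 := fn k s C0 hcore n (t ^ c1) (2 ^ s * b) (t ^ c2) b (ca * b) Λ F hF S _ hγ0 hR hL hS hq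
    hΛ2 hcap6 hγa haC
  -- estimates of the bounds
  have hn3 : 2 * n + 1 ≤ t := by omega
  have g1 : ((2 : ℝ) ^ (s * (2 ^ s * b))) ≤ (t : ℝ) ^ (2 * (s * 2 ^ s)) := by
    have := pow_bits_le t (s * 2 ^ s) ht2
    rw [mul_assoc] at this
    exact_mod_cast this
  have g2 : (((2 ^ s * b : ℕ) : ℝ) + 1) ≤ (t : ℝ) ^ (2 * 2 ^ s) := by
    have h1 : 2 ^ s * b + 1 ≤ 2 ^ (2 ^ s * b) := Nat.lt_two_pow_self
    have h2 := h1.trans (pow_bits_le t (2 ^ s) ht2)
    exact_mod_cast h2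
  have g3 : ∀ j : ℕ, ((2 : ℝ) * n + 1) ^ j ≤ (t : ℝ) ^ j := by
    intro j
    refine pow_le_pow_left₀ (by positivity) ?_ j
    exact_mod_cast hn3
  have g4 : (1 / ((t ^ c1 : ℕ) : ℝ)) + 1 / (t : ℝ) ^ c5 ≤ 2 / (t : ℝ) ^ c1 := by
    push_cast
    have h1 : 1 / (t : ℝ) ^ c5 ≤ 1 / (t : ℝ) ^ c1 := by
      refine one_div_le_one_div_of_le (hpow _) ?_
      exact pow_le_pow_right₀ (by linarith) (by omega)
    have h2 : (2 : ℝ) / (t : ℝ) ^ c1 = 1 / (t : ℝ) ^ c1 + 1 / (t : ℝ) ^ c1 := by ring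
    linarith
  have g5 : (((2 ^ s * b : ℕ) : ℝ) + 1) * 2 ^ (s * (2 ^ s * b)) * (2 * n + 1) ^ s *
      (1 / ((t ^ c1 : ℕ) : ℝ) + 1 / (t : ℝ) ^ c5) ≤ 2 / (t : ℝ) ^ 2 := by
    calc (((2 ^ s * b : ℕ) : ℝ) + 1) * 2 ^ (s * (2 ^ s * b)) * (2 * n + 1) ^ s *
        (1 / ((t ^ c1 : ℕ) : ℝ) + 1 / (t : ℝ) ^ c5)
        ≤ (t : ℝ) ^ (2 * 2 ^ s) * (t : ℝ) ^ (2 * (s * 2 ^ s)) * (t : ℝ) ^ s * (2 / (t : ℝ) ^ c1) := by
          refine mul_le_mul (mul_le_mul (mul_le_mul g2 g1 (by positivity) (hpow _).le) (g3 s)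
            (by positivity) (by positivity)) g4 (by positivity) (by positivity)
      _ = 2 / (t : ℝ) ^ 2 := by
          rw [← pow_add, ← pow_add]
          have h1 : (t : ℝ) ^ c1 = (t : ℝ) ^ (2 * 2 ^ s + 2 * (s * 2 ^ s) + s) * (t : ℝ) ^ 2 := by
            rw [← pow_add, hc1]
          rw [h1]
          field_simp
  have g6 : (2 : ℝ) ^ (s * (2 ^ s * b)) * (2 * n + 1) ^ k * ((t ^ c2 : ℕ) : ℝ) *
      (1 / (t : ℝ) ^ c5) ≤ 1 / (t : ℝ) ^ 2 := by
    calc (2 : ℝ) ^ (s * (2 ^ s * b)) * (2 * n + 1) ^ k * ((t ^ c2 : ℕ) : ℝ) * (1 / (t : ℝ) ^ c5)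
        ≤ (t : ℝ) ^ (2 * (s * 2 ^ s)) * (t : ℝ) ^ k * (t : ℝ) ^ c2 *
          (1 / (t : ℝ) ^ (2 * (s * 2 ^ s) + k + c2 + 2)) := by
          refine mul_le_mul (mul_le_mul (mul_le_mul g1 (g3 k) (by positivity) (hpow _).le)
            (le_of_eq (by push_cast; ring)) (by positivity) (by positivity)) ?_ (by positivity)
            (by positivity)
          refine one_div_le_one_div_of_le (hpow _) ?_
          exact pow_le_pow_right₀ (by linarith) (by omega)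
      _ = 1 / (t : ℝ) ^ 2 := by
          rw [← pow_add, ← pow_add, pow_add _ _ 2]
          field_simp
  have g7 : ((1 : ℝ) - 1 / 2 ^ s) ^ (2 ^ s * b) ≤ 1 / t := by
    have h1 : (0 : ℝ) ≤ 1 - 1 / 2 ^ s := by
      rw [sub_nonneg, div_le_one (by positivity)]
      exact one_le_pow₀ (by norm_num)
    have h2 : ((1 : ℝ) - 1 / 2 ^ s) ^ (2 ^ s * b) ≤ Real.exp (-(b : ℝ)) := by
      calc ((1 : ℝ) - 1 / 2 ^ s) ^ (2 ^ s * b) ≤ (Real.exp (-(1 / 2 ^ s))) ^ (2 ^ s * b) := by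
            refine pow_le_pow_left₀ h1 ?_ _
            have := Real.add_one_le_exp (-(1 / (2 : ℝ) ^ s))
            linarith
        _ = Real.exp (-(b : ℝ)) := by
            rw [← Real.exp_nat_mul]
            congr 1
            push_cast
            field_simp
    refine h2.trans ?_
    rw [Real.exp_neg, one_div]
    refine inv_anti₀ htpos ?_
    have h3 : (2 : ℝ) ^ b ≤ Real.exp b := by
      have h4 : (2 : ℝ) ≤ Real.exp 1 := by
        have := Real.add_one_le_exp (1 : ℝ)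
        linarith
      calc (2 : ℝ) ^ b ≤ (Real.exp 1) ^ b := pow_le_pow_left₀ (by norm_num) h4 b
        _ = Real.exp b := by rw [← Real.exp_nat_mul]; ring_nf
    refine le_trans ?_ h3
    exact_mod_cast (lt_two_pow t).le
  have g8 : (k : ℝ) * n / 2 ^ b ≤ k * n / t := by
    refine div_le_div_of_nonneg_left (by positivity) htpos ?_
    exact_mod_cast (lt_two_pow t).le
  -- the union
  set A := Finset.univ.filter fun y : Fin n → Bool => dnfSat F (List.ofFn y) = false ∧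
    dnfSat (learnT s k (t ^ c1) (2 ^ s * b) (t ^ c2) n S) (List.ofFn y) = true with hA
  set B := Finset.univ.filter fun y : Fin n → Bool => dnfSat F (List.ofFn y) = true ∧
    dnfSat (learnT s k (t ^ c1) (2 ^ s * b) (t ^ c2) n S) (List.ofFn y) = false with hB
  have hsub : (Finset.univ.filter fun y : Fin n → Bool =>
      dnfSat (learnT s k (t ^ c1) (2 ^ s * b) (t ^ c2) n S) (List.ofFn y) ≠
        dnfSat F (List.ofFn y)) ⊆ A ∪ B := by
    intro y hy
    rw [Finset.mem_filter] at hy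
    rw [Finset.mem_union, hA, hB, Finset.mem_filter, Finset.mem_filter]
    have h2 := hy.2
    cases h3 : dnfSat F (List.ofFn y) <;>
      cases h4 : dnfSat (learnT s k (t ^ c1) (2 ^ s * b) (t ^ c2) n S) (List.ofFn y) <;>
      simp_all
  have hcard := (Finset.card_le_card hsub).trans (Finset.card_union_le A B)
  have h2n : (0 : ℝ) < 2 ^ n := by positivity
  have f1 : (A.card : ℝ) ≤ 3 / (t : ℝ) ^ 2 * 2 ^ n := by
    refine e1.trans (mul_le_mul_of_nonneg_right ?_ h2n.le)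
    have h1 : (3 : ℝ) / (t : ℝ) ^ 2 = 2 / (t : ℝ) ^ 2 + 1 / (t : ℝ) ^ 2 := by ring
    rw [h1]
    exact add_le_add g5 g6
  have f2 : (B.card : ℝ) ≤ (1 / t + k * n / t) * 2 ^ n :=
    e2.trans (mul_le_mul_of_nonneg_right (add_le_add g7 g8) h2n.le)
  have hnR : (1 : ℝ) ≤ n := by exact_mod_cast hn
  have f3 : 3 / (t : ℝ) ^ 2 + (1 / t + k * n / t) ≤ (4 + k) * n / t := by
    have h1 : 3 / (t : ℝ) ^ 2 ≤ 3 / t := by
      refine div_le_div_of_nonneg_left (by norm_num) htpos ?_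
      nlinarith
    have h2 : (3 : ℝ) / t + (1 / t + k * n / t) = (4 + k * n) / t := by ring
    have h3 : ((4 : ℝ) + k * n) / t ≤ (4 + k) * n / t := by
      refine div_le_div_of_nonneg_right ?_ htpos.le
      nlinarith
    linarith
  have f4 : (e : ℝ) * ((4 + k) * n / t) ≤ 1 := by
    rw [← mul_div_assoc, div_le_one htpos]
    have : (((4 + k) * n * e : ℕ) : ℝ) ≤ t := by exact_mod_cast ht
    push_cast at this
    linarith
  have f5 : (e : ℝ) * (A.card + B.card) ≤ 2 ^ n := by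
    have heR : (0 : ℝ) ≤ e := by positivity
    calc (e : ℝ) * (A.card + B.card)
        ≤ e * ((3 / (t : ℝ) ^ 2 + (1 / t + k * n / t)) * 2 ^ n) := by
          refine mul_le_mul_of_nonneg_left ?_ heR
          rw [add_mul]
          exact add_le_add f1 f2
      _ ≤ e * (((4 + k) * n / t) * 2 ^ n) := by
          refine mul_le_mul_of_nonneg_left (mul_le_mul_of_nonneg_right f3 h2n.le) heR
      _ = (e * ((4 + k) * n / t)) * 2 ^ n := by ring
      _ ≤ 1 * 2 ^ n := mul_le_mul_of_nonneg_right f4 h2n.le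
      _ = 2 ^ n := one_mul _
  have f6 : e * (A.card + B.card) ≤ 2 ^ n := by exact_mod_cast f5
  exact (Nat.mul_le_mul_left e hcard).trans f6

/-- the probability of bad samples -/
theorem rep_prob {n t m d c5 Λ A : ℕ} (hn : 2 * n + 1 ≤ t) (hd : d ≤ t) (ht : 2 ≤ t)
    (hΛ : Λ = A * t.bits.length) (hm : t ^ (2 * c5 + 3) ≤ m) (hA : 4 * (A + 2) ≤ t) :
    (d : ℝ) * (2 * (2 * n + 1) ^ Λ * Real.exp (-((1 / (t : ℝ) ^ c5) ^ 2 * m / 4)) * 2 ^ (n * m)) ≤
      2 ^ (n * m) := by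
  have htR : (2 : ℝ) ≤ t := by exact_mod_cast ht
  have htpos : (0 : ℝ) < t := by linarith
  have h1 : (d : ℝ) * (2 * (2 * n + 1) ^ Λ) ≤ Real.exp ((A + 2) * (t : ℝ) ^ 2) := by
    have hdR : (d : ℝ) ≤ t := by exact_mod_cast hd
    have hnR : (2 : ℝ) * n + 1 ≤ t := by exact_mod_cast hn
    have hte : (t : ℝ) ≤ Real.exp t := by
      have := Real.add_one_le_exp (t : ℝ)
      linarith
    calc (d : ℝ) * (2 * (2 * n + 1) ^ Λ) ≤ t * (t * (t : ℝ) ^ Λ) := by
          refine mul_le_mul hdR (mul_le_mul htR (pow_le_pow_left₀ (by positivity) hnR Λ)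
            (by positivity) htpos.le) (by positivity) htpos.le
      _ = (t : ℝ) ^ (Λ + 2) := by ring
      _ ≤ (Real.exp t) ^ (Λ + 2) := pow_le_pow_left₀ htpos.le hte _
      _ = Real.exp ((Λ + 2 : ℕ) * (t : ℝ)) := by rw [← Real.exp_nat_mul]
      _ ≤ Real.exp ((A + 2) * (t : ℝ) ^ 2) := by
          refine Real.exp_le_exp.2 ?_
          have h2 : Λ + 2 ≤ (A + 2) * t := by
            rw [hΛ]
            have := bits_le t
            nlinarith [Nat.mul_le_mul_left A this]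
          have h3 : ((Λ + 2 : ℕ) : ℝ) ≤ (A + 2) * t := by exact_mod_cast h2
          nlinarith
  have h2 : ((A : ℝ) + 2) * (t : ℝ) ^ 2 ≤ (1 / (t : ℝ) ^ c5) ^ 2 * m / 4 := by
    have hmR : (t : ℝ) ^ (2 * c5 + 3) ≤ m := by exact_mod_cast hm
    have hAR : (4 : ℝ) * (A + 2) ≤ t := by exact_mod_cast hA
    have h3 : (1 / (t : ℝ) ^ c5) ^ 2 * (t : ℝ) ^ (2 * c5 + 3) = (t : ℝ) ^ 3 := by
      have h4 : (t : ℝ) ^ (2 * c5 + 3) = ((t : ℝ) ^ c5) ^ 2 * (t : ℝ) ^ 3 := by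
        rw [pow_add, ← pow_mul, mul_comm c5 2]
      rw [h4]
      field_simp
    have h5 : (t : ℝ) ^ 3 ≤ (1 / (t : ℝ) ^ c5) ^ 2 * m := by
      rw [← h3]
      exact mul_le_mul_of_nonneg_left hmR (by positivity)
    nlinarith [sq_nonneg (t : ℝ)]
  have h3 : (d : ℝ) * (2 * (2 * n + 1) ^ Λ * Real.exp (-((1 / (t : ℝ) ^ c5) ^ 2 * m / 4)) *
      2 ^ (n * m)) = (d * (2 * (2 * n + 1) ^ Λ)) *
        Real.exp (-((1 / (t : ℝ) ^ c5) ^ 2 * m / 4)) * 2 ^ (n * m) := by ring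
  rw [h3]
  have h4 : (d * (2 * (2 * (n : ℝ) + 1) ^ Λ)) *
      Real.exp (-((1 / (t : ℝ) ^ c5) ^ 2 * m / 4)) ≤ 1 := by
    calc (d * (2 * (2 * (n : ℝ) + 1) ^ Λ)) * Real.exp (-((1 / (t : ℝ) ^ c5) ^ 2 * m / 4))
        ≤ Real.exp ((A + 2) * (t : ℝ) ^ 2) * Real.exp (-((1 / (t : ℝ) ^ c5) ^ 2 * m / 4)) :=
          mul_le_mul_of_nonneg_right h1 (Real.exp_pos _).le
      _ = Real.exp ((A + 2) * (t : ℝ) ^ 2 + -((1 / (t : ℝ) ^ c5) ^ 2 * m / 4)) := by
          rw [Real.exp_add]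
      _ ≤ 1 := by
          rw [Real.exp_le_one_iff]
          linarith
  calc _ ≤ (1 : ℝ) * 2 ^ (n * m) := mul_le_mul_of_nonneg_right h4 (by positivity)
    _ = 2 ^ (n * m) := one_mul _

theorem sample_length {n m : ℕ} (F : Dnf) (x : Fin m → Fin n → Bool) :
    (sample F x).length = m := by
  simp [sample]

theorem dim_sample {n m : ℕ} (F : Dnf) (x : Fin m → Fin n → Bool) (hm : 0 < m) :
    dim (sample F x) = n := by
  obtain ⟨m, rfl⟩ := Nat.exists_eq_succ_of_ne_zero hm.ne'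
  simp [dim, sample, List.ofFn_succ]

theorem labelled_sample {n m : ℕ} (F : Dnf) (x : Fin m → Fin n → Bool) :
    Labelled n F (sample F x) := by
  intro z hz
  rw [sample, List.mem_ofFn] at hz
  obtain ⟨j, rfl⟩ := hz
  exact ⟨x j, rfl⟩

/-- The learner succeeds. -/
theorem main (hc : Core) (fp : FalsePos) (fn : FalseNeg) (rf : RepFail) (k : ℕ) :
    ∃ C s c1 c2 : ℕ, ∀ n e d : ℕ, 1 ≤ n → 1 ≤ e → 1 ≤ d → ∀ t m : ℕ, C * n * e * d ≤ t →
      t ^ C ≤ m → ∀ F : Dnf, Read k F →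
        d * (Finset.univ.filter fun x : Fin m → Fin n → Bool => 2 ^ n < e *
          (Finset.univ.filter fun y : Fin n → Bool =>
            dnfSat (learn s k (2 ^ s) c1 c2 (List.replicate t (), sample F x)) (List.ofFn y) ≠
              dnfSat F (List.ofFn y)).card).card ≤ 2 ^ (n * m) := by
  obtain ⟨s, C0, hcore⟩ := hc k
  set c1 := 2 * 2 ^ s + 2 * (s * 2 ^ s) + s + 2 with hc1
  set ca := c1 + 1 + 3 * C0 with hca
  set c2 := 6 + 12 * ca with hc2
  set c5 := 7 + 2 * ca + (2 * (s * 2 ^ s) + k + c2 + 2) + c1 with hc5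
  set A := s * 2 ^ s + c2 + s + k + 2 with hA
  refine ⟨(4 + k) + (2 * c5 + 3) + 4 * (A + 2), s, c1, c2, ?_⟩
  intro n e d hn he hd t m ht hm F hF
  set C := (4 + k) + (2 * c5 + 3) + 4 * (A + 2) with hC
  have hned : 1 ≤ n * e * d := Nat.mul_pos (Nat.mul_pos hn he) hd
  have t0 : C * (n * e * d) ≤ t := by
    calc C * (n * e * d) = C * n * e * d := by ring
      _ ≤ t := ht
  have t1 : C ≤ t := (Nat.le_mul_of_pos_right C hned).trans t0
  have t2 : 3 * n ≤ t := by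
    have h1 : n ≤ n * e * d := by
      rw [mul_assoc]
      exact Nat.le_mul_of_pos_right n (Nat.mul_pos he hd)
    have h2 : 3 ≤ C := by omega
    exact (Nat.mul_le_mul h2 h1).trans t0
  have t3 : (4 + k) * n * e ≤ t := by
    have h1 : n * e ≤ n * e * d := Nat.le_mul_of_pos_right _ hd
    have h2 : 4 + k ≤ C := by omega
    calc (4 + k) * n * e = (4 + k) * (n * e) := by ring
      _ ≤ C * (n * e * d) := Nat.mul_le_mul h2 h1
      _ ≤ t := t0
  have t4 : d ≤ t := by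
    have h1 : d ≤ n * e * d := Nat.le_mul_of_pos_left d (Nat.mul_pos hn he)
    have h2 : 1 ≤ C := by omega
    calc d = 1 * d := (one_mul d).symm
      _ ≤ C * (n * e * d) := Nat.mul_le_mul h2 h1
      _ ≤ t := t0
  have t5 : 2 ≤ t := by omega
  have hm0 : 0 < m := lt_of_lt_of_le (Nat.pow_pos (by omega)) hm
  have hmC : t ^ (2 * c5 + 3) ≤ m := (Nat.pow_le_pow_right (by omega) (by omega)).trans hm
  set Λ := A * t.bits.length with hΛ
  have hγ0 : (0 : ℝ) < 1 / (t : ℝ) ^ c5 := by positivity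
  have hγ1 : 1 / (t : ℝ) ^ c5 ≤ 1 := by
    rw [div_le_one (by positivity)]
    exact one_le_pow₀ (by exact_mod_cast (show 1 ≤ t by omega))
  have h1 := rf n m F (1 / (t : ℝ) ^ c5) Λ hγ0 hγ1 hm0
  have h2 : ((Finset.univ.filter fun x : Fin m → Fin n → Bool => 2 ^ n < e *
          (Finset.univ.filter fun y : Fin n → Bool =>
            dnfSat (learn s k (2 ^ s) c1 c2 (List.replicate t (), sample F x)) (List.ofFn y) ≠
              dnfSat F (List.ofFn y)).card).card : ℝ) ≤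
      (Nat.card {x : Fin m → Fin n → Bool // ¬ Rep n F (1 / (t : ℝ) ^ c5) Λ (sample F x)} : ℝ) := by
    classical
    rw [Nat.card_eq_fintype_card, Fintype.card_subtype]
    refine Nat.cast_le.2 (Finset.card_le_card ?_)
    intro x hx
    rw [Finset.mem_filter] at hx ⊢
    refine ⟨Finset.mem_univ _, fun hrep => ?_⟩
    have h3 := err_le hcore fp fn hn he t2 t3 hc1 hca hc2 hc5 (Λ := Λ) (by rw [hΛ, hA]) F hF
      (sample F x) (by rw [sample_length]; exact hm0) (labelled_sample F x) hrep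
    have h4 := hx.2
    unfold learn at h4
    simp only [List.length_replicate, dim_sample F x hm0] at h4
    omega
  have h5 := rep_prob (n := n) (m := m) (d := d) (c5 := c5) (by omega) t4 t5 hΛ hmC (by omega)
  have h6 : (d : ℝ) * ((Finset.univ.filter fun x : Fin m → Fin n → Bool => 2 ^ n < e *
          (Finset.univ.filter fun y : Fin n → Bool =>
            dnfSat (learn s k (2 ^ s) c1 c2 (List.replicate t (), sample F x)) (List.ofFn y) ≠
              dnfSat F (List.ofFn y)).card).card : ℝ) ≤ 2 ^ (n * m) :=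
    (mul_le_mul_of_nonneg_left (h2.trans h1) (by positivity)).trans h5
  exact_mod_cast h6

end Pool.Agent.N597.RK.Main
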