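import Pool.Agent.N597.RK.Props

/-!
# RK: the number of nodes at depth `d` (helper615)
-/

set_option autoImplicit false

namespace Pool.Agent.N597.RK

namespace Nod

open Finset

theorem aux (h1 : PathFacts) (h2 : IndepTerm) (R : Term → Bool) (s n d : ℕ) (x : Fin n → Bool) :
    2 ^ n ≤ (univ.filter fun y : Fin n → Bool =>
      path R s n (List.ofFn y) d = path R s n (List.ofFn x) d).card * 2 ^ (s * d) := by
  classical
  obtain ⟨f1, f2, f3, f4, f5⟩ := h1 R s n d x
  have h3 := h2 n (path R s n (List.ofFn x) d) f1 f2 univ (fun _ _ _ => by simp)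
  have h4 : (univ.filter fun y : Fin n → Bool =>
      termSat (List.ofFn y) (path R s n (List.ofFn x) d) = true) ⊆
      univ.filter fun y : Fin n → Bool =>
        path R s n (List.ofFn y) d = path R s n (List.ofFn x) d := by
    intro y hy
    rw [mem_filter] at hy ⊢
    exact ⟨mem_univ _, f5 y hy.2⟩
  have h5 : (univ : Finset (Fin n → Bool)).card = 2 ^ n := by
    rw [card_univ, Fintype.card_fun, Fintype.card_bool, Fintype.card_fin]
  rw [h5] at h3
  rw [← h3]
  exact Nat.mul_le_mul (card_le_card h4) (Nat.pow_le_pow_right (by norm_num) f3)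

end Nod

theorem nodeCount (h1 : PathFacts) (h2 : IndepTerm) : NodeCount := by
  classical
  intro R s n d
  have h5 : (Finset.univ : Finset (Fin n → Bool)).card = 2 ^ n := by
    rw [Finset.card_univ, Fintype.card_fun, Fintype.card_bool, Fintype.card_fin]
  have hsum := Finset.card_eq_sum_card_image
    (fun x : Fin n → Bool => path R s n (List.ofFn x) d) Finset.univ
  rw [h5] at hsum
  have h6 : (Finset.univ.image fun x : Fin n → Bool => path R s n (List.ofFn x) d).card * 2 ^ n ≤
      2 ^ (s * d) * 2 ^ n := by
    calc _ = ∑ ν ∈ Finset.univ.image fun x : Fin n → Bool => path R s n (List.ofFn x) d, 2 ^ n := by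
          rw [Finset.sum_const, smul_eq_mul]
      _ ≤ ∑ ν ∈ Finset.univ.image fun x : Fin n → Bool => path R s n (List.ofFn x) d,
          (Finset.univ.filter fun y : Fin n → Bool => path R s n (List.ofFn y) d = ν).card *
            2 ^ (s * d) := by
          apply Finset.sum_le_sum
          intro ν hν
          obtain ⟨x, -, rfl⟩ := Finset.mem_image.1 hν
          exact Nod.aux h1 h2 R s n d x
      _ = 2 ^ (s * d) * 2 ^ n := by
          rw [← Finset.sum_mul, ← hsum]
          ring
  exact Nat.le_of_mul_le_mul_right h6 (by positivity)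

end Pool.Agent.N597.RK
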