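import Pool.Agent.N597.RK.Props

/-!
# Changing one coordinate (helper152)
-/

set_option autoImplicit false

namespace Pool.Agent.N597.RK

namespace Pai

variable {n : ℕ}

lemma flip_same (x : Fin n → Bool) (v : Fin n) : flip x v v = !x v := by
  simp [flip]

lemma flip_ne (x : Fin n → Bool) {v j : Fin n} (h : j ≠ v) : flip x v j = x j := by
  simp [flip, h]

lemma flip_flip (x : Fin n → Bool) (v : Fin n) : flip (flip x v) v = x := by
  funext j
  by_cases h : j = v
  · subst h
    rw [flip_same, flip_same, Bool.not_not]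
  · rw [flip_ne _ h, flip_ne _ h]

lemma sat_flip {X : FT n} {v : Fin n} (h : v ∉ vars X) (x : Fin n → Bool) :
    Sat X (flip x v) ↔ Sat X x := by
  unfold Sat
  refine forall₂_congr fun l hl => ?_
  have h1 : l.1 ≠ v := by
    rintro rfl
    exact h (Finset.mem_image_of_mem _ hl)
  rw [flip_ne x h1]

lemma notMem_vars {T : FT n} {i : Fin n × Bool} (hc : Cons T) (hi : i ∈ T) :
    i.1 ∉ vars (T.erase i) := by
  intro h
  obtain ⟨l, hl, hli⟩ := Finset.mem_image.1 h
  obtain ⟨h1, h2⟩ := Finset.mem_erase.1 hl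
  apply hc i hi
  have h3 : l.2 ≠ i.2 := fun h3 => h1 (Prod.ext hli h3)
  have h4 : l = (i.1, !i.2) := by
    refine Prod.ext hli ?_
    show l.2 = !i.2
    rw [Bool.eq_not]
    exact h3
  rw [← h4]
  exact h2

lemma mem_Zer {G : Finset (FT n)} {x : Fin n → Bool} : x ∈ Zer G ↔ ∀ T ∈ G, ¬ Sat T x := by
  unfold Zer
  rw [Finset.mem_filter]
  simp

lemma key (G : Finset (FT n)) (T : FT n) (i : Fin n × Bool)
    (P : (Fin n → Bool) → Prop) [DecidablePred P] (hT : T ∈ G) (hc : Cons T) (hi : i ∈ T)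
    (hP : ∀ x, P x → P (flip x i.1))
    (hX : ∀ x, P x → ∀ X ∈ G, X ≠ T → i.1 ∈ vars X → ¬ Sat X x)
    (Q : (Fin n → Bool) → Prop) [DecidablePred Q] (hQ : ∀ x, Q x → Q (flip x i.1)) :
    ∃ M : ℕ, ∀ a : Bool, ((Zer G).filter fun x => P x ∧ x i.1 = a ∧ Q x).card =
      M + if a = i.2 then 0 else ((Zer G).filter fun x => (P x ∧ Sat (T.erase i) x) ∧ Q x).card := by
  obtain ⟨B, hB⟩ : ∃ B : Bool → Finset (Fin n → Bool), B = fun a =>
    ((Zer G).filter fun x => P x ∧ x i.1 = a ∧ Q x).filter fun x => ¬ Sat (T.erase i) x := ⟨_, rfl⟩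
  have hBm : ∀ a x, x ∈ B a ↔ (x ∈ Zer G ∧ P x ∧ x i.1 = a ∧ Q x) ∧ ¬ Sat (T.erase i) x := by
    intro a x
    rw [hB]
    simp only [Finset.mem_filter]
  have hBf : ∀ a x, x ∈ B a → flip x i.1 ∈ B (!a) := by
    intro a x hx
    rw [hBm] at hx ⊢
    obtain ⟨⟨h1, h2, h3, h4⟩, h5⟩ := hx
    have h6 : ¬ Sat (T.erase i) (flip x i.1) := by
      rw [sat_flip (notMem_vars hc hi)]
      exact h5
    refine ⟨⟨?_, hP x h2, ?_, hQ x h4⟩, h6⟩
    · rw [mem_Zer] at h1 ⊢
      intro X hXG
      by_cases hXT : X = T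
      · subst hXT
        intro h7
        exact h6 fun l hl => h7 l (Finset.mem_of_mem_erase hl)
      · by_cases hv : i.1 ∈ vars X
        · exact hX _ (hP x h2) X hXG hXT hv
        · rw [sat_flip hv]
          exact h1 X hXG
    · rw [flip_same, h3]
  have hBc : (B true).card = (B false).card := by
    refine Finset.card_nbij' (fun x => flip x i.1) (fun x => flip x i.1) ?_ ?_ ?_ ?_
    · intro x hx
      exact hBf true x hx
    · intro x hx
      exact hBf false x hx
    · intro x _
      exact flip_flip x i.1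
    · intro x _
      exact flip_flip x i.1
  have hBc' : ∀ a, (B a).card = (B true).card := by
    intro a
    cases a
    · exact hBc.symm
    · rfl
  refine ⟨(B true).card, fun a => ?_⟩
  rw [← Finset.card_filter_add_card_filter_not (s := (Zer G).filter fun x => P x ∧ x i.1 = a ∧ Q x)
    (fun x => Sat (T.erase i) x), add_comm]
  have h1 : (((Zer G).filter fun x => P x ∧ x i.1 = a ∧ Q x).filter
      fun x => ¬ Sat (T.erase i) x).card = (B true).card := by
    rw [← hBc' a, hB]
  rw [h1]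
  congr 1
  have hE : ∀ x ∈ Zer G, Sat (T.erase i) x → x i.1 ≠ i.2 := by
    intro x hx hs h
    rw [mem_Zer] at hx
    apply hx T hT
    intro l hl
    by_cases hli : l = i
    · rw [hli]
      exact h
    · exact hs l (Finset.mem_erase.2 ⟨hli, hl⟩)
  by_cases ha : a = i.2
  · rw [if_pos ha, Finset.card_eq_zero, Finset.filter_eq_empty_iff]
    intro x hx hs
    rw [Finset.mem_filter] at hx
    exact hE x hx.1 hs (hx.2.2.1.trans ha)
  · rw [if_neg ha]
    congr 1
    ext x
    simp only [Finset.mem_filter]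
    constructor
    · rintro ⟨⟨h2, h3, h4, h5⟩, h6⟩
      exact ⟨h2, ⟨h3, h6⟩, h5⟩
    · rintro ⟨h2, ⟨h3, h6⟩, h5⟩
      refine ⟨⟨h2, h3, ?_, h5⟩, h6⟩
      have h7 := hE x h2 h6
      revert h7 ha
      cases x i.1 <;> cases a <;> cases i.2 <;> simp

end Pai

open Pai in
theorem pairing : Pairing := by
  intro n G T i P _ hT hc hi hP hX
  refine ⟨?_, fun j hj => ?_⟩
  · obtain ⟨M, hM⟩ := key G T i P hT hc hi hP hX (fun _ => True) fun _ _ => trivial
    have h1 := hM true
    have h2 := hM false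
    simp only [and_true] at h1 h2
    rw [h1, h2]
    unfold dst
    cases i.2 <;> simp
  · obtain ⟨M1, h1⟩ := key G T i P hT hc hi hP hX (fun x => x j = true) fun x hx => by
      rw [flip_ne x hj]
      exact hx
    obtain ⟨M2, h2⟩ := key G T i P hT hc hi hP hX (fun x => x j = false) fun x hx => by
      rw [flip_ne x hj]
      exact hx
    rw [h1 true, h1 false, h2 true, h2 false]
    unfold dst
    cases i.2
    · simp only [reduceCtorEq, if_false, if_true]
      omega
    · simp only [reduceCtorEq, if_false, if_true]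
      omega

end Pool.Agent.N597.RK
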