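import Pool.Agent.N597.RK.Props

/-!
# The enumerations of the assignments and of the extensions of a node
-/

set_option autoImplicit false

namespace Pool.Agent.N597.RK

namespace Pat

lemma lits_length (n : ℕ) : (lits n).length = 2 * n := by
  unfold lits
  rw [List.length_flatMap]
  simp [mul_comm]

lemma mem_lits (n : ℕ) (l : Lit) : l ∈ lits n ↔ l.1 < n := by
  unfold lits
  simp only [List.mem_flatMap, List.mem_range, List.mem_cons, List.not_mem_nil, or_false]
  constructor
  · rintro ⟨i, hi, rfl | rfl⟩ <;> exact hi
  · intro h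
    refine ⟨l.1, h, ?_⟩
    rcases l with ⟨i, b⟩
    cases b <;> simp

lemma exts_length (n : ℕ) (ν : Term) (j : ℕ) :
    (exts (lits n) ν j).length ≤ (2 * n + 1) ^ j := by
  induction j with
  | zero => simp [exts]
  | succ j ih =>
    unfold exts
    rw [List.length_cons, List.length_flatMap]
    have h1 : ∀ L : List Term, (L.map fun p =>
        (((lits n).filter fun a => !((ν ++ p).any fun l => decide (l.1 = a.1))).map
          fun a => a :: p).length).sum ≤ L.length * (2 * n) := by
      intro L
      induction L with
      | nil => simp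
      | cons p L ihL =>
        rw [List.map_cons, List.sum_cons, List.length_cons]
        have h2 : (((lits n).filter fun a => !((ν ++ p).any fun l => decide (l.1 = a.1))).map
          fun a => a :: p).length ≤ 2 * n := by
          rw [List.length_map]
          exact (List.length_filter_le _ _).trans (lits_length n).le
        have h3 : (L.length + 1) * (2 * n) = 2 * n + L.length * (2 * n) := by ring
        rw [h3]
        exact add_le_add h2 ihL
    have h4 := h1 (exts (lits n) ν j)
    have h5 : (exts (lits n) ν j).length * (2 * n) ≤ (2 * n + 1) ^ j * (2 * n) :=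
      Nat.mul_le_mul_right _ ih
    have h6 : 1 ≤ (2 * n + 1) ^ j := Nat.one_le_pow _ _ (by omega)
    have h7 : (2 * n + 1) ^ (j + 1) = (2 * n + 1) ^ j * (2 * n) + (2 * n + 1) ^ j := by ring
    omega

lemma mem_exts (n : ℕ) (ν : Term) (j : ℕ) : ∀ p : Term, p ∈ exts (lits n) ν j ↔
    p.length ≤ j ∧ (p.map Prod.fst).Nodup ∧ ∀ l ∈ p, l.1 < n ∧ ∀ l' ∈ ν, l'.1 ≠ l.1 := by
  induction j with
  | zero =>
    intro p
    unfold exts
    rw [List.mem_singleton]
    constructor
    · rintro rfl
      simp
    · rintro ⟨h, -, -⟩
      exact List.length_eq_zero_iff.1 (Nat.le_zero.1 h)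
  | succ j ih =>
    intro p
    unfold exts
    rw [List.mem_cons, List.mem_flatMap]
    constructor
    · rintro (rfl | ⟨q, hq, hp⟩)
      · simp
      · rw [List.mem_map] at hp
        obtain ⟨a, ha, rfl⟩ := hp
        rw [List.mem_filter] at ha
        obtain ⟨ha1, ha2⟩ := ha
        obtain ⟨h1, h2, h3⟩ := (ih q).1 hq
        have ha3 : ∀ l ∈ ν ++ q, l.1 ≠ a.1 := by
          intro l hl he
          have h4 : ((ν ++ q).any fun l => decide (l.1 = a.1)) = true := by
            rw [List.any_eq_true]
            exact ⟨l, hl, by simpa using he⟩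
          rw [h4] at ha2
          simp at ha2
        refine ⟨by simpa using h1, ?_, ?_⟩
        · rw [List.map_cons, List.nodup_cons]
          refine ⟨?_, h2⟩
          intro hm
          obtain ⟨l, hl, he⟩ := List.mem_map.1 hm
          exact ha3 l (List.mem_append_right _ hl) he
        · intro l hl
          rcases List.mem_cons.1 hl with rfl | hl
          · exact ⟨(mem_lits n l).1 ha1, fun l' hl' => ha3 l' (List.mem_append_left _ hl')⟩
          · exact h3 l hl
    · rintro ⟨h1, h2, h3⟩
      cases p with
      | nil => exact Or.inl rfl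
      | cons a q =>
        refine Or.inr ⟨q, (ih q).2 ⟨by simpa using h1, ?_, fun l hl => h3 l (List.mem_cons_of_mem _ hl)⟩,
          ?_⟩
        · rw [List.map_cons, List.nodup_cons] at h2
          exact h2.2
        · rw [List.mem_map]
          refine ⟨a, ?_, rfl⟩
          rw [List.mem_filter]
          refine ⟨(mem_lits n a).2 (h3 a List.mem_cons_self).1, ?_⟩
          have h4 : ((ν ++ q).any fun l => decide (l.1 = a.1)) = false := by
            rw [List.any_eq_false]
            intro l hl
            rw [decide_eq_true_eq]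
            rcases List.mem_append.1 hl with hl | hl
            · exact (h3 a List.mem_cons_self).2 l hl
            · intro he
              rw [List.map_cons, List.nodup_cons] at h2
              exact h2.1 (List.mem_map.2 ⟨l, hl, he⟩)
          rw [h4]
          rfl

/-- The invariant of the enumeration. -/
def Inv (cap : ℕ) (L : List ℕ) (acc : List Term) : Prop :=
  (1 ≤ cap → acc.length ≤ cap) ∧ ∀ c ∈ acc, (∀ l ∈ c, l.1 ∈ L) ∧ acc.length = 2 ^ c.length

lemma step_length {cap : ℕ} {acc : List Term} (v : ℕ) (h : 2 * acc.length ≤ cap) :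
    (patStep cap acc v).length = 2 * acc.length := by
  unfold patStep
  rw [if_pos h, List.length_append, List.length_map, List.length_map]
  ring

lemma inv_step {cap : ℕ} {L : List ℕ} {acc : List Term} {v : ℕ} (hv : v ∈ L)
    (h : Inv cap L acc) : Inv cap L (patStep cap acc v) := by
  by_cases hc : 2 * acc.length ≤ cap
  · have hl := step_length v hc
    refine ⟨fun _ => hl ▸ hc, ?_⟩
    intro c hcm
    rw [hl]
    unfold patStep at hcm
    rw [if_pos hc, List.mem_append, List.mem_map, List.mem_map] at hcm
    rcases hcm with ⟨p, hp, rfl⟩ | ⟨p, hp, rfl⟩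
    · obtain ⟨h1, h2⟩ := h.2 p hp
      refine ⟨?_, ?_⟩
      · intro l hl
        rcases List.mem_cons.1 hl with rfl | hl
        · exact hv
        · exact h1 l hl
      · rw [List.length_cons, pow_succ, h2, mul_comm]
    · obtain ⟨h1, h2⟩ := h.2 p hp
      refine ⟨?_, ?_⟩
      · intro l hl
        rcases List.mem_cons.1 hl with rfl | hl
        · exact hv
        · exact h1 l hl
      · rw [List.length_cons, pow_succ, h2, mul_comm]
  · unfold patStep
    rw [if_neg hc]
    exact ⟨fun _ => Nat.zero_le _, fun c hc => absurd hc List.not_mem_nil⟩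

lemma inv_foldl {cap : ℕ} {L : List ℕ} : ∀ (J : List ℕ) (acc : List Term), (∀ v ∈ J, v ∈ L) →
    Inv cap L acc → Inv cap L (J.foldl (patStep cap) acc) := by
  intro J
  induction J with
  | nil => intro acc _ h; exact h
  | cons v J ih =>
    intro acc hJ h
    rw [List.foldl_cons]
    exact ih _ (fun w hw => hJ w (List.mem_cons_of_mem _ hw))
      (inv_step (hJ v List.mem_cons_self) h)

lemma foldl_mem {cap : ℕ} {x : List Bool} : ∀ (J : List ℕ) (acc : List Term),
    (∀ j ∈ J, j < x.length) → acc.length * 2 ^ J.length ≤ cap → ∀ c ∈ acc, termSat x c = true →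
    ∃ c' ∈ J.foldl (patStep cap) acc, termSat x c' = true ∧ (∀ j ∈ J, ∃ l ∈ c', l.1 = j) ∧
      ∀ l ∈ c, l ∈ c' := by
  intro J
  induction J with
  | nil =>
    intro acc _ _ c hc hs
    exact ⟨c, hc, hs, fun j hj => absurd hj List.not_mem_nil, fun l hl => hl⟩
  | cons v J ih =>
    intro acc hJ hcap c hc hs
    rw [List.length_cons, pow_succ] at hcap
    have h1 : 2 * acc.length ≤ cap := by
      have h2 : 1 ≤ 2 ^ J.length := Nat.one_le_two_pow
      nlinarith [Nat.zero_le acc.length]
    have hl := step_length (acc := acc) v h1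
    have hv : v < x.length := hJ v List.mem_cons_self
    have hm : ((v, x[v]) :: c) ∈ patStep cap acc v := by
      unfold patStep
      rw [if_pos h1, List.mem_append, List.mem_map, List.mem_map]
      cases hx : x[v] with
      | false => exact Or.inl ⟨c, hc, rfl⟩
      | true => exact Or.inr ⟨c, hc, rfl⟩
    have hs' : termSat x ((v, x[v]) :: c) = true := by
      unfold termSat at hs ⊢
      rw [List.all_cons, hs, Bool.and_true]
      unfold litSat
      rw [decide_eq_true_eq]
      exact List.getElem?_eq_getElem hv
    obtain ⟨c', hc', h3, h4, h5⟩ := ih (patStep cap acc v)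
      (fun j hj => hJ j (List.mem_cons_of_mem _ hj)) (by rw [hl]; nlinarith) _ hm hs'
    rw [List.foldl_cons]
    refine ⟨c', hc', h3, ?_, fun l hl => h5 l (List.mem_cons_of_mem _ hl)⟩
    intro j hj
    rcases List.mem_cons.1 hj with rfl | hj
    · exact ⟨_, h5 _ List.mem_cons_self, rfl⟩
    · exact h4 j hj

end Pat

/-- The enumeration of the assignments. -/
theorem patsFacts : PatsFacts := by
  intro cap J
  have h0 : Pat.Inv cap J (pats cap J) := by
    refine Pat.inv_foldl J [[]] (fun v hv => hv) ⟨fun h => h, ?_⟩
    intro c hc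
    rw [List.mem_singleton] at hc
    subst hc
    exact ⟨fun l hl => absurd hl List.not_mem_nil, rfl⟩
  refine ⟨h0.1, ?_, ?_⟩
  · intro c hc
    obtain ⟨h1, h2⟩ := h0.2 c hc
    exact ⟨h1, fun h => h2 ▸ h0.1 h⟩
  · intro x hx hcap
    obtain ⟨c, h1, h2, h3, -⟩ := Pat.foldl_mem (cap := cap) (x := x) J [[]] hx
      (by simpa using hcap) [] List.mem_cons_self rfl
    exact ⟨c, h1, h2, h3⟩

/-- The extensions of a node. -/
theorem extsFacts : ExtsFacts := fun n ν j => ⟨Pat.exts_length n ν j, Pat.mem_exts n ν j⟩

end Pool.Agent.N597.RK
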