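import Pool.Agent.N597.RK.Props

/-!
# The choice of a literal of a term (helper499)
-/

set_option autoImplicit false

namespace Pool.Agent.N597.RK

namespace Pic

theorem card_vars {n : ℕ} {X : FT n} (h : Cons X) : (vars X).card = X.card := by
  apply Finset.card_image_of_injOn
  rintro ⟨v, b⟩ h1 ⟨v', b'⟩ h2 h3
  have h4 : v = v' := h3
  subst h4
  by_cases hb : b = b'
  · rw [hb]
  · exfalso
    have h5 : b' = !b := by
      cases b <;> cases b' <;> simp_all
    subst h5
    exact h (v, b) h1 h2

theorem eq_of_fst {n : ℕ} {T : FT n} (h : Cons T) {i j : Fin n × Bool} (hi : i ∈ T) (hj : j ∈ T)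
    (hij : i.1 = j.1) : i = j := by
  obtain ⟨v, b⟩ := i
  obtain ⟨v', b'⟩ := j
  have h4 : v = v' := hij
  subst h4
  by_cases hb : b = b'
  · rw [hb]
  · exfalso
    have h5 : b' = !b := by
      cases b <;> cases b' <;> simp_all
    subst h5
    exact h (v, b) hi hj

end Pic

theorem pickLit : PickLit := by
  intro n k a s G hC hR hs hk T hT V hV y hy
  classical
  by_contra hcon
  push Not at hcon
  have hch : ∀ i : T, ∃ X ∈ G, X ≠ T ∧ vars X ⊆ V ∧ Sat X (flip y i.1.1) := fun i => hcon i.1 i.2
  choose f hf1 hf2 hf3 hf4 using hch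
  obtain ⟨B, hB⟩ : ∃ B : Finset (FT n), B = G.filter fun X => X ≠ T ∧ vars X ⊆ V := ⟨_, rfl⟩
  have hTB : T.card ≤ B.card := by
    rw [← Finset.card_attach]
    apply Finset.card_le_card_of_injOn f
    · intro i _
      rw [Finset.mem_coe, hB, Finset.mem_filter]
      exact ⟨hf1 i, hf2 i, hf3 i⟩
    · intro i _ j _ hij
      have h1 := hy (f i) (hf1 i) (hf2 i)
      unfold Sat at h1
      push Not at h1
      obtain ⟨l, hl, hl2⟩ := h1
      have key : ∀ v : Fin n, Sat (f i) (flip y v) → l.1 = v := by
        intro v hv
        by_contra h2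
        have h3 := hv l hl
        unfold flip at h3
        rw [Function.update_of_ne h2] at h3
        exact hl2 h3
      have h2 := key i.1.1 (hf4 i)
      have h3 := key j.1.1 (by rw [hij]; exact hf4 j)
      exact Subtype.ext (Pic.eq_of_fst (hC T hT) i.2 j.2 (h2.symm.trans h3))
  have hcount : (s + 1) * B.card ≤ s * T.card := by
    calc (s + 1) * B.card = ∑ X ∈ B, (s + 1) := by rw [Finset.sum_const, smul_eq_mul, mul_comm]
      _ ≤ ∑ X ∈ B, (vars X).card := by
          apply Finset.sum_le_sum
          intro X hX
          rw [hB, Finset.mem_filter] at hX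
          rw [Pic.card_vars (hC X hX.1)]
          exact hs X hX.1
      _ = ∑ X ∈ B, (V.filter fun v => v ∈ vars X).card := by
          apply Finset.sum_congr rfl
          intro X hX
          rw [hB, Finset.mem_filter] at hX
          congr 1
          ext v
          rw [Finset.mem_filter]
          exact ⟨fun h => ⟨hX.2.2 h, h⟩, fun h => h.2⟩
      _ = ∑ v ∈ V, (B.filter fun X => v ∈ vars X).card := by
          simp only [Finset.card_filter]
          exact Finset.sum_comm
      _ ≤ ∑ v ∈ V, k := by
          apply Finset.sum_le_sum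
          intro v _
          refine le_trans (Finset.card_le_card ?_) (hR v)
          apply Finset.filter_subset_filter
          rw [hB]
          exact Finset.filter_subset _ _
      _ = k * V.card := by rw [Finset.sum_const, smul_eq_mul, mul_comm]
      _ ≤ k * ((a + 1) * T.card) := Nat.mul_le_mul_left _ hV
      _ = (k * (a + 1)) * T.card := by ring
      _ ≤ s * T.card := Nat.mul_le_mul_right _ hk
  have hT0 := hs T hT
  nlinarith [Nat.mul_le_mul_left (s + 1) hTB]

end Pool.Agent.N597.RK
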