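import Pool.Agent.N597.RK.Props

/-!
# The nodes on a path
-/

set_option autoImplicit false

namespace Pool.Agent.N597.RK

namespace Pth

/-- the extension which is chosen at the node `ν` -/
def ch (R : Term → Bool) (s n : ℕ) (ν : Term) : Term :=
  ((exts (lits n) ν s).filter fun p => R (ν ++ p)).headD []

theorem step_eq (R : Term → Bool) (s n : ℕ) (x : List Bool) (ν : Term) :
    step R s n x ν = ν ++ restr x (ch R s n ν) := rfl

theorem ch_facts (h : ExtsFacts) (R : Term → Bool) (s n : ℕ) (ν : Term) :
    (ch R s n ν).length ≤ s ∧ ((ch R s n ν).map Prod.fst).Nodup ∧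
      ∀ l ∈ ch R s n ν, l.1 < n ∧ ∀ l' ∈ ν, l'.1 ≠ l.1 := by
  unfold ch
  rcases hc : (exts (lits n) ν s).filter fun p => R (ν ++ p) with _ | ⟨p, t⟩
  · simp
  · have h1 : p ∈ (exts (lits n) ν s).filter fun p => R (ν ++ p) := by
      rw [hc]
      exact List.mem_cons_self
    have h2 : p ∈ exts (lits n) ν s := List.mem_of_mem_filter h1
    exact ((h n ν s).2 p).1 h2

theorem path_succ (R : Term → Bool) (s n : ℕ) (x : List Bool) (d : ℕ) :
    path R s n x (d + 1) = path R s n x d ++ restr x (ch R s n (path R s n x d)) := by
  unfold path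
  rw [Function.iterate_succ_apply', step_eq]

theorem path_zero (R : Term → Bool) (s n : ℕ) (x : List Bool) : path R s n x 0 = [] := rfl

theorem restr_fst (x : List Bool) (p : Term) : (restr x p).map Prod.fst = p.map Prod.fst := by
  unfold restr
  rw [List.map_map]
  rfl

theorem restr_length (x : List Bool) (p : Term) : (restr x p).length = p.length := by
  unfold restr
  rw [List.length_map]

theorem mem_restr (x : List Bool) (p : Term) (l : Lit) (h : l ∈ restr x p) :
    ∃ l' ∈ p, l = (l'.1, (x[l'.1]?).getD false) := by
  unfold restr at h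
  rw [List.mem_map] at h
  obtain ⟨l', h1, h2⟩ := h
  exact ⟨l', h1, h2.symm⟩

theorem restr_sat {n : ℕ} (x : Fin n → Bool) (p : Term) (hp : ∀ l ∈ p, l.1 < n) :
    termSat (List.ofFn x) (restr (List.ofFn x) p) = true := by
  unfold termSat
  rw [List.all_eq_true]
  intro l hl
  obtain ⟨l', h1, rfl⟩ := mem_restr _ _ _ hl
  unfold litSat
  simp only [decide_eq_true_eq]
  have h2 : l'.1 < (List.ofFn x).length := by
    rw [List.length_ofFn]
    exact hp l' h1
  rw [List.getElem?_eq_getElem h2]
  rfl

theorem restr_eq (x y : List Bool) (p : Term) (h : termSat y (restr x p) = true) :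
    restr y p = restr x p := by
  unfold restr
  apply List.map_congr_left
  intro l hl
  unfold termSat at h
  rw [List.all_eq_true] at h
  have h1 := h (l.1, (x[l.1]?).getD false) (by
    unfold restr
    exact List.mem_map.2 ⟨l, hl, rfl⟩)
  unfold litSat at h1
  simp only [decide_eq_true_eq] at h1
  rw [h1]
  rfl

theorem sat_append (x : List Bool) (a b : Term) :
    termSat x (a ++ b) = true ↔ termSat x a = true ∧ termSat x b = true := by
  unfold termSat
  rw [List.all_append, Bool.and_eq_true]

end Pth

open Pth in
/-- The nodes on a path. -/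
theorem pathFacts (h : ExtsFacts) : PathFacts := by
  intro R s n d x
  induction d with
  | zero =>
    refine ⟨?_, ?_, ?_, ?_, ?_⟩
    · rw [path_zero]
      exact List.nodup_nil
    · intro l hl
      rw [path_zero] at hl
      exact absurd hl List.not_mem_nil
    · rw [path_zero]
      simp
    · rw [path_zero]
      rfl
    · intro y _
      rw [path_zero, path_zero]
  | succ d ih =>
    obtain ⟨i1, i2, i3, i4, i5⟩ := ih
    obtain ⟨c1, c2, c3⟩ := ch_facts h R s n (path R s n (List.ofFn x) d)
    refine ⟨?_, ?_, ?_, ?_, ?_⟩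
    · rw [path_succ, List.map_append, restr_fst]
      rw [List.nodup_append]
      refine ⟨i1, c2, ?_⟩
      intro a ha b hb hab
      obtain ⟨l', hl', rfl⟩ := List.mem_map.1 ha
      obtain ⟨l, hl, rfl⟩ := List.mem_map.1 hb
      exact (c3 l hl).2 l' hl' hab
    · intro l hl
      rw [path_succ, List.mem_append] at hl
      rcases hl with hl | hl
      · exact i2 l hl
      · obtain ⟨l', h1, rfl⟩ := mem_restr _ _ _ hl
        exact (c3 l' h1).1
    · rw [path_succ, List.length_append, restr_length]
      have : s * (d + 1) = s * d + s := by ring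
      omega
    · rw [path_succ, sat_append]
      exact ⟨i4, restr_sat x _ fun l hl => (c3 l hl).1⟩
    · intro y hy
      rw [path_succ, sat_append] at hy
      rw [path_succ, path_succ, i5 y hy.1, restr_eq _ _ _ hy.2]

end Pool.Agent.N597.RK
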