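import Pool.Agent.N597.RK.Props

/-!
# RAT: the test with the sample
-/

set_option autoImplicit false

namespace Pool.Agent.N597.RK

namespace Rat_

theorem litSat_iff {n : ℕ} (x : Fin n → Bool) (l : Lit) (h : l.1 < n) :
    litSat (List.ofFn x) l = true ↔ x ⟨l.1, h⟩ = l.2 := by
  unfold litSat
  rw [decide_eq_true_iff, List.getElem?_ofFn]
  simp [h]

theorem litSat_fin {n : ℕ} (x : Fin n → Bool) (j : Fin n) (b : Bool) :
    litSat (List.ofFn x) ((j : ℕ), b) = true ↔ x j = b :=
  litSat_iff x ((j : ℕ), b) j.2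

theorem termSat_cons (x : List Bool) (l : Lit) (c : Term) :
    termSat x (l :: c) = true ↔ litSat x l = true ∧ termSat x c = true := by
  unfold termSat
  simp

theorem termSat_iff (x : List Bool) (c : Term) :
    termSat x c = true ↔ ∀ l ∈ c, litSat x l = true := by
  unfold termSat
  simp

theorem dst_cast (a b : ℕ) : (dst a b : ℝ) = |(a : ℝ) - b| := by
  unfold dst
  rcases le_total a b with h | h
  · rw [Nat.sub_eq_zero_of_le h, zero_add, Nat.cast_sub h, abs_sub_comm,
      abs_of_nonneg (sub_nonneg.2 (Nat.cast_le.2 h))]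
  · rw [Nat.sub_eq_zero_of_le h, add_zero, Nat.cast_sub h,
      abs_of_nonneg (sub_nonneg.2 (Nat.cast_le.2 h))]

theorem dst_const {n : ℕ} (E : Finset (Fin n → Bool)) (j : Fin n) (b : Bool)
    (h : ∀ x ∈ E, x j = b) :
    dst (E.filter fun x => x j = true).card (E.filter fun x => x j = false).card = E.card := by
  cases b with
  | true =>
    have h1 : (E.filter fun x => x j = true) = E := Finset.filter_true_of_mem h
    have h2 : (E.filter fun x => x j = false) = ∅ :=
      Finset.filter_false_of_mem fun x hx => by simp [h x hx]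
    rw [h1, h2]
    simp [dst]
  | false =>
    have h1 : (E.filter fun x => x j = false) = E := Finset.filter_true_of_mem h
    have h2 : (E.filter fun x => x j = true) = ∅ :=
      Finset.filter_false_of_mem fun x hx => by simp [h x hx]
    rw [h1, h2]
    simp [dst]

theorem cnt_same (S : List Ex) (i : ℕ) (b : Bool) (c : Term) :
    cnt S ((i, b) :: (i, b) :: c) = cnt S ((i, b) :: c) := by
  unfold cnt
  congr 2
  funext z
  congr 1
  rw [Bool.eq_iff_iff]
  simp only [termSat_cons]
  tauto

theorem cnt_opp (S : List Ex) (i : ℕ) (b : Bool) (c : Term) :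
    cnt S ((i, b) :: (i, !b) :: c) = 0 := by
  unfold cnt
  rw [List.length_eq_zero_iff, List.filter_eq_nil_iff]
  intro z _
  rw [Bool.and_eq_true, termSat_cons, termSat_cons]
  rintro ⟨-, h1, h2, -⟩
  unfold litSat at h1 h2
  rw [decide_eq_true_iff] at h1 h2
  rw [h1] at h2
  cases b <;> simp at h2

/-- differences of distances -/
theorem dst_near {a b a' b' : ℕ} {u v a0 b0 ε : ℝ} (ha : |(a : ℝ) - u| ≤ ε) (hb : |(b : ℝ) - v| ≤ ε)
    (hu : u = a0 * a') (hv : v = a0 * b') (h0 : 0 ≤ a0) (hb0 : b0 = a0 * dst a' b') :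
    |(dst a b : ℝ) - b0| ≤ 2 * ε := by
  rw [hb0, dst_cast, dst_cast]
  have h1 : a0 * |(a' : ℝ) - b'| = |u - v| := by
    rw [hu, hv, ← mul_sub, abs_mul, abs_of_nonneg h0]
  rw [h1]
  calc |(|(a : ℝ) - b| - |u - v|)| ≤ |((a : ℝ) - b) - (u - v)| := abs_abs_sub_abs_le_abs_sub _ _
    _ = |((a : ℝ) - u) - (b - v)| := by ring_nf
    _ ≤ |(a : ℝ) - u| + |(b : ℝ) - v| := abs_sub _ _
    _ ≤ 2 * ε := by linarith

end Rat_

open Rat_ in
theorem ratioTest (hPair : Pairing) : RatioTest := by
  intro n Λ F S γ hRep hS c hc hcn G T i hT hCons hi hci hFG hX E hEdef hE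
  classical
  -- the property P
  have hP1 : ∀ x : Fin n → Bool, termSat (List.ofFn x) c = true →
      termSat (List.ofFn (flip x i.1)) c = true := by
    intro x hx
    rw [termSat_iff] at hx ⊢
    intro l hl
    have h1 := hx l hl
    rw [litSat_iff x l (hcn l hl)] at h1
    rw [litSat_iff _ l (hcn l hl), ← h1]
    unfold flip
    rw [Function.update_of_ne]
    intro h
    exact hci l hl (congrArg Fin.val h)
  obtain ⟨hp1, hp2⟩ := hPair n G T i (fun x => termSat (List.ofFn x) c = true) hT hCons hi hP1 hX
  have hγ : 0 ≤ γ := by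
    have h1 := hRep [] (by simp) (by simp)
    have h2 : (0 : ℝ) < S.length := by exact_mod_cast hS
    have h3 := (abs_nonneg _).trans h1
    by_contra h
    push Not at h
    nlinarith
  set m : ℝ := (S.length : ℝ) with hm
  have hm0 : 0 < m := by rw [hm]; exact_mod_cast hS
  set B : ℝ := (2 : ℝ) ^ n with hB
  have hB0 : 0 < B := by positivity
  -- counts with one literal
  have hnum1 : ∀ b : Bool, num n F ((((i.1 : Fin n) : ℕ), b) :: c) =
      ((Zer G).filter fun x => termSat (List.ofFn x) c = true ∧ x i.1 = b).card := by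
    intro b
    unfold num
    congr 1
    ext x
    simp only [Finset.mem_filter, Finset.mem_univ, true_and, termSat_cons, litSat_fin]
    constructor
    · rintro ⟨h1, h2, h3⟩
      exact ⟨(hFG x h3).1 h1, h3, h2⟩
    · rintro ⟨h1, h3, h2⟩
      exact ⟨(hFG x h3).2 h1, h2, h3⟩
  have hnum2 : ∀ (j : Fin n) (b b' : Bool),
      num n F ((((i.1 : Fin n) : ℕ), b) :: ((j : ℕ), b') :: c) =
      ((Zer G).filter fun x => termSat (List.ofFn x) c = true ∧ x i.1 = b ∧ x j = b').card := by
    intro j b b'
    unfold num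
    congr 1
    ext x
    simp only [Finset.mem_filter, Finset.mem_univ, true_and, termSat_cons, litSat_fin]
    constructor
    · rintro ⟨h1, h2, h4, h3⟩
      exact ⟨(hFG x h3).1 h1, h3, h2, h4⟩
    · rintro ⟨h1, h3, h2, h4⟩
      exact ⟨(hFG x h3).2 h1, h2, h4, h3⟩
  have hr1 : ∀ b : Bool, |(cnt S ((((i.1 : Fin n) : ℕ), b) :: c) : ℝ) -
      m / B * (((Zer G).filter fun x => termSat (List.ofFn x) c = true ∧ x i.1 = b).card : ℝ)| ≤
        γ * m := by
    intro b
    have h1 := hRep ((((i.1 : Fin n) : ℕ), b) :: c) (by simp only [List.length_cons]; omega) (by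
      intro l hl
      rcases List.mem_cons.1 hl with rfl | hl
      · exact i.1.2
      · exact hcn l hl)
    rw [hnum1 b] at h1
    convert h1 using 3
    ring
  have hr2 : ∀ (j : Fin n) (b b' : Bool), |(cnt S ((((i.1 : Fin n) : ℕ), b) :: ((j : ℕ), b') :: c) : ℝ) -
      m / B * (((Zer G).filter fun x => termSat (List.ofFn x) c = true ∧ x i.1 = b ∧
        x j = b').card : ℝ)| ≤ γ * m := by
    intro j b b'
    have h1 := hRep ((((i.1 : Fin n) : ℕ), b) :: ((j : ℕ), b') :: c)
      (by simp only [List.length_cons]; omega) (by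
      intro l hl
      rcases List.mem_cons.1 hl with rfl | hl
      · exact i.1.2
      rcases List.mem_cons.1 hl with rfl | hl
      · exact j.2
      · exact hcn l hl)
    rw [hnum2 j b b'] at h1
    convert h1 using 3
    ring
  set q1 : ℕ := dst (cnt S ((((i.1 : Fin n) : ℕ), true) :: c))
    (cnt S ((((i.1 : Fin n) : ℕ), false) :: c)) with hq1
  have hmB : 0 ≤ m / B := by positivity
  have hE1 : |(q1 : ℝ) - m / B * E.card| ≤ 2 * (γ * m) := by
    refine dst_near (hr1 true) (hr1 false) rfl rfl hmB ?_
    rw [hp1, hEdef]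
  have hE2 : ∀ j : Fin n, j ≠ i.1 →
      |(dst (cnt S ((((i.1 : Fin n) : ℕ), true) :: ((j : ℕ), true) :: c) +
        cnt S ((((i.1 : Fin n) : ℕ), false) :: ((j : ℕ), false) :: c))
      (cnt S ((((i.1 : Fin n) : ℕ), true) :: ((j : ℕ), false) :: c) +
        cnt S ((((i.1 : Fin n) : ℕ), false) :: ((j : ℕ), true) :: c)) : ℝ) -
      m / B * dst (E.filter fun x => x j = true).card (E.filter fun x => x j = false).card| ≤
        2 * (2 * (γ * m)) := by
    intro j hj
    have h2 := hp2 j hj
    have h3 : ∀ b : Bool, ((Zer G).filter fun x => (termSat (List.ofFn x) c = true ∧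
        Sat (T.erase i) x) ∧ x j = b) = E.filter fun x => x j = b := by
      intro b
      rw [hEdef, Finset.filter_filter]
    rw [h3, h3] at h2
    have e1 := hr2 j true true
    have e2 := hr2 j false false
    have e3 := hr2 j true false
    have e4 := hr2 j false true
    refine dst_near (u := m / B * (((Zer G).filter fun x => termSat (List.ofFn x) c = true ∧
        x i.1 = true ∧ x j = true).card + ((Zer G).filter fun x => termSat (List.ofFn x) c = true ∧
        x i.1 = false ∧ x j = false).card : ℕ)) (v := m / B * (((Zer G).filter fun x =>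
        termSat (List.ofFn x) c = true ∧
        x i.1 = true ∧ x j = false).card + ((Zer G).filter fun x => termSat (List.ofFn x) c = true ∧
        x i.1 = false ∧ x j = true).card : ℕ)) ?_ ?_ rfl rfl hmB ?_
    · push_cast
      rw [abs_le] at e1 e2 ⊢
      constructor <;> linarith [e1.1, e1.2, e2.1, e2.2]
    · push_cast
      rw [abs_le] at e3 e4 ⊢
      constructor <;> linarith [e3.1, e3.2, e4.1, e4.2]
    · rw [h2]
  have hEm : 100 * (γ * m) ≤ m / B * E.card := by
    have h1 : m / B * (100 * γ * B) ≤ m / B * E.card := mul_le_mul_of_nonneg_left hE hmB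
    have h2 : m / B * (100 * γ * B) = 100 * (γ * m) := by
      field_simp
    linarith
  have hγm : 0 ≤ γ * m := by positivity
  refine ⟨?_, ?_⟩
  · intro j hj
    unfold test
    rw [decide_eq_true_iff]
    by_cases hji : j = i.1
    · subst hji
      have a1 := cnt_same S (i.1 : ℕ) true c
      have a2 := cnt_same S (i.1 : ℕ) false c
      have a3 := cnt_opp S (i.1 : ℕ) true c
      have a4 := cnt_opp S (i.1 : ℕ) false c
      simp only [Bool.not_true, Bool.not_false] at a3 a4
      rw [a1, a2, a3, a4]
      unfold dst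
      omega
    · have hconst : ∃ b, ∀ x ∈ E, x j = b := by
        rcases hj with hj | ⟨l, hl, hlj⟩
        · obtain ⟨l, hl, hlj⟩ := Finset.mem_image.1 hj
          refine ⟨l.2, fun x hx => ?_⟩
          rw [hEdef, Finset.mem_filter] at hx
          have h1 := hx.2.2 l (Finset.mem_erase.2 ⟨fun h => hji (by rw [← hlj, h]), hl⟩)
          rw [← hlj]
          exact h1
        · refine ⟨l.2, fun x hx => ?_⟩
          rw [hEdef, Finset.mem_filter] at hx
          have h1 := (termSat_iff _ _).1 hx.2.1 l hl
          rw [litSat_iff x l (hcn l hl)] at h1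
          have h2 : (⟨l.1, hcn l hl⟩ : Fin n) = j := Fin.ext hlj
          rw [← h2]
          exact h1
      obtain ⟨b, hb⟩ := hconst
      have h1 := hE2 j hji
      rw [dst_const E j b hb] at h1
      have h3 := abs_le.1 h1
      have h4 := abs_le.1 hE1
      have h5 : (7 * q1 : ℝ) ≤ 8 * (dst (cnt S ((((i.1 : Fin n) : ℕ), true) :: ((j : ℕ), true) :: c) +
        cnt S ((((i.1 : Fin n) : ℕ), false) :: ((j : ℕ), false) :: c))
      (cnt S ((((i.1 : Fin n) : ℕ), true) :: ((j : ℕ), false) :: c) +
        cnt S ((((i.1 : Fin n) : ℕ), false) :: ((j : ℕ), true) :: c)) : ℝ) := by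
        linarith [h3.1, h3.2, h4.1, h4.2]
      exact_mod_cast h5
  · intro j hj
    unfold test at hj
    rw [decide_eq_true_iff] at hj
    by_cases hji : j = i.1
    · have hconst : ∀ x ∈ E, x j = !i.2 := by
        intro x hx
        rw [hEdef, Finset.mem_filter] at hx
        have h1 : ¬ Sat T x := (Finset.mem_filter.1 hx.1).2 T hT
        have h2 : x i.1 ≠ i.2 := by
          intro h
          apply h1
          intro l hl
          by_cases hli : l = i
          · rw [hli]; exact h
          · exact hx.2.2 l (Finset.mem_erase.2 ⟨hli, hl⟩)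
        rw [hji]
        cases hb : i.2 <;> cases hx' : x i.1 <;> simp_all
      rw [dst_const E j _ hconst]
      omega
    · have h1 := hE2 j hji
      have h3 := abs_le.1 h1
      have h4 := abs_le.1 hE1
      have h5 : (7 * q1 : ℝ) ≤ 8 * (dst (cnt S ((((i.1 : Fin n) : ℕ), true) :: ((j : ℕ), true) :: c) +
        cnt S ((((i.1 : Fin n) : ℕ), false) :: ((j : ℕ), false) :: c))
      (cnt S ((((i.1 : Fin n) : ℕ), true) :: ((j : ℕ), false) :: c) +
        cnt S ((((i.1 : Fin n) : ℕ), false) :: ((j : ℕ), true) :: c)) : ℝ) := by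
        exact_mod_cast hj
      have h6 : m / B * (3 * E.card) ≤ m / B * (4 * (dst (E.filter fun x => x j = true).card
          (E.filter fun x => x j = false).card : ℝ)) := by
        linarith [h3.1, h3.2, h4.1, h4.2]
      have h7 : (3 * E.card : ℝ) ≤ 4 * (dst (E.filter fun x => x j = true).card
          (E.filter fun x => x j = false).card : ℝ) :=
        le_of_mul_le_mul_left h6 (by positivity)
      exact_mod_cast h7

end Pool.Agent.N597.RK

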