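import Pool.Agent.N597.RK.Props

/-!
# Most samples are representative
-/

set_option autoImplicit false

namespace Pool.Agent.N597.RK

namespace RepF

theorem length_filter_ofFn {α : Type} (P : α → Bool) : ∀ (m : ℕ) (f : Fin m → α),
    ((List.ofFn f).filter P).length = ∑ j, if P (f j) = true then 1 else 0 := by
  intro m
  induction m with
  | zero => intro f; simp
  | succ m ih =>
    intro f
    rw [List.ofFn_succ, Fin.sum_univ_succ, List.filter_cons]
    by_cases h : P (f 0) = true
    · rw [if_pos h, if_pos h, List.length_cons, ih (fun i => f i.succ)]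
      ring
    · rw [if_neg h, if_neg h, ih (fun i => f i.succ)]
      ring

/-- moment generating function of a centred indicator -/
theorem mgf {Ω : Type} [Fintype Ω] [Nonempty Ω] (A : Ω → Prop) [DecidablePred A] (lam : ℝ)
    (hl : |lam| ≤ 1) :
    ∑ w : Ω, Real.exp (lam * ((if A w then (1 : ℝ) else 0) -
      ((Finset.univ.filter A).card : ℝ) / Fintype.card Ω)) ≤ Fintype.card Ω * Real.exp (lam ^ 2) := by
  classical
  set N : ℝ := (Fintype.card Ω : ℝ) with hN
  have hNpos : 0 < N := by rw [hN]; exact_mod_cast Fintype.card_pos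
  set p : ℝ := ((Finset.univ.filter A).card : ℝ) / N with hp
  have hp0 : 0 ≤ p := by positivity
  have hp1 : p ≤ 1 := by
    rw [hp, div_le_one hNpos, hN]
    exact_mod_cast Finset.card_le_univ _
  have h1 : ∀ w : Ω, Real.exp (lam * ((if A w then (1 : ℝ) else 0) - p)) ≤
      1 + lam * ((if A w then (1 : ℝ) else 0) - p) + lam ^ 2 := by
    intro w
    set z : ℝ := (if A w then (1 : ℝ) else 0) - p with hz
    have hz1 : |z| ≤ 1 := by
      rw [hz, abs_le]
      split_ifs <;> constructor <;> linarith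
    have h2 : |lam * z| ≤ 1 := by
      rw [abs_mul]
      calc |lam| * |z| ≤ 1 * 1 := mul_le_mul hl hz1 (abs_nonneg _) zero_le_one
        _ = 1 := one_mul 1
    have h3 := Real.abs_exp_sub_one_sub_id_le h2
    have h4 := (abs_le.mp h3).2
    have h5 : (lam * z) ^ 2 ≤ lam ^ 2 := by
      rw [mul_pow]
      have : z ^ 2 ≤ 1 := by
        have := sq_le_sq' (abs_le.mp hz1).1 (abs_le.mp hz1).2
        simpa using this
      nlinarith [sq_nonneg lam]
    linarith
  have h2 : ∑ w : Ω, ((if A w then (1 : ℝ) else 0) - p) = 0 := by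
    rw [Finset.sum_sub_distrib, Finset.sum_const, Finset.card_univ, nsmul_eq_mul,
      Finset.sum_boole]
    rw [← hN, hp]
    field_simp
    ring
  calc ∑ w : Ω, Real.exp (lam * ((if A w then (1 : ℝ) else 0) - p))
      ≤ ∑ w : Ω, (1 + lam * ((if A w then (1 : ℝ) else 0) - p) + lam ^ 2) :=
        Finset.sum_le_sum fun w _ => h1 w
    _ = N * (1 + lam ^ 2) := by
        rw [Finset.sum_add_distrib, Finset.sum_add_distrib, ← Finset.mul_sum, h2]
        simp only [Finset.sum_const, Finset.card_univ, nsmul_eq_mul]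
        rw [← hN]
        ring
    _ ≤ N * Real.exp (lam ^ 2) := by
        refine mul_le_mul_of_nonneg_left ?_ hNpos.le
        have := Real.add_one_le_exp (lam ^ 2)
        linarith

theorem mgf_pow {Ω : Type} [Fintype Ω] [Nonempty Ω] (A : Ω → Prop) [DecidablePred A] (lam : ℝ)
    (hl : |lam| ≤ 1) (m : ℕ) :
    ∑ x : Fin m → Ω, Real.exp (lam * ((∑ j, if A (x j) then (1 : ℝ) else 0) -
      m * (((Finset.univ.filter A).card : ℝ) / Fintype.card Ω))) ≤
      (Fintype.card Ω : ℝ) ^ m * Real.exp (m * lam ^ 2) := by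
  classical
  have h1 := mgf A lam hl
  have h2 : ∀ x : Fin m → Ω, Real.exp (lam * ((∑ j, if A (x j) then (1 : ℝ) else 0) -
      m * (((Finset.univ.filter A).card : ℝ) / Fintype.card Ω))) =
      ∏ j, Real.exp (lam * ((if A (x j) then (1 : ℝ) else 0) -
      ((Finset.univ.filter A).card : ℝ) / Fintype.card Ω)) := by
    intro x
    rw [← Real.exp_sum]
    congr 1
    rw [← Finset.mul_sum, Finset.sum_sub_distrib]
    simp
  have h4 := Fintype.sum_pow (fun w : Ω => Real.exp (lam * ((if A w then (1 : ℝ) else 0) -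
      ((Finset.univ.filter A).card : ℝ) / Fintype.card Ω))) m
  rw [Finset.sum_congr rfl fun x _ => h2 x]
  refine (le_of_eq h4.symm).trans ?_
  have h3 : Real.exp (m * lam ^ 2) = Real.exp (lam ^ 2) ^ m := by
    rw [← Real.exp_nat_mul]
  rw [h3, ← mul_pow]
  exact pow_le_pow_left₀ (Finset.sum_nonneg fun w _ => (Real.exp_pos _).le) h1 m

theorem chernoff {Ω : Type} [Fintype Ω] [Nonempty Ω] (A : Ω → Prop) [DecidablePred A] (γ : ℝ)
    (hγ : 0 < γ) (hγ1 : γ ≤ 1) (m : ℕ) :
    ((Finset.univ.filter fun x : Fin m → Ω => γ * m < |(∑ j, if A (x j) then (1 : ℝ) else 0) -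
      m * (((Finset.univ.filter A).card : ℝ) / Fintype.card Ω)|).card : ℝ) ≤
      2 * (Real.exp (-(γ ^ 2 * m / 4)) * (Fintype.card Ω : ℝ) ^ m) := by
  classical
  set Y : (Fin m → Ω) → ℝ := fun x => (∑ j, if A (x j) then (1 : ℝ) else 0) -
      m * (((Finset.univ.filter A).card : ℝ) / Fintype.card Ω) with hY
  -- one side
  have side : ∀ lam : ℝ, lam = γ / 2 ∨ lam = -(γ / 2) →
      ((Finset.univ.filter fun x : Fin m → Ω => γ ^ 2 / 2 * m < lam * Y x).card : ℝ) ≤
        Real.exp (-(γ ^ 2 * m / 4)) * (Fintype.card Ω : ℝ) ^ m := by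
    intro lam hlam
    have hl : |lam| ≤ 1 := by
      rcases hlam with h | h <;> rw [h, abs_le] <;> constructor <;> linarith
    have hl2 : lam ^ 2 = γ ^ 2 / 4 := by
      rcases hlam with h | h <;> rw [h] <;> ring
    have h1 := mgf_pow A lam hl m
    have h2 : ((Finset.univ.filter fun x : Fin m → Ω => γ ^ 2 / 2 * m < lam * Y x).card : ℝ) *
        Real.exp (γ ^ 2 / 2 * m) ≤ ∑ x : Fin m → Ω, Real.exp (lam * Y x) := by
      rw [← nsmul_eq_mul, ← Finset.sum_const]
      refine le_trans (Finset.sum_le_sum (g := fun x => Real.exp (lam * Y x)) fun x hx => ?_) ?_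
      · rw [Finset.mem_filter] at hx
        exact Real.exp_le_exp.mpr hx.2.le
      · exact Finset.sum_le_sum_of_subset_of_nonneg (Finset.filter_subset _ _)
          fun x _ _ => (Real.exp_pos _).le
    have h3 := h2.trans h1
    rw [hl2] at h3
    have h4 : Real.exp (m * (γ ^ 2 / 4)) =
        Real.exp (-(γ ^ 2 * m / 4)) * Real.exp (γ ^ 2 / 2 * m) := by
      rw [← Real.exp_add]
      congr 1
      ring
    rw [h4] at h3
    have h5 : (0 : ℝ) < Real.exp (γ ^ 2 / 2 * m) := Real.exp_pos _
    have h6 : ((Finset.univ.filter fun x : Fin m → Ω => γ ^ 2 / 2 * m < lam * Y x).card : ℝ) *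
        Real.exp (γ ^ 2 / 2 * m) ≤ (Real.exp (-(γ ^ 2 * m / 4)) * (Fintype.card Ω : ℝ) ^ m) *
        Real.exp (γ ^ 2 / 2 * m) := by
      refine h3.trans (le_of_eq ?_)
      ring
    exact le_of_mul_le_mul_right h6 h5
  have hsub : (Finset.univ.filter fun x : Fin m → Ω => γ * m < |Y x|) ⊆
      (Finset.univ.filter fun x : Fin m → Ω => γ ^ 2 / 2 * m < (γ / 2) * Y x) ∪
      (Finset.univ.filter fun x : Fin m → Ω => γ ^ 2 / 2 * m < (-(γ / 2)) * Y x) := by
    intro x hx
    rw [Finset.mem_filter] at hx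
    rw [Finset.mem_union, Finset.mem_filter, Finset.mem_filter]
    rcases lt_abs.mp hx.2 with h | h
    · left
      refine ⟨Finset.mem_univ _, ?_⟩
      have := mul_lt_mul_of_pos_left h (half_pos hγ)
      calc γ ^ 2 / 2 * m = γ / 2 * (γ * m) := by ring
        _ < _ := this
    · right
      refine ⟨Finset.mem_univ _, ?_⟩
      have := mul_lt_mul_of_pos_left h (half_pos hγ)
      calc γ ^ 2 / 2 * m = γ / 2 * (γ * m) := by ring
        _ < γ / 2 * (-Y x) := this
        _ = _ := by ring
  have h1 := (Finset.card_le_card hsub).trans (Finset.card_union_le _ _)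
  have h2 : ((Finset.univ.filter fun x : Fin m → Ω => γ * m < |Y x|).card : ℝ) ≤
      ((Finset.univ.filter fun x : Fin m → Ω => γ ^ 2 / 2 * m < (γ / 2) * Y x).card : ℝ) +
      ((Finset.univ.filter fun x : Fin m → Ω => γ ^ 2 / 2 * m < (-(γ / 2)) * Y x).card : ℝ) := by
    exact_mod_cast h1
  have h3 := side (γ / 2) (Or.inl rfl)
  have h4 := side (-(γ / 2)) (Or.inr rfl)
  linarith

/-- all terms of bounded length -/
def L (n : ℕ) : ℕ → List Term
  | 0 => [[]]
  | j + 1 => [] :: (lits n).flatMap fun l => (L n j).map fun c => l :: c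

theorem length_lits (n : ℕ) : (lits n).length = 2 * n := by
  unfold lits
  rw [List.length_flatMap]
  simp [mul_comm]

theorem length_L (n : ℕ) : ∀ j, (L n j).length ≤ (2 * n + 1) ^ j := by
  intro j
  induction j with
  | zero => simp [L]
  | succ j ih =>
    rw [L, List.length_cons, List.length_flatMap]
    simp only [List.length_map]
    rw [List.map_const', List.sum_replicate, length_lits, smul_eq_mul, pow_succ]
    have h1 : 1 ≤ (2 * n + 1) ^ j := Nat.one_le_pow _ _ (by omega)
    have h2 : 2 * n * (L n j).length ≤ 2 * n * (2 * n + 1) ^ j := Nat.mul_le_mul_left _ ih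
    calc 2 * n * (L n j).length + 1 ≤ 2 * n * (2 * n + 1) ^ j + (2 * n + 1) ^ j := by omega
      _ = _ := by ring

theorem mem_lits (n : ℕ) (l : Lit) (h : l.1 < n) : l ∈ lits n := by
  unfold lits
  rw [List.mem_flatMap]
  refine ⟨l.1, List.mem_range.mpr h, ?_⟩
  obtain ⟨i, b⟩ := l
  cases b <;> simp

theorem mem_L (n : ℕ) : ∀ (j : ℕ) (c : Term), c.length ≤ j → (∀ l ∈ c, l.1 < n) → c ∈ L n j := by
  intro j
  induction j with
  | zero =>
    intro c hc _
    have : c = [] := List.length_eq_zero_iff.mp (by omega)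
    subst this
    simp [L]
  | succ j ih =>
    intro c hc hv
    cases c with
    | nil => simp [L]
    | cons l c =>
      rw [L, List.mem_cons]
      right
      rw [List.mem_flatMap]
      refine ⟨l, mem_lits n l (hv l (by simp)), ?_⟩
      rw [List.mem_map]
      refine ⟨c, ih c ?_ ?_, rfl⟩
      · simp at hc; exact hc
      · intro l' hl'
        exact hv l' (by simp [hl'])

end RepF

open RepF in
theorem repFail : RepFail := by
  intro n m F γ Λ hγ hγ1 _
  classical
  set A : Term → (Fin n → Bool) → Prop := fun c x =>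
    dnfSat F (List.ofFn x) = false ∧ termSat (List.ofFn x) c = true with hA
  have hlen : ∀ x : Fin m → Fin n → Bool, (sample F x).length = m := by
    intro x; simp [sample]
  have hcnt : ∀ (x : Fin m → Fin n → Bool) (c : Term),
      ((cnt (sample F x) c : ℕ) : ℝ) = ∑ j, if A c (x j) then (1 : ℝ) else 0 := by
    intro x c
    unfold cnt sample
    rw [length_filter_ofFn]
    push_cast
    refine Finset.sum_congr rfl fun j _ => ?_
    simp only [hA]
    congr 1
    simp
  have hcardΩ : (Fintype.card (Fin n → Bool) : ℝ) = 2 ^ n := by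
    simp
  set bad : Term → Finset (Fin m → Fin n → Bool) := fun c =>
    Finset.univ.filter fun x => γ * m < |(∑ j, if A c (x j) then (1 : ℝ) else 0) -
      m * (((Finset.univ.filter (A c)).card : ℝ) / Fintype.card (Fin n → Bool))| with hbad
  have hb : ∀ c, ((bad c).card : ℝ) ≤ 2 * (Real.exp (-(γ ^ 2 * m / 4)) * 2 ^ (n * m)) := by
    intro c
    have h1 := chernoff (A c) γ hγ hγ1 m
    rw [hcardΩ, ← pow_mul] at h1
    rw [hbad]
    simp only [hcardΩ]
    exact h1
  have hsub : (Finset.univ.filter fun x : Fin m → Fin n → Bool => ¬ Rep n F γ Λ (sample F x)) ⊆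
      (L n Λ).toFinset.biUnion bad := by
    intro x hx
    rw [Finset.mem_filter] at hx
    have h1 := hx.2
    unfold Rep at h1
    push Not at h1
    obtain ⟨c, hc1, hc2, hc3⟩ := h1
    rw [Finset.mem_biUnion]
    refine ⟨c, List.mem_toFinset.mpr (mem_L n Λ c hc1 hc2), ?_⟩
    rw [hbad, Finset.mem_filter]
    refine ⟨Finset.mem_univ _, ?_⟩
    rw [hlen, hcnt] at hc3
    rw [hcardΩ]
    exact hc3
  rw [Nat.card_eq_fintype_card, Fintype.card_subtype]
  have h1 := (Finset.card_le_card hsub).trans Finset.card_biUnion_le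
  have h2 : ((Finset.univ.filter fun x : Fin m → Fin n → Bool =>
      ¬ Rep n F γ Λ (sample F x)).card : ℝ) ≤ ∑ c ∈ (L n Λ).toFinset, ((bad c).card : ℝ) := by
    exact_mod_cast h1
  refine h2.trans ((Finset.sum_le_sum fun c _ => hb c).trans ?_)
  rw [Finset.sum_const, nsmul_eq_mul]
  have h3 : (((L n Λ).toFinset.card : ℕ) : ℝ) ≤ (2 * n + 1) ^ Λ := by
    exact_mod_cast (List.toFinset_card_le _).trans (length_L n Λ)
  calc (((L n Λ).toFinset.card : ℕ) : ℝ) * (2 * (Real.exp (-(γ ^ 2 * m / 4)) * 2 ^ (n * m)))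
      ≤ (2 * n + 1) ^ Λ * (2 * (Real.exp (-(γ ^ 2 * m / 4)) * 2 ^ (n * m))) :=
        mul_le_mul_of_nonneg_right h3 (by positivity)
    _ = _ := by ring

end Pool.Agent.N597.RK
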