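import Pool.Agent.N597.RK.Defs
import Pool.Agent.N587.DL.TM
import Pool.Agent.NPC.Dec

/-!
# The learner is computed in polynomial time by a Turing machine (helper897)
-/

set_option autoImplicit false

namespace Pool.Agent.N597.RK

namespace Time

open Pool.Agent.NPC
open Pool.Agent.N587.DL (headD_eq)

section

variable {α β : Type} [TEnc α] [TEnc β]

theorem poly_litSat {x : α → List Bool} {l : α → Lit} (hx : NPC.Poly x) (hl : NPC.Poly l) :
    NPC.Poly (fun a => litSat (x a) (l a)) :=
  NPC.Poly.decide_eq (NPC.Poly.getElem? hx (NPC.Poly.fst hl)) (NPC.Poly.some (NPC.Poly.snd hl))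

theorem poly_termSat {x : α → List Bool} {t : α → Term} (hx : NPC.Poly x) (ht : NPC.Poly t) :
    NPC.Poly (fun a => termSat (x a) (t a)) :=
  NPC.Poly.all (p := fun a l => litSat (x a) l) ht
    (poly_litSat (hx.comp (NPC.Poly.fst NPC.Poly.id)) (NPC.Poly.snd NPC.Poly.id))

theorem poly_cnt {S : α → List Ex} {c : α → Term} (hS : NPC.Poly S) (hc : NPC.Poly c) :
    NPC.Poly (fun a => cnt (S a) (c a)) :=
  NPC.Poly.length (NPC.Poly.filter (p := fun a (z : Ex) => !z.2 && termSat z.1 (c a)) hS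
    (NPC.Poly.and (NPC.Poly.not (NPC.Poly.snd (NPC.Poly.snd NPC.Poly.id)))
      (poly_termSat (NPC.Poly.fst (NPC.Poly.snd NPC.Poly.id)) (hc.comp (NPC.Poly.fst NPC.Poly.id)))))

theorem poly_lits {l : α → List β} (hl : NPC.Poly l) : NPC.Poly (fun a => lits (l a).length) := by
  unfold lits
  refine NPC.Poly.flatMap (F := fun _ i => [(i, false), (i, true)]) (NPC.Poly.range_length hl) ?_
  exact NPC.Poly.cons (NPC.Poly.pair (NPC.Poly.snd NPC.Poly.id) (NPC.Poly.const false))
    (NPC.Poly.cons (NPC.Poly.pair (NPC.Poly.snd NPC.Poly.id) (NPC.Poly.const true)) (NPC.Poly.const []))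

theorem poly_exts {A ν : α → Term} (hA : NPC.Poly A) (hν : NPC.Poly ν) : ∀ j : ℕ,
    NPC.Poly (fun a => exts (A a) (ν a) j)
  | 0 => NPC.Poly.const _
  | j + 1 => by
    have ih := poly_exts hA hν j
    unfold exts
    refine NPC.Poly.cons (NPC.Poly.const []) ?_
    refine NPC.Poly.flatMap (F := fun a p =>
      ((A a).filter fun a' => !((ν a ++ p).any fun l => decide (l.1 = a'.1))).map fun a' => a' :: p)
      ih ?_
    refine NPC.Poly.map (F := fun (q : α × Term) a' => a' :: q.2) ?_
      (NPC.Poly.cons (NPC.Poly.snd NPC.Poly.id) (NPC.Poly.snd (NPC.Poly.fst NPC.Poly.id)))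
    refine NPC.Poly.filter (p := fun (q : α × Term) (a' : Lit) =>
      !((ν q.1 ++ q.2).any fun l => decide (l.1 = a'.1))) (hA.comp (NPC.Poly.fst NPC.Poly.id)) ?_
    refine NPC.Poly.not (NPC.Poly.any (p := fun (r : (α × Term) × Lit) (l : Lit) =>
      decide (l.1 = r.2.1)) ?_ ?_)
    · exact NPC.Poly.append (hν.comp (NPC.Poly.fst (NPC.Poly.fst NPC.Poly.id)))
        (NPC.Poly.snd (NPC.Poly.fst NPC.Poly.id))
    · exact NPC.Poly.decide_eq (NPC.Poly.fst (NPC.Poly.snd NPC.Poly.id))
        (NPC.Poly.fst (NPC.Poly.snd (NPC.Poly.fst NPC.Poly.id)))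

theorem poly_rare {q : α → ℕ} {S : α → List Ex} {c : α → Term} (hq : NPC.Poly q) (hS : NPC.Poly S)
    (hc : NPC.Poly c) : NPC.Poly (fun a => rare (q a) (S a) (c a)) :=
  NPC.Poly.decide_lt (NPC.Poly.mul hq (poly_cnt hS hc)) (NPC.Poly.length hS)

theorem poly_restr {x : α → List Bool} {p : α → Term} (hx : NPC.Poly x) (hp : NPC.Poly p) :
    NPC.Poly (fun a => restr (x a) (p a)) := by
  unfold restr
  refine NPC.Poly.map (F := fun a (l : Lit) => (l.1, ((x a)[l.1]?).getD false)) hp ?_
  refine NPC.Poly.pair (NPC.Poly.fst (NPC.Poly.snd NPC.Poly.id)) ?_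
  exact (NPC.Poly.getD (d := fun _ => false) (hx.comp (NPC.Poly.fst NPC.Poly.id))
    (NPC.Poly.fst (NPC.Poly.snd NPC.Poly.id)) (NPC.Poly.const false)).congr fun a => by
      rw [List.getD_eq_getElem?_getD]

theorem poly_headD {l : α → List Term} (hl : NPC.Poly l) : NPC.Poly (fun a => (l a).headD []) :=
  (NPC.Poly.getD (d := fun _ => []) hl (NPC.Poly.const 0) (NPC.Poly.const [])).congr fun a =>
    (headD_eq _ _).symm

theorem poly_step (s : ℕ) {q : α → ℕ} {S : α → List Ex} {N x : α → List Bool} {ν : α → Term}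
    (hq : NPC.Poly q) (hS : NPC.Poly S) (hN : NPC.Poly N) (hx : NPC.Poly x) (hν : NPC.Poly ν) :
    NPC.Poly (fun a => step (rare (q a) (S a)) s (N a).length (x a) (ν a)) := by
  unfold step
  refine NPC.Poly.append hν (poly_restr hx (poly_headD ?_))
  refine NPC.Poly.filter (p := fun a p => rare (q a) (S a) (ν a ++ p)) (poly_exts (poly_lits hN) hν s) ?_
  exact poly_rare (hq.comp (NPC.Poly.fst NPC.Poly.id)) (hS.comp (NPC.Poly.fst NPC.Poly.id))
    (NPC.Poly.append (hν.comp (NPC.Poly.fst NPC.Poly.id)) (NPC.Poly.snd NPC.Poly.id))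

theorem poly_h1 (s : ℕ) {q : α → ℕ} {S : α → List Ex} {N : α → List Bool} {ν : α → Term}
    (hq : NPC.Poly q) (hS : NPC.Poly S) (hN : NPC.Poly N) (hν : NPC.Poly ν) :
    NPC.Poly (fun a => h1 s (q a) (N a).length (S a) (ν a)) := by
  unfold h1
  refine NPC.Poly.filter (p := fun a c => rare (q a) (S a) c) ?_ ?_
  · refine NPC.Poly.map (F := fun a p => ν a ++ p) (poly_exts (poly_lits hN) hν s) ?_
    exact NPC.Poly.append (hν.comp (NPC.Poly.fst NPC.Poly.id)) (NPC.Poly.snd NPC.Poly.id)
  · exact poly_rare (hq.comp (NPC.Poly.fst NPC.Poly.id)) (hS.comp (NPC.Poly.fst NPC.Poly.id))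
      (NPC.Poly.snd NPC.Poly.id)

end

/-! ### the trail -/

theorem mem_exts {A ν : Term} : ∀ {j : ℕ} {p : Term}, p ∈ exts A ν j → p.length ≤ j ∧ ∀ l ∈ p, l ∈ A
  | 0, p, h => by
    unfold exts at h
    rw [List.mem_singleton] at h
    subst h
    simp
  | j + 1, p, h => by
    unfold exts at h
    rw [List.mem_cons] at h
    rcases h with h | h
    · subst h
      simp
    · rw [List.mem_flatMap] at h
      obtain ⟨p', hp', h⟩ := h
      rw [List.mem_map] at h
      obtain ⟨l, hl, rfl⟩ := h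
      obtain ⟨h1, h2⟩ := mem_exts hp'
      rw [List.mem_filter] at hl
      refine ⟨by simp; omega, ?_⟩
      intro l' hl'
      rw [List.mem_cons] at hl'
      rcases hl' with rfl | hl'
      · exact hl.1
      · exact h2 l' hl'

theorem mem_lits {n : ℕ} {l : Lit} (h : l ∈ lits n) : l.1 < n := by
  unfold lits at h
  rw [List.mem_flatMap] at h
  obtain ⟨i, hi, h⟩ := h
  rw [List.mem_range] at hi
  simp only [List.mem_cons, List.not_mem_nil, or_false] at h
  rcases h with rfl | rfl <;> exact hi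

theorem step_bd {R : Term → Bool} {s n k : ℕ} {x : List Bool} {ν : Term} (h1 : ν.length ≤ s * k)
    (h2 : ∀ l ∈ ν, l.1 < n) :
    (step R s n x ν).length ≤ s * (k + 1) ∧ ∀ l ∈ step R s n x ν, l.1 < n := by
  have key : (((exts (lits n) ν s).filter fun p => R (ν ++ p)).headD []).length ≤ s ∧
      ∀ l ∈ ((exts (lits n) ν s).filter fun p => R (ν ++ p)).headD [], l.1 < n := by
    rcases h : (exts (lits n) ν s).filter fun p => R (ν ++ p) with _ | ⟨p, t⟩
    · simp
    · rw [List.headD_cons]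
      have hp : p ∈ (exts (lits n) ν s).filter fun p => R (ν ++ p) := by rw [h]; simp
      obtain ⟨g1, g2⟩ := mem_exts (List.mem_of_mem_filter hp)
      exact ⟨g1, fun l hl => mem_lits (g2 l hl)⟩
  unfold step
  constructor
  · rw [List.length_append]
    unfold restr
    rw [List.length_map, Nat.mul_succ]
    have := key.1
    omega
  · intro l hl
    rw [List.mem_append] at hl
    rcases hl with hl | hl
    · exact h2 l hl
    · unfold restr at hl
      rw [List.mem_map] at hl
      obtain ⟨l', hl', rfl⟩ := hl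
      exact key.2 l' hl'

theorem trail_bd (R : Term → Bool) (s n : ℕ) (x : List Bool) : ∀ d : ℕ,
    (trail R s n x d).length = d + 1 ∧ ∀ c ∈ trail R s n x d, c.length ≤ s * d ∧ ∀ l ∈ c, l.1 < n
  | 0 => by
    unfold trail
    simp
  | d + 1 => by
    obtain ⟨h1, h2⟩ := trail_bd R s n x d
    have e : trail R s n x (d + 1) =
        step R s n x ((trail R s n x d).headD []) :: trail R s n x d := by
      unfold trail
      rw [Function.iterate_succ_apply']
    rw [e]
    refine ⟨by rw [List.length_cons, h1], ?_⟩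
    have h3 : ((trail R s n x d).headD []).length ≤ s * d ∧
        ∀ l ∈ (trail R s n x d).headD [], l.1 < n := by
      rcases h : trail R s n x d with _ | ⟨p, t⟩
      · simp
      · rw [List.headD_cons]
        exact h2 p (by rw [h]; simp)
    intro c hc
    rw [List.mem_cons] at hc
    rcases hc with rfl | hc
    · exact step_bd h3.1 h3.2
    · obtain ⟨g1, g2⟩ := h2 c hc
      refine ⟨?_, g2⟩
      rw [Nat.mul_succ]
      omega

theorem sz_term {n : ℕ} {c : Term} (h : ∀ l ∈ c, l.1 < n) : sz c ≤ c.length * (4 * n + 6) + 1 := by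
  refine sz_le_length_mul c (4 * n + 5) ?_
  rintro ⟨i, b⟩ hl
  have h3 := sz_nat_le i
  have h4 := NPC.Poly.size_le_self i
  have h5 := sz_bool_le b
  have h6 : i < n := h _ hl
  rw [sz_pair]
  omega

theorem sz_trail (R : Term → Bool) (s n : ℕ) (x : List Bool) (d : ℕ) :
    sz (trail R s n x d) ≤ (d + 1) * (s * d * (4 * n + 6) + 2) + 1 := by
  obtain ⟨h1, h2⟩ := trail_bd R s n x d
  have h3 := sz_le_length_mul (trail R s n x d) (s * d * (4 * n + 6) + 1) (by
    intro c hc
    obtain ⟨g1, g2⟩ := h2 c hc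
    refine (sz_term g2).trans ?_
    have := Nat.mul_le_mul_right (4 * n + 6) g1
    omega)
  rw [h1] at h3
  exact h3

theorem len_lt {β : Type} [TEnc β] (l : List β) : l.length < sz l := length_lt_sz l

section

variable {α : Type} [TEnc α]

theorem poly_trail (s : ℕ) {q D : α → ℕ} {S : α → List Ex} {N x : α → List Bool}
    (hq : NPC.Poly q) (hD : UPoly D) (hS : NPC.Poly S) (hN : NPC.Poly N) (hx : NPC.Poly x) :
    NPC.Poly (fun a => trail (rare (q a) (S a)) s (N a).length (x a) (D a)) := by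
  obtain ⟨pN, hpN⟩ := hN.sz_le
  obtain ⟨pD, hpD⟩ := NPC.Poly.sz_le hD
  have hF : NPC.Poly (fun p : α × List Term =>
      step (rare (q p.1) (S p.1)) s (N p.1).length (x p.1) (p.2.headD []) :: p.2) :=
    NPC.Poly.cons (poly_step s (hq.comp (NPC.Poly.fst NPC.Poly.id)) (hS.comp (NPC.Poly.fst NPC.Poly.id))
      (hN.comp (NPC.Poly.fst NPC.Poly.id)) (hx.comp (NPC.Poly.fst NPC.Poly.id))
      (poly_headD (NPC.Poly.snd NPC.Poly.id))) (NPC.Poly.snd NPC.Poly.id)
  refine (NPC.Poly.iterLen (l := fun a => List.replicate (D a) ()) (s := fun _ => ([[]] : List Term))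
    (F := fun a L => step (rare (q a) (S a)) s (N a).length (x a) (L.headD []) :: L) hD
    (NPC.Poly.const _) hF
    ((pD + Polynomial.C 1) * (Polynomial.C s * pD * (Polynomial.C 4 * pN + Polynomial.C 6) +
      Polynomial.C 2) + Polynomial.C 1) ?_).congr fun a => ?_
  · intro a k hk
    rw [List.length_replicate] at hk
    have h1 := sz_trail (rare (q a) (S a)) s (N a).length (x a) k
    refine h1.trans ?_
    have h2 : (N a).length ≤ pN.eval (sz a) := (len_lt (N a)).le.trans (hpN a)
    have h3 : D a ≤ pD.eval (sz a) := by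
      have := (len_lt (List.replicate (D a) ())).le.trans (hpD a)
      rwa [List.length_replicate] at this
    simp only [Polynomial.eval_add, Polynomial.eval_mul, Polynomial.eval_C]
    have hk' : k ≤ pD.eval (sz a) := hk.trans h3
    gcongr
  · rw [List.length_replicate]
    rfl

/-! ### the assignments -/

theorem patStep_len {cap : ℕ} {acc : List Term} {v : ℕ} (h : acc.length ≤ cap + 1) :
    (patStep cap acc v).length ≤ cap + 1 := by
  unfold patStep
  split_ifs with h1
  · simp only [List.length_append, List.length_map]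
    omega
  · simp

theorem pats_len (cap : ℕ) : ∀ (J : List ℕ) (acc : List Term), acc.length ≤ cap + 1 →
    (J.foldl (patStep cap) acc).length ≤ cap + 1
  | [], _, h => h
  | v :: J, acc, h => pats_len cap J _ (patStep_len h)

theorem pats_sz (cap : ℕ) : ∀ (J : List ℕ) (acc : List Term) (B : ℕ), (∀ c ∈ acc, sz c ≤ B) →
    ∀ c ∈ J.foldl (patStep cap) acc, sz c ≤ B + 5 * sz J := by
  intro J
  induction J with
  | nil => intro acc B h c hc; have := h c hc; omega
  | cons v J ih =>
    intro acc B h c hc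
    have h1 : ∀ c ∈ patStep cap acc v, sz c ≤ B + sz v + 5 := by
      intro c hc
      unfold patStep at hc
      split_ifs at hc
      · rw [List.mem_append, List.mem_map, List.mem_map] at hc
        rcases hc with ⟨c', hc', rfl⟩ | ⟨c', hc', rfl⟩
        · have := h c' hc'
          have h5 := sz_bool_le false
          rw [sz_list_cons, sz_pair]
          omega
        · have := h c' hc'
          have h5 := sz_bool_le true
          rw [sz_list_cons, sz_pair]
          omega
      · simp at hc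
    have h2 := ih _ _ h1 c hc
    rw [sz_list_cons]
    omega

theorem poly_pats {cap : α → ℕ} {J : α → List ℕ} (hc : UPoly cap) (hJ : NPC.Poly J) :
    NPC.Poly (fun a => pats (cap a) (J a)) := by
  obtain ⟨p, hp⟩ := NPC.Poly.sz_le hc
  obtain ⟨q, hq⟩ := hJ.sz_le
  have hcN := UPoly.toPoly hc
  have hstep : NPC.Poly (fun z : α × List Term × ℕ => patStep (cap z.1) z.2.1 z.2.2) := by
    have hm : ∀ b : Bool, NPC.Poly (fun z : α × List Term × ℕ => z.2.1.map (fun p => (z.2.2, b) :: p)) := by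
      intro b
      exact NPC.Poly.map (F := fun (z : α × List Term × ℕ) p => (z.2.2, b) :: p)
        (NPC.Poly.fst (NPC.Poly.snd NPC.Poly.id))
        (NPC.Poly.cons (NPC.Poly.pair (NPC.Poly.snd (NPC.Poly.snd (NPC.Poly.fst NPC.Poly.id)))
          (NPC.Poly.const b)) (NPC.Poly.snd NPC.Poly.id))
    exact NPC.Poly.ite (NPC.Poly.decide_le (NPC.Poly.mul (NPC.Poly.const 2)
      (NPC.Poly.length (NPC.Poly.fst (NPC.Poly.snd NPC.Poly.id)))) (hcN.comp (NPC.Poly.fst NPC.Poly.id)))
      (NPC.Poly.append (hm false) (hm true)) (NPC.Poly.const [])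
  refine NPC.Poly.foldl (s := fun _ => ([[]] : List Term))
    (F := fun a acc l => patStep (cap a) acc l) hJ (NPC.Poly.const [[]]) hstep
    ((p + Polynomial.C 1) * (Polynomial.C 5 * q + Polynomial.C 2) + Polynomial.C 1) ?_
  intro a k _
  have h1 := pats_len (cap a) ((J a).take k) [[]] (by simp)
  have h2 := pats_sz (cap a) ((J a).take k) [[]] 1 (by
    intro c hc
    rw [List.mem_singleton] at hc
    subst hc
    simp)
  have h3 := NPC.Poly.sz_take_le (J a) k
  have h4 := hq a
  have h6 : cap a ≤ p.eval (sz a) := by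
    have := (len_lt (List.replicate (cap a) ())).le.trans (hp a)
    rwa [List.length_replicate] at this
  have h7 := sz_le_length_mul (((J a).take k).foldl (patStep (cap a)) [[]])
    (1 + 5 * sz (J a)) (fun c hc => (h2 c hc).trans (by omega))
  refine h7.trans ?_
  simp only [Polynomial.eval_add, Polynomial.eval_mul, Polynomial.eval_C]
  have h8 : (((J a).take k).foldl (patStep (cap a)) [[]]).length * (1 + 5 * sz (J a) + 1) ≤
      (p.eval (sz a) + 1) * (5 * q.eval (sz a) + 2) := Nat.mul_le_mul (by omega) (by omega)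
  omega

theorem poly_dst {m n : α → ℕ} (hm : NPC.Poly m) (hn : NPC.Poly n) :
    NPC.Poly (fun a => dst (m a) (n a)) :=
  NPC.Poly.add (NPC.Poly.sub hm hn) (NPC.Poly.sub hn hm)

theorem poly_test {S : α → List Ex} {c : α → Term} {i j : α → ℕ} (hS : NPC.Poly S)
    (hc : NPC.Poly c) (hi : NPC.Poly i) (hj : NPC.Poly j) :
    NPC.Poly (fun a => test (S a) (c a) (i a) (j a)) := by
  have h1 : ∀ b : Bool, NPC.Poly (fun a => cnt (S a) ((i a, b) :: c a)) := fun b =>
    poly_cnt hS (NPC.Poly.cons (NPC.Poly.pair hi (NPC.Poly.const b)) hc)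
  have h2 : ∀ b b' : Bool, NPC.Poly (fun a => cnt (S a) ((i a, b) :: (j a, b') :: c a)) := fun b b' =>
    poly_cnt hS (NPC.Poly.cons (NPC.Poly.pair hi (NPC.Poly.const b))
      (NPC.Poly.cons (NPC.Poly.pair hj (NPC.Poly.const b')) hc))
  exact NPC.Poly.decide_le (NPC.Poly.mul (NPC.Poly.const 7) (poly_dst (h1 true) (h1 false)))
    (NPC.Poly.mul (NPC.Poly.const 8) (poly_dst (NPC.Poly.add (h2 true true) (h2 false false))
      (NPC.Poly.add (h2 true false) (h2 false true))))

theorem poly_rel {S : α → List Ex} {N : α → List Bool} {c : α → Term} {i : α → ℕ} (hS : NPC.Poly S)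
    (hN : NPC.Poly N) (hc : NPC.Poly c) (hi : NPC.Poly i) :
    NPC.Poly (fun a => rel (S a) (N a).length (c a) (i a)) :=
  NPC.Poly.filter (p := fun a j => test (S a) (c a) (i a) j) (NPC.Poly.range_length hN)
    (poly_test (hS.comp (NPC.Poly.fst NPC.Poly.id)) (hc.comp (NPC.Poly.fst NPC.Poly.id))
      (hi.comp (NPC.Poly.fst NPC.Poly.id)) (NPC.Poly.snd NPC.Poly.id))

/-- the case of a non-empty term -/
def h2c (cap n : ℕ) (S : List Ex) (ν : Term) (l : Lit) (u : Term) : Dnf :=
  (pats cap (rel S n (u ++ ν) l.1)).filter fun c => decide (cnt S c = 0)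

theorem poly_h2c {cap i : α → ℕ} {N : α → List Bool} {S : α → List Ex} {c : α → Term}
    (hc : UPoly cap) (hN : NPC.Poly N) (hS : NPC.Poly S) (hν : NPC.Poly c) (hi : NPC.Poly i) :
    NPC.Poly (fun a => (pats (cap a) (rel (S a) (N a).length (c a) (i a))).filter
      fun c => decide (cnt (S a) c = 0)) := by
  refine NPC.Poly.filter (p := fun a c => decide (cnt (S a) c = 0)) ?_ ?_
  · exact poly_pats hc (poly_rel hS hN hν hi)
  · exact NPC.Poly.decide_eq (poly_cnt (hS.comp (NPC.Poly.fst NPC.Poly.id))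
      (NPC.Poly.snd NPC.Poly.id)) (NPC.Poly.const 0)

theorem poly_h2w {cap : α → ℕ} {N : α → List Bool} {S : α → List Ex} {ν w : α → Term}
    (hc : UPoly cap) (hN : NPC.Poly N) (hS : NPC.Poly S) (hν : NPC.Poly ν) (hw : NPC.Poly w) :
    NPC.Poly (fun a => h2w (cap a) (N a).length (S a) (ν a) (w a)) := by
  have h : NPC.Poly (fun p : α × Lit × Term =>
      h2c (cap p.1) (N p.1).length (S p.1) (ν p.1) p.2.1 p.2.2) := by
    refine poly_h2c (α := α × Lit × Term) (cap := fun p => cap p.1) (N := fun p => N p.1)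
      (S := fun p => S p.1) (c := fun p => p.2.2 ++ ν p.1) (i := fun p => p.2.1.1)
      (UPoly.comp (n := cap) hc (NPC.Poly.fst NPC.Poly.id)) (hN.comp (NPC.Poly.fst NPC.Poly.id))
      (hS.comp (NPC.Poly.fst NPC.Poly.id)) ?_ ?_
    · exact NPC.Poly.append (NPC.Poly.snd (NPC.Poly.snd NPC.Poly.id))
        (hν.comp (NPC.Poly.fst NPC.Poly.id))
    · exact NPC.Poly.fst (NPC.Poly.fst (NPC.Poly.snd NPC.Poly.id))
  refine (NPC.Poly.listCases (g := fun _ => ([] : Dnf))
    (h := fun a l u => h2c (cap a) (N a).length (S a) (ν a) l u) hw (NPC.Poly.const []) h).congr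
    fun a => ?_
  unfold h2w h2c
  rcases w a with _ | ⟨l, u⟩
  · rfl
  · rfl

theorem poly_h2 (k : ℕ) {cap : α → ℕ} {N : α → List Bool} {S : α → List Ex} {ν : α → Term}
    (hc : UPoly cap) (hN : NPC.Poly N) (hS : NPC.Poly S) (hν : NPC.Poly ν) :
    NPC.Poly (fun a => h2 k (cap a) (N a).length (S a) (ν a)) := by
  unfold h2
  refine NPC.Poly.flatMap (F := fun a w => h2w (cap a) (N a).length (S a) (ν a) w)
    (poly_exts (poly_lits hN) hν k) ?_
  exact poly_h2w (UPoly.comp (n := cap) hc (NPC.Poly.fst NPC.Poly.id)) (hN.comp (NPC.Poly.fst NPC.Poly.id))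
    (hS.comp (NPC.Poly.fst NPC.Poly.id)) (hν.comp (NPC.Poly.fst NPC.Poly.id)) (NPC.Poly.snd NPC.Poly.id)

theorem poly_h3 (s k : ℕ) {q D cap : α → ℕ} {N x : α → List Bool} {S : α → List Ex}
    (hq : NPC.Poly q) (hD : UPoly D) (hc : UPoly cap) (hN : NPC.Poly N) (hS : NPC.Poly S)
    (hx : NPC.Poly x) :
    NPC.Poly (fun a => h3 s k (q a) (D a) (cap a) (N a).length (S a) (x a)) := by
  have ht := poly_trail s hq hD hS hN hx
  unfold h3
  refine NPC.Poly.append ?_ (poly_h2 k hc hN hS (poly_headD ht))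
  refine NPC.Poly.flatMap (F := fun a ν => h1 s (q a) (N a).length (S a) ν) ht ?_
  exact poly_h1 s (hq.comp (NPC.Poly.fst NPC.Poly.id)) (hS.comp (NPC.Poly.fst NPC.Poly.id))
    (hN.comp (NPC.Poly.fst NPC.Poly.id)) (NPC.Poly.snd NPC.Poly.id)

end

end Time

open Time Pool.Agent.NPC Pool.Agent.N587.DL in
/-- The learner is a polynomial-time function. -/
theorem poly_learn (s k c0 c1 c2 : ℕ) : Pool.Agent.NPC.Poly (learn s k c0 c1 c2) := by
  have ht : NPC.Poly (fun z : List Unit × List Ex => z.1) := NPC.Poly.fst NPC.Poly.id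
  have hS : NPC.Poly (fun z : List Unit × List Ex => z.2) := NPC.Poly.snd NPC.Poly.id
  have hU : UPoly (fun z : List Unit × List Ex => z.1.length) := UPoly.length ht
  have hpow : ∀ c : ℕ, UPoly (fun z : List Unit × List Ex => z.1.length ^ c) := by
    intro c
    have := UPoly.eval hU (Polynomial.X ^ c)
    simpa only [Polynomial.eval_pow, Polynomial.eval_X] using this
  have hN : NPC.Poly (fun z : List Unit × List Ex => (z.2.headD ([], false)).1) :=
    NPC.Poly.fst ((NPC.Poly.getD (d := fun _ => (([], false) : Ex)) hS (NPC.Poly.const 0)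
      (NPC.Poly.const _)).congr fun a => (headD_eq _ _).symm)
  have hD : UPoly (fun z : List Unit × List Ex => c0 * z.1.length.bits.length) :=
    UPoly.mul (UPoly.const c0) (UPoly.length (NPC.Poly.natBits (NPC.Poly.length ht)))
  have hq : NPC.Poly (fun z : List Unit × List Ex => z.1.length ^ c1) := UPoly.toPoly (hpow c1)
  refine (NPC.Poly.append (poly_h1 s hq hS hN (NPC.Poly.const [])) (NPC.Poly.flatMap
    (l := fun z : List Unit × List Ex => z.2.filter fun z => !z.2)
    (F := fun z (e : Ex) => h3 s k (z.1.length ^ c1) (c0 * z.1.length.bits.length) (z.1.length ^ c2)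
      (z.2.headD ([], false)).1.length z.2 e.1) ?_ ?_)).congr fun z => rfl
  · exact NPC.Poly.filter (p := fun _ (e : Ex) => !e.2) hS
      (NPC.Poly.not (NPC.Poly.snd (NPC.Poly.snd NPC.Poly.id)))
  · exact poly_h3 s k (hq.comp (NPC.Poly.fst NPC.Poly.id))
      (UPoly.comp (n := fun z : List Unit × List Ex => c0 * z.1.length.bits.length) hD
        (NPC.Poly.fst NPC.Poly.id))
      (UPoly.comp (n := fun z : List Unit × List Ex => z.1.length ^ c2) (hpow c2)
        (NPC.Poly.fst NPC.Poly.id)) (hN.comp (NPC.Poly.fst NPC.Poly.id))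
      (hS.comp (NPC.Poly.fst NPC.Poly.id)) (NPC.Poly.fst (NPC.Poly.snd NPC.Poly.id))

end Pool.Agent.N597.RK
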