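import Pool.Agent.N597.RK.Props

/-!
# The cases for a path, and the trail
-/

set_option autoImplicit false

namespace Pool.Agent.N597.RK

namespace Trc

lemma path_zero (R : Term → Bool) (s n : ℕ) (x : List Bool) : path R s n x 0 = [] := rfl

lemma path_succ (R : Term → Bool) (s n : ℕ) (x : List Bool) (d : ℕ) :
    path R s n x (d + 1) = step R s n x (path R s n x d) :=
  Function.iterate_succ_apply' _ _ _

lemma restr_fst (x : List Bool) (p : Term) : (restr x p).map Prod.fst = p.map Prod.fst := by
  unfold restr
  rw [List.map_map]
  rfl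

lemma restr_length (x : List Bool) (p : Term) : (restr x p).length = p.length := by
  unfold restr
  rw [List.length_map]

lemma restr_mem (h2 : ExtsFacts) {n s : ℕ} {ν : Term} (x : List Bool) {p : Term}
    (hp : p ∈ exts (lits n) ν s) : restr x p ∈ exts (lits n) ν s := by
  obtain ⟨h3, h4, h5⟩ := ((h2 n ν s).2 p).1 hp
  refine ((h2 n ν s).2 _).2 ⟨by rw [restr_length]; exact h3, by rw [restr_fst]; exact h4, ?_⟩
  intro l hl
  have h6 : l.1 ∈ p.map Prod.fst := by
    rw [← restr_fst x p]
    exact List.mem_map_of_mem hl
  obtain ⟨l0, hl0, he⟩ := List.mem_map.1 h6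
  rw [← he]
  exact h5 l0 hl0

end Trc

/-- What happens on a path. -/
theorem treeCases (h1 : PathFacts) (h2 : ExtsFacts) : TreeCases := by
  intro R s n D x hR
  by_cases hd : ∃ d, d ≤ D ∧ R (path R s n (List.ofFn x) d) = true
  · left
    classical
    have hmin := fun {m : ℕ} => @Nat.find_min _ _ hd m
    obtain ⟨hle, htrue⟩ := Nat.find_spec hd
    set d := Nat.find hd with hdef
    have hd0 : d ≠ 0 := by
      intro h0
      rw [h0, Trc.path_zero, hR] at htrue
      exact Bool.false_ne_true htrue
    obtain ⟨e, he⟩ := Nat.exists_eq_succ_of_ne_zero hd0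
    have hpre : R (path R s n (List.ofFn x) e) = false := by
      have h3 : ¬ (e ≤ D ∧ R (path R s n (List.ofFn x) e) = true) := hmin (by omega)
      by_contra h4
      exact h3 ⟨by omega, by simpa using h4⟩
    have hpath : path R s n (List.ofFn x) d = step R s n (List.ofFn x)
        (path R s n (List.ofFn x) e) := by
      rw [he]
      exact Trc.path_succ R s n _ e
    set ν := path R s n (List.ofFn x) e with hν
    have hstep : path R s n (List.ofFn x) d = ν ++ restr (List.ofFn x)
        (((exts (lits n) ν s).filter fun p => R (ν ++ p)).headD []) := hpath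
    cases hf : (exts (lits n) ν s).filter fun p => R (ν ++ p) with
    | nil =>
      exfalso
      rw [hf] at hstep
      have h5 : path R s n (List.ofFn x) d = ν := by
        rw [hstep]
        exact List.append_nil ν
      rw [h5, hpre] at htrue
      exact Bool.false_ne_true htrue
    | cons p L =>
      have hp : p ∈ (exts (lits n) ν s).filter fun p => R (ν ++ p) := by
        rw [hf]
        exact List.mem_cons_self
      rw [hf] at hstep
      have hstep' : path R s n (List.ofFn x) d = ν ++ restr (List.ofFn x) p := hstep
      refine ⟨e, by omega, hpre, restr (List.ofFn x) p,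
        Trc.restr_mem h2 _ (List.mem_filter.1 hp).1, ?_, ?_⟩
      · rw [← hstep']
        exact htrue
      · rw [← hstep']
        exact (h1 R s n d x).2.2.2.1
  · right
    have hall : ∀ d, d ≤ D → R (path R s n (List.ofFn x) d) = false := by
      intro d hdD
      by_contra h4
      exact hd ⟨d, hdD, by simpa using h4⟩
    by_cases hex : ∃ p ∈ exts (lits n) (path R s n (List.ofFn x) D) s,
        R (path R s n (List.ofFn x) D ++ p) = true
    · left
      exact ⟨hall D le_rfl, hex⟩
    · right
      intro p hp
      by_contra h4
      exact hex ⟨p, hp, by simpa using h4⟩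

/-- The trail. -/
theorem trailFacts : TrailFacts := by
  intro R s n D x
  induction D with
  | zero =>
    refine ⟨?_, rfl⟩
    intro ν
    show ν ∈ [([] : Term)] ↔ _
    rw [List.mem_singleton]
    constructor
    · rintro rfl
      exact ⟨0, le_rfl, rfl⟩
    · rintro ⟨d, hd, rfl⟩
      rw [Nat.le_zero.1 hd]
      rfl
  | succ D ih =>
    have h1 : trail R s n x (D + 1) =
        step R s n x ((trail R s n x D).headD []) :: trail R s n x D :=
      Function.iterate_succ_apply' _ _ _
    rw [ih.2, ← Trc.path_succ] at h1
    rw [h1]
    refine ⟨?_, rfl⟩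
    intro ν
    rw [List.mem_cons, ih.1]
    constructor
    · rintro (rfl | ⟨d, hd, rfl⟩)
      · exact ⟨D + 1, le_rfl, rfl⟩
      · exact ⟨d, by omega, rfl⟩
    · rintro ⟨d, hd, rfl⟩
      rcases Nat.lt_or_ge D d with h | h
      · left
        rw [show d = D + 1 by omega]
      · right
        exact ⟨d, h, rfl⟩

end Pool.Agent.N597.RK
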