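import Pool.Agent.N597.RK.Props

/-!
# The points whose path does not end within `d` steps
-/

set_option autoImplicit false

namespace Pool.Agent.N597.RK

namespace Unf

/-- the set of the statement -/
def U (R : Term → Bool) (s n d : ℕ) : Finset (Fin n → Bool) :=
  Finset.univ.filter fun x : Fin n → Bool => R (path R s n (List.ofFn x) d) = false ∧
    ∃ p ∈ exts (lits n) (path R s n (List.ofFn x) d) s,
      R (path R s n (List.ofFn x) d ++ p) = true

theorem exts_head (A ν : Term) (j : ℕ) : ∃ t, exts A ν j = [] :: t := by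
  cases j with
  | zero => exact ⟨[], rfl⟩
  | succ j => exact ⟨_, rfl⟩

theorem path_succ (R : Term → Bool) (s n : ℕ) (x : List Bool) (d : ℕ) :
    path R s n x (d + 1) = step R s n x (path R s n x d) := by
  unfold path
  rw [Function.iterate_succ_apply']

theorem step_of_R {R : Term → Bool} {s n : ℕ} {x : List Bool} {ν : Term} (h : R ν = true) :
    step R s n x ν = ν := by
  obtain ⟨t, ht⟩ := exts_head (lits n) ν s
  unfold step
  rw [ht, List.filter_cons_of_pos (by simpa using h)]
  simp [restr]

theorem step_of_none {R : Term → Bool} {s n : ℕ} {x : List Bool} {ν : Term}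
    (h : ∀ p ∈ exts (lits n) ν s, ¬ R (ν ++ p) = true) : step R s n x ν = ν := by
  unfold step
  rw [List.filter_eq_nil_iff.2 h]
  simp [restr]

theorem restr_of_sat {x : List Bool} {p : Term} (h : termSat x p = true) : restr x p = p := by
  unfold restr
  unfold termSat at h
  rw [List.all_eq_true] at h
  conv_rhs => rw [← List.map_id p]
  refine List.map_congr_left fun l hl => ?_
  have h1 := h l hl
  simp only [litSat, decide_eq_true_eq] at h1
  rw [h1]
  rfl

theorem termSat_append (x : List Bool) (a b : Term) :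
    termSat x (a ++ b) = true ↔ termSat x a = true ∧ termSat x b = true := by
  simp [termSat, List.all_append]

/-- all points which satisfy a term -/
theorem card_term (h3 : IndepTerm) (n : ℕ) (ν : Term) (h1 : (ν.map Prod.fst).Nodup)
    (h2 : ∀ l ∈ ν, l.1 < n) :
    (Finset.univ.filter fun x : Fin n → Bool => termSat (List.ofFn x) ν = true).card *
      2 ^ ν.length = 2 ^ n := by
  have h := h3 n ν h1 h2 Finset.univ (fun _ _ _ => by simp)
  rw [h]
  simp

/-- the descent step -/
theorem step_card (h1 : PathFacts) (h2 : ExtsFacts) (h3 : IndepTerm) (R : Term → Bool)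
    (s n d : ℕ) : 2 ^ s * (U R s n (d + 1)).card ≤ (2 ^ s - 1) * (U R s n d).card := by
  classical
  set N := (U R s n d).image fun x => path R s n (List.ofFn x) d with hN
  have hsub : U R s n (d + 1) ⊆ U R s n d := by
    intro x hx
    unfold U at hx ⊢
    rw [Finset.mem_filter] at hx ⊢
    obtain ⟨-, hx1, hx2⟩ := hx
    rw [path_succ] at hx1 hx2
    refine ⟨Finset.mem_univ _, ?_, ?_⟩
    · by_contra hR
      rw [Bool.not_eq_false] at hR
      rw [step_of_R hR, hR] at hx1
      exact absurd hx1 (by simp)
    · by_contra hR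
      push Not at hR
      rw [step_of_none hR] at hx2
      obtain ⟨p, hp, hp2⟩ := hx2
      exact hR p hp hp2
  have e1 : (U R s n d).card = ∑ ν ∈ N, ((U R s n d).filter fun x =>
      path R s n (List.ofFn x) d = ν).card := Finset.card_eq_sum_card_image _ _
  have e2 : (U R s n (d + 1)).card = ∑ ν ∈ N, ((U R s n (d + 1)).filter fun x =>
      path R s n (List.ofFn x) d = ν).card :=
    Finset.card_eq_sum_card_fiberwise fun x hx => Finset.mem_image_of_mem _ (hsub hx)
  rw [e1, e2, Finset.mul_sum, Finset.mul_sum]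
  refine Finset.sum_le_sum fun ν hν => ?_
  rw [hN, Finset.mem_image] at hν
  obtain ⟨x, hx, rfl⟩ := hν
  obtain ⟨f1, f2, f3, f4, f5⟩ := h1 R s n d x
  set ν := path R s n (List.ofFn x) d with hν
  have hx' := hx
  unfold U at hx'
  rw [Finset.mem_filter, ← hν] at hx'
  obtain ⟨-, hR1, p₀, hp₀, hR2⟩ := hx'
  -- the fibre
  have hfib : ((U R s n d).filter fun x => path R s n (List.ofFn x) d = ν) =
      Finset.univ.filter fun y : Fin n → Bool => termSat (List.ofFn y) ν = true := by
    ext y
    rw [Finset.mem_filter, Finset.mem_filter]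
    constructor
    · rintro ⟨-, hy⟩
      refine ⟨Finset.mem_univ _, ?_⟩
      rw [← hy]
      exact (h1 R s n d y).2.2.2.1
    · rintro ⟨-, hy⟩
      have hy2 := f5 y hy
      refine ⟨?_, hy2⟩
      unfold U
      rw [Finset.mem_filter, hy2]
      exact ⟨Finset.mem_univ _, hR1, p₀, hp₀, hR2⟩
  -- the first extension
  obtain ⟨p, hp⟩ : ∃ p, ((exts (lits n) ν s).filter fun p => R (ν ++ p)).headD [] = p := ⟨_, rfl⟩
  have hpm : p ∈ (exts (lits n) ν s).filter fun p => R (ν ++ p) := by
    have hne : (exts (lits n) ν s).filter (fun p => R (ν ++ p)) ≠ [] :=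
      List.ne_nil_of_mem (List.mem_filter.2 ⟨hp₀, hR2⟩)
    obtain ⟨a, t, hat⟩ := List.exists_cons_of_ne_nil hne
    rw [hat] at hp ⊢
    simp only [List.headD_cons] at hp
    rw [hp]
    exact List.mem_cons_self
  rw [List.mem_filter] at hpm
  obtain ⟨hpe, hpR⟩ := hpm
  obtain ⟨g1, g2, g3⟩ := ((h2 n ν s).2 p).1 hpe
  -- the points which satisfy `ν ++ p`
  set Q := Finset.univ.filter fun y : Fin n → Bool => termSat (List.ofFn y) (ν ++ p) = true with hQ
  have hQc : Q.card * 2 ^ (ν ++ p).length = 2 ^ n := by
    refine card_term h3 n (ν ++ p) ?_ ?_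
    · rw [List.map_append, List.nodup_append]
      refine ⟨f1, g2, ?_⟩
      intro a ha b hb
      rw [List.mem_map] at ha hb
      obtain ⟨l', hl', rfl⟩ := ha
      obtain ⟨l, hl, rfl⟩ := hb
      exact (g3 l hl).2 l' hl'
    · intro l hl
      rcases List.mem_append.1 hl with h | h
      · exact f2 l h
      · exact (g3 l h).1
  have hPc := card_term h3 n ν f1 f2
  rw [← hfib] at hPc
  rw [List.length_append, pow_add] at hQc
  have hle : ((U R s n d).filter fun x => path R s n (List.ofFn x) d = ν).card ≤
      Q.card * 2 ^ s := by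
    have h5 : ((U R s n d).filter fun x => path R s n (List.ofFn x) d = ν).card =
        Q.card * 2 ^ p.length := by
      have h6 : ((U R s n d).filter fun x => path R s n (List.ofFn x) d = ν).card * 2 ^ ν.length =
          (Q.card * 2 ^ p.length) * 2 ^ ν.length := by
        rw [hPc, ← hQc]
        ring
      exact Nat.eq_of_mul_eq_mul_right (by positivity) h6
    rw [h5]
    exact Nat.mul_le_mul_left _ (Nat.pow_le_pow_right (by norm_num) g1)
  have hdis : Disjoint ((U R s n (d + 1)).filter fun x => path R s n (List.ofFn x) d = ν) Q := by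
    rw [Finset.disjoint_left]
    intro y hy hyQ
    rw [Finset.mem_filter] at hy
    obtain ⟨hy1, hy2⟩ := hy
    rw [hQ, Finset.mem_filter] at hyQ
    have hy3 := (termSat_append _ _ _).1 hyQ.2
    unfold U at hy1
    rw [Finset.mem_filter] at hy1
    have hy4 := hy1.2.1
    rw [path_succ, hy2] at hy4
    unfold step at hy4
    rw [hp, restr_of_sat hy3.2, hpR] at hy4
    exact absurd hy4 (by simp)
  have hun : ((U R s n (d + 1)).filter fun x => path R s n (List.ofFn x) d = ν) ∪ Q ⊆
      (U R s n d).filter fun x => path R s n (List.ofFn x) d = ν := by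
    intro y hy
    rcases Finset.mem_union.1 hy with hy | hy
    · rw [Finset.mem_filter] at hy ⊢
      exact ⟨hsub hy.1, hy.2⟩
    · rw [hfib, Finset.mem_filter]
      rw [hQ, Finset.mem_filter] at hy
      exact ⟨Finset.mem_univ _, ((termSat_append _ _ _).1 hy.2).1⟩
  have hcard := Finset.card_le_card hun
  rw [Finset.card_union_of_disjoint hdis] at hcard
  obtain ⟨t, ht⟩ : ∃ t, 2 ^ s = t + 1 := ⟨2 ^ s - 1, by have := Nat.one_le_two_pow (n := s); omega⟩
  rw [ht] at hle ⊢
  rw [Nat.add_sub_cancel]
  nlinarith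

end Unf

open Unf in
theorem unfinished (h1 : PathFacts) (h2 : ExtsFacts) (h3 : IndepTerm) : Unfinished := by
  intro R s n d
  have key : ∀ d, (U R s n d).card * 2 ^ (s * d) ≤ (2 ^ s - 1) ^ d * 2 ^ n := by
    intro d
    induction d with
    | zero =>
      have : (U R s n 0).card ≤ 2 ^ n := by
        refine (Finset.card_le_univ _).trans ?_
        simp
      simpa using this
    | succ d ih =>
      have h := step_card h1 h2 h3 R s n d
      calc (U R s n (d + 1)).card * 2 ^ (s * (d + 1))
          = (2 ^ s * (U R s n (d + 1)).card) * 2 ^ (s * d) := by ring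
        _ ≤ ((2 ^ s - 1) * (U R s n d).card) * 2 ^ (s * d) := Nat.mul_le_mul_right _ h
        _ = (2 ^ s - 1) * ((U R s n d).card * 2 ^ (s * d)) := by ring
        _ ≤ (2 ^ s - 1) * ((2 ^ s - 1) ^ d * 2 ^ n) := Nat.mul_le_mul_left _ ih
        _ = (2 ^ s - 1) ^ (d + 1) * 2 ^ n := by ring
  exact key d

end Pool.Agent.N597.RK
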