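import Pool.Agent.N597.RK.Props

/-!
# Zeros of a read-k family with given values on a closed set of variables
-/

set_option autoImplicit false

namespace Pool.Agent.N597.RK

namespace ZerFixed

open Finset

variable {n : ℕ}

theorem mem_Zer {G : Finset (FT n)} {x : Fin n → Bool} : x ∈ Zer G ↔ ∀ T ∈ G, ¬ Sat T x := by
  unfold Zer
  rw [Finset.mem_filter]
  exact ⟨fun h => h.2, fun h => ⟨Finset.mem_univ _, h⟩⟩

theorem readF_mono {k : ℕ} {G G' : Finset (FT n)} (h : ReadF k G') (hG : G ⊆ G') : ReadF k G :=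
  fun v => (Finset.card_le_card (Finset.filter_subset_filter _ hG)).trans (h v)

theorem pow_two {r t : ℕ} (h : 2 * 3 ^ r ≤ 4 ^ r) (hrt : r ≤ t) : 2 * 3 ^ t ≤ 4 ^ t := by
  obtain ⟨s, rfl⟩ := Nat.exists_eq_add_of_le hrt
  calc 2 * 3 ^ (r + s) = (2 * 3 ^ r) * 3 ^ s := by ring
    _ ≤ 4 ^ r * 4 ^ s := Nat.mul_le_mul h (Nat.pow_le_pow_left (by norm_num) s)
    _ = 4 ^ (r + s) := by ring

/-- one more term at most halves the number of zeros -/
theorem step (h1 : LLLStep) {k r : ℕ} (hk : 3 * k * 3 ^ r ≤ 4 ^ r) (hr : 2 * 3 ^ r ≤ 4 ^ r)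
    (S : Finset (FT n)) (T : FT n) (hT : T ∉ S) (hC : ∀ X ∈ insert T S, Cons X)
    (hR : ReadF k (insert T S)) (hs : ∀ X ∈ insert T S, r ≤ X.card) :
    (Zer S).card ≤ 2 * (Zer (insert T S)).card := by
  have h2 := h1 n k r hk S T hT hC hR (fun X hX => hs X (Finset.mem_insert_of_mem hX))
  have h3 := pow_two hr (hs T (Finset.mem_insert_self T S))
  have h4 : Zer (insert T S) = (Zer S).filter fun x => ¬ Sat T x := by
    ext x
    rw [Finset.mem_filter, mem_Zer, mem_Zer]
    constructor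
    · intro h
      exact ⟨fun X hX => h X (Finset.mem_insert_of_mem hX), h T (Finset.mem_insert_self T S)⟩
    · rintro ⟨h, h'⟩ X hX
      rcases Finset.mem_insert.1 hX with rfl | hX
      · exact h'
      · exact h X hX
  have h5 : ((Zer S).filter fun x => Sat T x).card + (Zer (insert T S)).card = (Zer S).card := by
    rw [h4]
    exact Finset.card_filter_add_card_filter_not (fun x => Sat T x)
  set a := ((Zer S).filter fun x => Sat T x).card with ha
  have h6 : 3 ^ T.card * (2 * a) ≤ 3 ^ T.card * (Zer S).card := by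
    calc 3 ^ T.card * (2 * a) = (2 * 3 ^ T.card) * a := by ring
      _ ≤ 4 ^ T.card * a := Nat.mul_le_mul_right a h3
      _ ≤ _ := h2
  have h7 : 2 * a ≤ (Zer S).card := Nat.le_of_mul_le_mul_left h6 (by positivity)
  omega

theorem grow (h1 : LLLStep) {k r : ℕ} (hk : 3 * k * 3 ^ r ≤ 4 ^ r) (hr : 2 * 3 ^ r ≤ 4 ^ r)
    (G₀ D : Finset (FT n)) (hD : Disjoint G₀ D) (hC : ∀ X ∈ G₀ ∪ D, Cons X)
    (hR : ReadF k (G₀ ∪ D)) (hs : ∀ X ∈ G₀ ∪ D, r ≤ X.card) :
    (Zer G₀).card ≤ 2 ^ D.card * (Zer (G₀ ∪ D)).card := by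
  induction D using Finset.induction_on with
  | empty => simp
  | insert X D hX ih =>
    have hsub : G₀ ∪ D ⊆ G₀ ∪ insert X D :=
      Finset.union_subset_union_right (Finset.subset_insert X D)
    have e1 : G₀ ∪ insert X D = insert X (G₀ ∪ D) := Finset.union_insert X G₀ D
    have hD' : Disjoint G₀ D := Finset.disjoint_of_subset_right (Finset.subset_insert X D) hD
    have hX' : X ∉ G₀ ∪ D := by
      rw [Finset.mem_union]
      rintro (h | h)
      · exact Finset.disjoint_left.1 hD h (Finset.mem_insert_self X D)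
      · exact hX h
    have h2 := ih hD' (fun Y hY => hC Y (hsub hY)) (readF_mono hR hsub)
      (fun Y hY => hs Y (hsub hY))
    rw [e1] at hC hR hs ⊢
    have h3 := step h1 hk hr (G₀ ∪ D) X hX' hC hR hs
    rw [Finset.card_insert_of_notMem hX, pow_succ]
    calc (Zer G₀).card ≤ 2 ^ D.card * (Zer (G₀ ∪ D)).card := h2
      _ ≤ 2 ^ D.card * (2 * (Zer (insert X (G₀ ∪ D))).card) := Nat.mul_le_mul_left _ h3
      _ = _ := by ring

/-- the part of a term outside `V` -/
def red (V : Finset (Fin n)) (X : FT n) : FT n := X.filter fun l => l.1 ∉ V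

theorem mem_red {V : Finset (Fin n)} {X : FT n} {l : Fin n × Bool} :
    l ∈ red V X ↔ l ∈ X ∧ l.1 ∉ V := by
  unfold red
  exact Finset.mem_filter

theorem vars_red (V : Finset (Fin n)) (X : FT n) : vars (red V X) = vars X \ V := by
  ext v
  unfold vars
  rw [Finset.mem_sdiff, Finset.mem_image, Finset.mem_image]
  constructor
  · rintro ⟨l, hl, rfl⟩
    rw [mem_red] at hl
    exact ⟨⟨l, hl.1, rfl⟩, hl.2⟩
  · rintro ⟨⟨l, hl, rfl⟩, hv⟩
    exact ⟨l, mem_red.2 ⟨hl, hv⟩, rfl⟩

theorem red_eq {V : Finset (Fin n)} {X : FT n} (h : Disjoint (vars X) V) : red V X = X := by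
  ext l
  rw [mem_red]
  constructor
  · exact fun h => h.1
  · intro hl
    exact ⟨hl, fun hv => Finset.disjoint_left.1 h (Finset.mem_image_of_mem _ hl) hv⟩

theorem cons_red {V : Finset (Fin n)} {X : FT n} (h : Cons X) : Cons (red V X) := by
  intro l hl hl'
  rw [mem_red] at hl hl'
  exact h l hl.1 hl'.1

theorem card_red {V : Finset (Fin n)} (X : FT n) : (vars X \ V).card ≤ (red V X).card := by
  rw [← vars_red]
  exact Finset.card_image_le

end ZerFixed

open ZerFixed Finset in
theorem zerFix (h1 : LLLStep) (h2 : Indep) : ZerFix := by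
  classical
  intro n k r hk hr G hC hR V y hG
  set Gs : Finset (FT n) := G.filter fun X => r ≤ (vars X \ V).card ∧
    ∀ l ∈ X, l.1 ∈ V → y l.1 = l.2 with hGs
  set G2 : Finset (FT n) := Gs.image (red V) with hG2
  set G0 : Finset (FT n) := G.filter fun X => Disjoint (vars X) V with hG0
  have hC2 : ∀ X ∈ G2, Cons X := by
    intro X hX
    obtain ⟨Y, hY, rfl⟩ := Finset.mem_image.1 hX
    exact cons_red (hC Y (Finset.mem_filter.1 hY).1)
  have hR2 : ReadF k G2 := by
    intro v
    refine le_trans (Finset.card_le_card (t := (G.filter fun X => v ∈ vars X).image (red V)) ?_)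
      (Finset.card_image_le.trans (hR v))
    intro X hX
    rw [Finset.mem_filter] at hX
    obtain ⟨Y, hY, rfl⟩ := Finset.mem_image.1 hX.1
    refine Finset.mem_image.2 ⟨Y, Finset.mem_filter.2 ⟨(Finset.mem_filter.1 hY).1, ?_⟩, rfl⟩
    have h3 := hX.2
    rw [vars_red] at h3
    exact (Finset.mem_sdiff.1 h3).1
  have hs2 : ∀ X ∈ G2, r ≤ X.card := by
    intro X hX
    obtain ⟨Y, hY, rfl⟩ := Finset.mem_image.1 hX
    exact (Finset.mem_filter.1 hY).2.1.trans (card_red Y)
  have hV2 : ∀ X ∈ G2, ∀ l ∈ X, l.1 ∉ V := by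
    intro X hX l hl
    obtain ⟨Y, hY, rfl⟩ := Finset.mem_image.1 hX
    exact (mem_red.1 hl).2
  -- the points which agree with `y` on `V`
  have hfil : ((Zer G).filter fun x => ∀ v ∈ V, x v = y v) =
      (Zer G2).filter fun x => ∀ v ∈ V, x v = y v := by
    ext x
    rw [Finset.mem_filter, Finset.mem_filter, mem_Zer, mem_Zer]
    refine and_congr_left fun hx => ?_
    constructor
    · intro h X hX hsat
      obtain ⟨Y, hY, rfl⟩ := Finset.mem_image.1 hX
      obtain ⟨hYG, -, hYy⟩ := Finset.mem_filter.1 hY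
      refine h Y hYG fun l hl => ?_
      by_cases hv : l.1 ∈ V
      · rw [hx _ hv]
        exact hYy l hl hv
      · exact hsat l (mem_red.2 ⟨hl, hv⟩)
    · intro h X hX hsat
      rcases hG X hX with ⟨h3, h4⟩ | h3
      · refine h4 fun l hl => ?_
        rw [← hx _ (h3 (Finset.mem_image_of_mem _ hl))]
        exact hsat l hl
      · refine h (red V X) (Finset.mem_image_of_mem _ (Finset.mem_filter.2 ⟨hX, h3, ?_⟩)) ?_
        · intro l hl hv
          rw [← hx _ hv]
          exact hsat l hl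
        · intro l hl
          exact hsat l (mem_red.1 hl).1
  have hind : ((Zer G2).filter fun x => ∀ v ∈ V, x v = y v).card * 2 ^ V.card =
      (Zer G2).card := by
    refine h2 n V y (Zer G2) fun x z hxz => ?_
    have key : ∀ x z : Fin n → Bool, (∀ j, j ∉ V → x j = z j) → x ∈ Zer G2 → z ∈ Zer G2 := by
      intro x z hxz hx
      rw [mem_Zer] at hx ⊢
      intro X hX hsat
      refine hx X hX fun l hl => ?_
      rw [hxz _ (hV2 X hX l hl)]
      exact hsat l hl
    exact ⟨key x z hxz, key z x fun j hj => (hxz j hj).symm⟩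
  -- the terms without variables in `V`
  have hsub : G0 ⊆ G2 := by
    intro X hX
    obtain ⟨hXG, hXd⟩ := Finset.mem_filter.1 hX
    refine Finset.mem_image.2 ⟨X, Finset.mem_filter.2 ⟨hXG, ?_, ?_⟩, red_eq hXd⟩
    · rcases hG X hXG with ⟨h3, h4⟩ | h3
      · exfalso
        refine h4 fun l hl => ?_
        have h5 : l.1 ∈ vars X := Finset.mem_image_of_mem _ hl
        exact absurd (h3 h5) (Finset.disjoint_left.1 hXd h5)
      · exact h3
    · intro l hl hv
      exact absurd hv (Finset.disjoint_left.1 hXd (Finset.mem_image_of_mem _ hl))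
  have hcard : (G2 \ G0).card ≤ k * V.card := by
    have h3 : G2 \ G0 ⊆ (V.biUnion fun v => G.filter fun X => v ∈ vars X).image (red V) := by
      intro X hX
      obtain ⟨hX2, hX0⟩ := Finset.mem_sdiff.1 hX
      obtain ⟨Y, hY, rfl⟩ := Finset.mem_image.1 hX2
      have hYG := (Finset.mem_filter.1 hY).1
      refine Finset.mem_image.2 ⟨Y, ?_, rfl⟩
      by_contra hcon
      rw [Finset.mem_biUnion] at hcon
      have hd : Disjoint (vars Y) V := by
        rw [Finset.disjoint_left]
        intro v hv hvV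
        exact hcon ⟨v, hvV, Finset.mem_filter.2 ⟨hYG, hv⟩⟩
      apply hX0
      rw [red_eq hd]
      exact Finset.mem_filter.2 ⟨hYG, hd⟩
    calc (G2 \ G0).card ≤ _ := Finset.card_le_card h3
      _ ≤ (V.biUnion fun v => G.filter fun X => v ∈ vars X).card := Finset.card_image_le
      _ ≤ ∑ v ∈ V, (G.filter fun X => v ∈ vars X).card := Finset.card_biUnion_le
      _ ≤ ∑ _v ∈ V, k := Finset.sum_le_sum fun v _ => hR v
      _ = k * V.card := by rw [Finset.sum_const, smul_eq_mul, mul_comm]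
  have hun : G0 ∪ (G2 \ G0) = G2 := Finset.union_sdiff_of_subset hsub
  have hg := grow h1 hk hr G0 (G2 \ G0) Finset.disjoint_sdiff
    (by rw [hun]; exact hC2) (by rw [hun]; exact hR2) (by rw [hun]; exact hs2)
  rw [hun] at hg
  have hzz : (Zer G).card ≤ (Zer G0).card := by
    apply Finset.card_le_card
    intro x hx
    rw [mem_Zer] at hx ⊢
    exact fun X hX => hx X (Finset.mem_filter.1 hX).1
  rw [hfil]
  calc (Zer G).card ≤ (Zer G0).card := hzz
    _ ≤ 2 ^ (G2 \ G0).card * (Zer G2).card := hg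
    _ ≤ 2 ^ (k * V.card) * (Zer G2).card :=
        Nat.mul_le_mul_right _ (Nat.pow_le_pow_right (by norm_num) hcard)
    _ = 2 ^ (k * V.card) *
        (((Zer G2).filter fun x => ∀ v ∈ V, x v = y v).card * 2 ^ V.card) := by rw [hind]
    _ = 2 ^ ((k + 1) * V.card) *
        ((Zer G2).filter fun x => ∀ v ∈ V, x v = y v).card := by ring

end Pool.Agent.N597.RK
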